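import Pool.Agent.helper287_Sidon.Main
/-!
# Sets of reals
-/

set_option autoImplicit false

open Finset

namespace Pool.Agent.helper287_Sidon

/-- Sidon sets of real numbers -/
def RSid (S : Finset ℝ) : Prop :=
  ∀ a ∈ S, ∀ b ∈ S, ∀ c ∈ S, ∀ d ∈ S, a + b = c + d → (a = c ∧ b = d) ∨ (a = d ∧ b = c)

theorem main_real : ∃ N₀ : ℕ, ∀ N : ℕ, N₀ ≤ N → ∃ A : Finset ℝ, 74 / 100 * (N : ℝ) ≤ A.card ∧
    ∀ S ⊆ A, RSid S → (S.card : ℝ) ≤ 81 / 100 * Real.sqrt N := by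
  classical
  obtain ⟨N₀, h⟩ := main'
  refine ⟨N₀, fun N hN => ?_⟩
  obtain ⟨A, _, hA, hS⟩ := h N hN
  refine ⟨A.image (fun n : ℕ => (n : ℝ)), ?_, ?_⟩
  · rw [card_image_of_injective _ Nat.cast_injective]
    exact hA
  · intro S hSA hSid
    have h1 : S = (A.filter fun n : ℕ => (n : ℝ) ∈ S).image (fun n : ℕ => (n : ℝ)) := by
      ext x
      simp only [mem_image, mem_filter]
      constructor
      · intro hx
        obtain ⟨n, hn, rfl⟩ := mem_image.1 (hSA hx)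
        exact ⟨n, ⟨hn, hx⟩, rfl⟩
      · rintro ⟨n, ⟨_, hn⟩, rfl⟩
        exact hn
    have h2 : S.card = (A.filter fun n : ℕ => (n : ℝ) ∈ S).card := by
      conv_lhs => rw [h1]
      rw [card_image_of_injective _ Nat.cast_injective]
    rw [h2]
    refine hS _ (filter_subset _ _) ?_
    intro a ha b hb c hc d hd he
    have he' : (a : ℝ) + b = c + d := by exact_mod_cast he
    have := hSid a (mem_filter.1 ha).2 b (mem_filter.1 hb).2 c (mem_filter.1 hc).2 d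
      (mem_filter.1 hd).2 he'
    exact_mod_cast this

/-- no `k²·(1 + 1/20)` bound for `k` points with distinct distances -/
theorem disproof_distances :
    ¬ (∀ ε : ℝ, 0 < ε → ∃ K : ℕ, ∀ k : ℕ, K ≤ k →
      (∃ n : ℕ, (n : ℝ) ≤ (1 + ε) * (k : ℝ) ^ 2 ∧
        ∀ S : Finset ℝ, n ≤ S.card → ∃ T ⊆ S, T.card = k ∧
          ∀ a ∈ T, ∀ b ∈ T, ∀ c ∈ T, ∀ d ∈ T, a ≠ b → c ≠ d →
            |a - b| = |c - d| → ((a = c ∧ b = d) ∨ (a = d ∧ b = c))) ∧
      (∀ n : ℕ, (n : ℝ) < (1 - ε) * (k : ℝ) ^ 2 →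
        ∃ S : Finset ℝ, S.card = n ∧ ∀ T ⊆ S, T.card = k →
          ∃ a ∈ T, ∃ b ∈ T, ∃ c ∈ T, ∃ d ∈ T, a ≠ b ∧ c ≠ d ∧
            |a - b| = |c - d| ∧ ¬((a = c ∧ b = d) ∨ (a = d ∧ b = c)))) := by
  intro h
  obtain ⟨K, hK⟩ := h (1 / 20) (by norm_num)
  obtain ⟨N₀, hN₀⟩ := main_real
  -- choose `N`
  set N : ℕ := max N₀ (max 2500 (4 * K ^ 2)) with hN
  have hN1 : N₀ ≤ N := le_max_left _ _
  have hN2 : 2500 ≤ N := (le_max_left _ _).trans (le_max_right _ _)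
  have hN3 : 4 * K ^ 2 ≤ N := (le_max_right _ _).trans (le_max_right _ _)
  have hN2' : (2500 : ℝ) ≤ N := by exact_mod_cast hN2
  have hN3' : (4 : ℝ) * K ^ 2 ≤ N := by exact_mod_cast hN3
  have hR50 : 50 ≤ Real.sqrt N := Real.le_sqrt_of_sq_le (by norm_num; exact_mod_cast hN2)
  have hRR : Real.sqrt N * Real.sqrt N = N := Real.mul_self_sqrt (by linarith)
  have hRK : 2 * (K : ℝ) ≤ Real.sqrt N := Real.le_sqrt_of_sq_le (by nlinarith)
  set k : ℕ := ⌊81 / 100 * Real.sqrt N⌋₊ + 1 with hk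
  have hk1 : 81 / 100 * Real.sqrt N < k := by
    rw [hk]
    push_cast
    exact Nat.lt_floor_add_one _
  have hk2 : (k : ℝ) ≤ 81 / 100 * Real.sqrt N + 1 := by
    rw [hk]
    push_cast
    have := Nat.floor_le (show 0 ≤ 81 / 100 * Real.sqrt N by positivity)
    linarith
  have hKk : K ≤ k := by
    have : (K : ℝ) ≤ k := by linarith
    exact_mod_cast this
  obtain ⟨A, hA, hS⟩ := hN₀ N hN1
  obtain ⟨⟨n, hn, hn2⟩, _⟩ := hK k hKk
  have hnA : n ≤ A.card := by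
    have h1 : (n : ℝ) ≤ A.card := by
      refine hn.trans (le_trans ?_ hA)
      have h2 : (k : ℝ) ^ 2 ≤ (81 / 100 * Real.sqrt N + 1) ^ 2 :=
        pow_le_pow_left₀ (Nat.cast_nonneg _) hk2 2
      nlinarith
    exact_mod_cast h1
  obtain ⟨T, hTA, hTk, hT⟩ := hn2 A hnA
  have h3 := hS T hTA ?_
  · rw [hTk] at h3
    linarith
  · intro a ha b hb c hc d hd he
    by_cases hac : a = c
    · left
      exact ⟨hac, by linarith⟩
    · by_cases had : a = d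
      · right
        exact ⟨had, by linarith⟩
      · have h4 := hT a ha c hc d hd b hb hac (fun h5 => hac (by linarith))
          (by rw [show a - c = d - b by linarith])
        rcases h4 with ⟨h5, _⟩ | ⟨h5, h6⟩
        · exact absurd h5 had
        · exfalso
          apply hac
          linarith

/-- `ℓ(N) / √N` does not tend to one -/
theorem disproof_sidon :
    ¬ (Filter.Tendsto
      (fun N : ℕ =>
        ((sSup {k : ℕ | ∀ A : Finset ℝ, A.card = N →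
            ∃ S ⊆ A, S.card = k ∧
              ∀ a ∈ S, ∀ b ∈ S, ∀ c ∈ S, ∀ d ∈ S,
                a + b = c + d → (a = c ∧ b = d) ∨ (a = d ∧ b = c)} : ℕ) : ℝ)
          / Real.sqrt (N : ℝ))
      Filter.atTop (nhds 1)) := by
  intro h
  have h1 := h.eventually (lt_mem_nhds (show (95 / 100 : ℝ) < 1 by norm_num))
  obtain ⟨M₀, hM₀⟩ := Filter.eventually_atTop.1 h1
  obtain ⟨N₀, hN₀⟩ := main_real
  set N : ℕ := max N₀ (2 * M₀ + 2) with hN
  have hN1 : N₀ ≤ N := le_max_left _ _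
  have hN2 : 2 * M₀ + 2 ≤ N := le_max_right _ _
  have hN2' : 2 * (M₀ : ℝ) + 2 ≤ N := by exact_mod_cast hN2
  obtain ⟨A, hA, hS⟩ := hN₀ N hN1
  have hM0 : (0 : ℝ) ≤ M₀ := Nat.cast_nonneg _
  have hAM : M₀ ≤ A.card := by
    have : (M₀ : ℝ) ≤ A.card := by linarith
    exact_mod_cast this
  have h2 := hM₀ A.card hAM
  set s : Set ℕ := {k : ℕ | ∀ A' : Finset ℝ, A'.card = A.card →
            ∃ S ⊆ A', S.card = k ∧
              ∀ a ∈ S, ∀ b ∈ S, ∀ c ∈ S, ∀ d ∈ S,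
                a + b = c + d → (a = c ∧ b = d) ∨ (a = d ∧ b = c)} with hs
  have hne : s.Nonempty := ⟨0, fun A' _ => ⟨∅, empty_subset _, rfl, by simp⟩⟩
  have hbdd : BddAbove s := by
    refine ⟨A.card, ?_⟩
    intro k hk
    obtain ⟨S, hSA, hSk, _⟩ := hk A rfl
    rw [← hSk]
    exact card_le_card hSA
  have hmem : sSup s ∈ s := Nat.sSup_mem hne hbdd
  obtain ⟨S, hSA, hSk, hSid⟩ := hmem A rfl
  have h3 := hS S hSA hSid
  rw [hSk] at h3
  have hA0 : (0 : ℝ) < A.card := by linarith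
  have hsA : 0 < Real.sqrt (A.card : ℝ) := Real.sqrt_pos.2 hA0
  rw [lt_div_iff₀ hsA] at h2
  have h4 : 95 / 100 * Real.sqrt (A.card : ℝ) < 81 / 100 * Real.sqrt N := h2.trans_le h3
  have h5 : (95 / 100 * Real.sqrt (A.card : ℝ)) ^ 2 < (81 / 100 * Real.sqrt N) ^ 2 :=
    pow_lt_pow_left₀ h4 (by positivity) (by norm_num)
  rw [mul_pow, mul_pow, Real.sq_sqrt hA0.le, Real.sq_sqrt (Nat.cast_nonneg N)] at h5
  nlinarith

/-- sets of reals which are not unions of `(1 + 1/20)√N` Sidon sets -/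
theorem disproof_cover :
    ¬ (∀ ε : ℝ, 0 < ε → ∃ N₀ : ℕ, ∀ A : Finset ℝ, N₀ ≤ A.card →
      ∃ k : ℕ, (k : ℝ) ≤ (1 + ε) * Real.sqrt (A.card : ℝ) ∧
        ∃ S : Fin k → Finset ℝ,
          (∀ i, ∀ a ∈ S i, ∀ b ∈ S i, ∀ c ∈ S i, ∀ d ∈ S i,
              a + b = c + d → (a = c ∧ b = d) ∨ (a = d ∧ b = c)) ∧
          ∀ x ∈ A, ∃ i, x ∈ S i) := by
  classical
  intro h
  obtain ⟨M₀, hM₀⟩ := h (1 / 20) (by norm_num)
  obtain ⟨N₀, hN₀⟩ := main_real
  set N : ℕ := max N₀ (2 * M₀ + 2) with hN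
  have hN1 : N₀ ≤ N := le_max_left _ _
  have hN2 : 2 * M₀ + 2 ≤ N := le_max_right _ _
  have hN2' : 2 * (M₀ : ℝ) + 2 ≤ N := by exact_mod_cast hN2
  obtain ⟨A, hA, hS⟩ := hN₀ N hN1
  have hM0 : (0 : ℝ) ≤ M₀ := Nat.cast_nonneg _
  have hAM : M₀ ≤ A.card := by
    have : (M₀ : ℝ) ≤ A.card := by linarith
    exact_mod_cast this
  obtain ⟨k, hk, S, hSid, hcov⟩ := hM₀ A hAM
  have hA0 : (0 : ℝ) < A.card := by linarith
  have hsA : 0 < Real.sqrt (A.card : ℝ) := Real.sqrt_pos.2 hA0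
  have h1 : A.card ≤ ∑ i : Fin k, (A ∩ S i).card := by
    refine le_trans (card_le_card ?_) card_biUnion_le
    intro x hx
    obtain ⟨i, hi⟩ := hcov x hx
    exact mem_biUnion.2 ⟨i, mem_univ _, mem_inter.2 ⟨hx, hi⟩⟩
  have h2 : (A.card : ℝ) ≤ ∑ i : Fin k, ((A ∩ S i).card : ℝ) := by exact_mod_cast h1
  have h3 : ∑ i : Fin k, ((A ∩ S i).card : ℝ) ≤ ∑ _i : Fin k, 81 / 100 * Real.sqrt N := by
    refine sum_le_sum fun i _ => hS _ inter_subset_left ?_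
    intro a ha b hb c hc d hd he
    exact hSid i a (mem_inter.1 ha).2 b (mem_inter.1 hb).2 c (mem_inter.1 hc).2 d
      (mem_inter.1 hd).2 he
  rw [sum_const, card_univ, Fintype.card_fin, nsmul_eq_mul] at h3
  have hR0 : 0 ≤ Real.sqrt N := Real.sqrt_nonneg _
  have h4 : (A.card : ℝ) ≤ (1 + 1 / 20) * Real.sqrt (A.card : ℝ) * (81 / 100 * Real.sqrt N) :=
    (h2.trans h3).trans (mul_le_mul_of_nonneg_right hk (by positivity))
  have hAA : Real.sqrt (A.card : ℝ) * Real.sqrt (A.card : ℝ) = A.card :=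
    Real.mul_self_sqrt hA0.le
  have h5 : Real.sqrt (A.card : ℝ) ≤ (1 + 1 / 20) * (81 / 100 * Real.sqrt N) := by
    have h6 : Real.sqrt (A.card : ℝ) * Real.sqrt (A.card : ℝ) ≤
        Real.sqrt (A.card : ℝ) * ((1 + 1 / 20) * (81 / 100 * Real.sqrt N)) := by
      rw [hAA]
      linarith
    exact le_of_mul_le_mul_left h6 hsA
  have h7 : Real.sqrt (A.card : ℝ) ^ 2 ≤ ((1 + 1 / 20) * (81 / 100 * Real.sqrt N)) ^ 2 :=
    pow_le_pow_left₀ hsA.le h5 2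
  rw [Real.sq_sqrt hA0.le, mul_pow, mul_pow, Real.sq_sqrt (Nat.cast_nonneg N)] at h7
  nlinarith

end Pool.Agent.helper287_Sidon
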