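import Pool.Agent.helper287_Sidon.Defs
/-!
# Balls in the graph of structured neighbours (proved by helper839)
-/

set_option autoImplicit false

open Finset

namespace Pool.Agent.helper287_Sidon



/-- the closed neighbourhood of `a` -/
def balls_auxNb (C P Q : Finset ℕ) (a : ℕ) : Finset ℕ :=
  insert a (C.filter fun x => (x ≠ a ∧ (x - a) + (a - x) ∈ P) ∨ a + x ∈ Q)

/-- the balls -/
def balls_auxB (C P Q : Finset ℕ) : ℕ → ℕ → Finset ℕ
  | 0, s => {s}
  | i + 1, s => (balls_auxB C P Q i s).biUnion (balls_auxNb C P Q)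

/-- the elementary moves -/
def balls_auxT (P Q : Finset ℕ) : Finset (ℤ × ℤ) :=
  insert (1, 0) (P.image (fun p : ℕ => ((1 : ℤ), (p : ℤ))) ∪
    P.image (fun p : ℕ => ((1 : ℤ), -(p : ℤ))) ∪ Q.image (fun q : ℕ => ((-1 : ℤ), (q : ℤ))))

/-- the compositions of `n` moves -/
def balls_auxG (P Q : Finset ℕ) : ℕ → Finset (ℤ × ℤ)
  | 0 => {(1, 0)}
  | n + 1 => ((balls_auxG P Q n) ×ˢ (balls_auxT P Q)).image
      (fun x => (x.2.1 * x.1.1, x.2.1 * x.1.2 + x.2.2))

/-- the bad points -/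
def balls_auxBP (C P Q : Finset ℕ) : Finset ℕ :=
  C.filter fun a => ∃ y ∈ C, a + y ∈ Q ∧ (y = a ∨ (y - a) + (a - y) ∈ P)

theorem balls_auxT_card (P Q : Finset ℕ) (M : ℕ) (hP : P.card ≤ M) (hQ : Q.card ≤ M) :
    (balls_auxT P Q).card ≤ 3 * M + 1 := by
  unfold balls_auxT
  refine (Finset.card_insert_le _ _).trans ?_
  have h1 := Finset.card_union_le (P.image (fun p : ℕ => ((1 : ℤ), (p : ℤ))) ∪
    P.image (fun p : ℕ => ((1 : ℤ), -(p : ℤ)))) (Q.image (fun q : ℕ => ((-1 : ℤ), (q : ℤ))))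
  have h2 := Finset.card_union_le (P.image (fun p : ℕ => ((1 : ℤ), (p : ℤ))))
    (P.image (fun p : ℕ => ((1 : ℤ), -(p : ℤ))))
  have h3 : (P.image (fun p : ℕ => ((1 : ℤ), (p : ℤ)))).card ≤ P.card := Finset.card_image_le
  have h4 : (P.image (fun p : ℕ => ((1 : ℤ), -(p : ℤ)))).card ≤ P.card := Finset.card_image_le
  have h5 : (Q.image (fun q : ℕ => ((-1 : ℤ), (q : ℤ)))).card ≤ Q.card := Finset.card_image_le
  omega

theorem balls_auxT_sign (P Q : Finset ℕ) (t : ℤ × ℤ) (ht : t ∈ balls_auxT P Q) :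
    t.1 = 1 ∨ t.1 = -1 := by
  unfold balls_auxT at ht
  simp only [mem_insert, mem_union, mem_image] at ht
  rcases ht with rfl | ((⟨p, _, rfl⟩ | ⟨p, _, rfl⟩) | ⟨p, _, rfl⟩) <;> simp

theorem balls_auxG_card (P Q : Finset ℕ) (M : ℕ) (hP : P.card ≤ M) (hQ : Q.card ≤ M) (n : ℕ) :
    (balls_auxG P Q n).card ≤ (3 * M + 1) ^ n := by
  induction n with
  | zero => simp [balls_auxG]
  | succ n ih =>
    rw [balls_auxG]
    refine Finset.card_image_le.trans ?_
    rw [Finset.card_product, pow_succ]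
    exact Nat.mul_le_mul ih (balls_auxT_card P Q M hP hQ)

theorem balls_auxG_sign (P Q : Finset ℕ) (n : ℕ) : ∀ g ∈ balls_auxG P Q n,
    g.1 = 1 ∨ g.1 = -1 := by
  induction n with
  | zero => intro g hg; simp [balls_auxG] at hg; subst hg; simp
  | succ n ih =>
    intro g hg
    rw [balls_auxG, mem_image] at hg
    obtain ⟨⟨x, t⟩, hx, rfl⟩ := hg
    rw [mem_product] at hx
    rcases ih x hx.1 with h1 | h1 <;> rcases balls_auxT_sign P Q t hx.2 with h2 | h2 <;>
      simp [h1, h2]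

theorem balls_aux_step (C P Q : Finset ℕ) (a x : ℕ) (hx : x ∈ balls_auxNb C P Q a) :
    ∃ t ∈ balls_auxT P Q, (x : ℤ) = t.1 * a + t.2 := by
  unfold balls_auxNb at hx
  rw [mem_insert, mem_filter] at hx
  unfold balls_auxT
  rcases hx with rfl | ⟨_, (⟨_, h⟩ | h)⟩
  · exact ⟨(1, 0), by simp, by simp⟩
  · rcases le_total a x with hax | hax
    · refine ⟨(1, ((x - a + (a - x) : ℕ) : ℤ)), ?_, ?_⟩
      · simp only [mem_insert, mem_union, mem_image]
        right; left; left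
        exact ⟨_, h, rfl⟩
      · push_cast [Nat.sub_eq_zero_of_le hax]
        rw [Nat.cast_sub hax]; ring
    · refine ⟨(1, -((x - a + (a - x) : ℕ) : ℤ)), ?_, ?_⟩
      · simp only [mem_insert, mem_union, mem_image]
        right; left; right
        exact ⟨_, h, rfl⟩
      · push_cast [Nat.sub_eq_zero_of_le hax]
        rw [Nat.cast_sub hax]; ring
  · refine ⟨(-1, ((a + x : ℕ) : ℤ)), ?_, ?_⟩
    · simp only [mem_insert, mem_union, mem_image]
      right; right
      exact ⟨_, h, rfl⟩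
    · push_cast; ring

theorem balls_aux_symm (C P Q : Finset ℕ) (a x : ℕ) (ha : a ∈ C)
    (hx : x ∈ balls_auxNb C P Q a) : a ∈ balls_auxNb C P Q x := by
  unfold balls_auxNb at hx ⊢
  rw [mem_insert, mem_filter] at hx ⊢
  rcases hx with rfl | ⟨_, (⟨h0, h⟩ | h)⟩
  · left; rfl
  · right
    refine ⟨ha, Or.inl ⟨Ne.symm h0, ?_⟩⟩
    rwa [add_comm]
  · right
    refine ⟨ha, Or.inr ?_⟩
    rwa [add_comm]

theorem balls_auxNb_sub (C P Q : Finset ℕ) (a : ℕ) (ha : a ∈ C) : balls_auxNb C P Q a ⊆ C := by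
  unfold balls_auxNb
  intro x hx
  rw [mem_insert, mem_filter] at hx
  rcases hx with rfl | hx
  · exact ha
  · exact hx.1

theorem balls_auxB_sub (C P Q : Finset ℕ) (s : ℕ) (hs : s ∈ C) (i : ℕ) :
    balls_auxB C P Q i s ⊆ C := by
  induction i with
  | zero => simpa [balls_auxB] using hs
  | succ i ih =>
    rw [balls_auxB]
    intro x hx
    rw [mem_biUnion] at hx
    obtain ⟨a, ha, hx⟩ := hx
    exact balls_auxNb_sub C P Q a (ih ha) hx

theorem balls_auxNb_subB (C P Q : Finset ℕ) (s a i : ℕ) (ha : a ∈ balls_auxB C P Q i s) :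
    balls_auxNb C P Q a ⊆ balls_auxB C P Q (i + 1) s := by
  rw [balls_auxB]
  intro x hx
  rw [mem_biUnion]
  exact ⟨a, ha, hx⟩

theorem balls_auxB_succ (C P Q : Finset ℕ) (s i : ℕ) :
    balls_auxB C P Q i s ⊆ balls_auxB C P Q (i + 1) s := by
  intro a ha
  exact balls_auxNb_subB C P Q s a i ha (by unfold balls_auxNb; simp)

theorem balls_auxB_mono (C P Q : Finset ℕ) (s : ℕ) {i j : ℕ} (h : i ≤ j) :
    balls_auxB C P Q i s ⊆ balls_auxB C P Q j s := by
  induction h with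
  | refl => exact subset_rfl
  | step _ ih => exact ih.trans (balls_auxB_succ C P Q s _)

theorem balls_aux_fwd (C P Q : Finset ℕ) (s i : ℕ) : ∀ b ∈ balls_auxB C P Q i s,
    ∃ g ∈ balls_auxG P Q i, (b : ℤ) = g.1 * s + g.2 := by
  induction i with
  | zero => intro b hb; simp [balls_auxB] at hb; subst hb; exact ⟨(1, 0), by simp [balls_auxG]⟩
  | succ i ih =>
    intro b hb
    rw [balls_auxB, mem_biUnion] at hb
    obtain ⟨a, ha, hb⟩ := hb
    obtain ⟨g, hg, hga⟩ := ih a ha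
    obtain ⟨t, ht, htb⟩ := balls_aux_step C P Q a b hb
    refine ⟨(t.1 * g.1, t.1 * g.2 + t.2), ?_, ?_⟩
    · rw [balls_auxG, mem_image]
      exact ⟨(g, t), by rw [mem_product]; exact ⟨hg, ht⟩, rfl⟩
    · rw [htb, hga]; ring

theorem balls_aux_bwd (C P Q : Finset ℕ) (s : ℕ) (hs : s ∈ C) (z : ℕ) (i : ℕ) :
    ∀ b ∈ balls_auxB C P Q i s, ∀ n : ℕ, ∀ g ∈ balls_auxG P Q n, (b : ℤ) = g.1 * z + g.2 →
    ∃ g' ∈ balls_auxG P Q (n + i), (s : ℤ) = g'.1 * z + g'.2 := by
  induction i with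
  | zero =>
    intro b hb n g hg h
    simp [balls_auxB] at hb
    subst hb
    exact ⟨g, hg, h⟩
  | succ i ih =>
    intro b hb n g hg h
    rw [balls_auxB, mem_biUnion] at hb
    obtain ⟨a, ha, hb⟩ := hb
    have haC := balls_auxB_sub C P Q s hs i ha
    obtain ⟨t, ht, hta⟩ := balls_aux_step C P Q b a (balls_aux_symm C P Q a b haC hb)
    have := ih a ha (n + 1) (t.1 * g.1, t.1 * g.2 + t.2)
      (by
        rw [balls_auxG, mem_image]
        exact ⟨(g, t), by rw [mem_product]; exact ⟨hg, ht⟩, rfl⟩)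
      (by rw [hta, h]; ring)
    rwa [show n + 1 + i = n + (i + 1) by ring] at this

/-- For each move at most two points of a Sidon set move inside it. -/
theorem balls_aux_two (S : Finset ℕ) (hS : Sid S) (g : ℤ × ℤ) (hg : g.1 = 1 ∨ g.1 = -1) :
    (S.filter fun s => ∃ s' ∈ S, s' ≠ s ∧ (s' : ℤ) = g.1 * s + g.2).card ≤ 2 := by
  classical
  rcases Finset.eq_empty_or_nonempty
    (S.filter fun s => ∃ s' ∈ S, s' ≠ s ∧ (s' : ℤ) = g.1 * s + g.2) with he | ⟨s0, h0⟩
  · rw [he]; simp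
  · rw [mem_filter] at h0
    obtain ⟨hs0, s0', hs0', hne0, he0⟩ := h0
    refine (Finset.card_le_card (t := {s0, s0'}) ?_).trans Finset.card_le_two
    intro s hs
    rw [mem_filter] at hs
    obtain ⟨hs, s', hs', hne, he⟩ := hs
    rw [mem_insert, mem_singleton]
    rcases hg with h1 | h1
    · rw [h1] at he0 he
      have : s + s0' = s0 + s' := by zify; linarith
      rcases hS s hs s0' hs0' s0 hs0 s' hs' this with h | h
      · left; exact h.1
      · exact absurd h.1.symm hne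
    · rw [h1] at he0 he
      have : s + s' = s0 + s0' := by zify; linarith
      rcases hS s hs s' hs' s0 hs0 s0' hs0' this with h | h
      · left; exact h.1
      · right; exact h.1

theorem balls_auxBP_card (C P Q : Finset ℕ) (M : ℕ) (hP : P.card ≤ M) (hQ : Q.card ≤ M) :
    (balls_auxBP C P Q).card ≤ M + 2 * M ^ 2 := by
  classical
  have hsub : balls_auxBP C P Q ⊆ (Q.image (fun q => q / 2)) ∪
      ((Q ×ˢ P).image (fun x => (x.1 + x.2) / 2) ∪ (Q ×ˢ P).image (fun x => (x.1 - x.2) / 2)) := by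
    intro a ha
    unfold balls_auxBP at ha
    rw [mem_filter] at ha
    obtain ⟨_, y, _, hq, (rfl | hp)⟩ := ha
    · rw [mem_union]; left
      rw [mem_image]
      exact ⟨y + y, hq, by omega⟩
    · rw [mem_union, mem_union]; right
      rcases le_total a y with hay | hay
      · right
        rw [mem_image]
        refine ⟨(a + y, y - a + (a - y)), by rw [mem_product]; exact ⟨hq, hp⟩, ?_⟩
        simp only
        omega
      · left
        rw [mem_image]
        refine ⟨(a + y, y - a + (a - y)), by rw [mem_product]; exact ⟨hq, hp⟩, ?_⟩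
        simp only
        omega
  refine (Finset.card_le_card hsub).trans ((Finset.card_union_le _ _).trans ?_)
  have h1 : (Q.image (fun q => q / 2)).card ≤ M := Finset.card_image_le.trans hQ
  have hm : Q.card * P.card ≤ M ^ 2 := by
    rw [sq]; exact Nat.mul_le_mul hQ hP
  have h2 : ((Q ×ˢ P).image (fun x => (x.1 + x.2) / 2)).card ≤ M ^ 2 :=
    Finset.card_image_le.trans (by rw [Finset.card_product]; exact hm)
  have h3 : ((Q ×ˢ P).image (fun x => (x.1 - x.2) / 2)).card ≤ M ^ 2 :=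
    Finset.card_image_le.trans (by rw [Finset.card_product]; exact hm)
  have h4 := Finset.card_union_le ((Q ×ˢ P).image (fun x => (x.1 + x.2) / 2))
    ((Q ×ˢ P).image (fun x => (x.1 - x.2) / 2))
  omega

theorem balls_auxNb_card (C P Q : Finset ℕ) (a : ℕ) (ha : a ∈ C) (hb : a ∉ balls_auxBP C P Q) :
    (balls_auxNb C P Q a).card = kk C P Q a := by
  classical
  unfold balls_auxNb kk
  have hb' : ∀ y ∈ C, a + y ∈ Q → y ≠ a ∧ (y - a) + (a - y) ∉ P := by
    intro y hy hq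
    by_contra hcon
    apply hb
    unfold balls_auxBP
    rw [mem_filter]
    refine ⟨ha, y, hy, hq, ?_⟩
    by_contra h2
    exact hcon (by push Not at h2; exact h2)
  rw [Finset.card_insert_of_notMem]
  · rw [Finset.filter_or, Finset.card_union_of_disjoint]
    · ring
    · rw [Finset.disjoint_left]
      intro y hy hy2
      rw [mem_filter] at hy hy2
      exact (hb' y hy2.1 hy2.2).2 hy.2.2
  · rw [mem_filter]
    rintro ⟨_, (h | h)⟩
    · exact h.1 rfl
    · exact (hb' a ha h).1 rfl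

theorem balls_aux_kk_ne (C P Q : Finset ℕ) (a x : ℕ) (hx : x ∈ C)
    (hk : kk C P Q a ≠ 1) (h : a ∈ balls_auxNb C P Q x) (hxa : x ∈ C) (hax : a ∈ C) :
    kk C P Q x ≠ 1 := by
  unfold balls_auxNb at h
  rw [mem_insert, mem_filter] at h
  rcases h with rfl | ⟨_, (⟨h0, h⟩ | h)⟩
  · exact hk
  · unfold kk
    have : 0 < (C.filter fun y => y ≠ x ∧ (y - x) + (x - y) ∈ P).card := by
      rw [Finset.card_pos]
      exact ⟨a, by rw [mem_filter]; exact ⟨hax, h0, h⟩⟩
    omega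
  · unfold kk
    have : 0 < (C.filter fun y => x + y ∈ Q).card := by
      rw [Finset.card_pos]
      exact ⟨a, by rw [mem_filter]; exact ⟨hax, h⟩⟩
    omega

theorem balls_auxB_kk (C P Q : Finset ℕ) (s : ℕ) (hs : s ∈ C) (hk : kk C P Q s ≠ 1) (i : ℕ) :
    ∀ b ∈ balls_auxB C P Q i s, kk C P Q b ≠ 1 := by
  induction i with
  | zero => intro b hb; simp [balls_auxB] at hb; subst hb; exact hk
  | succ i ih =>
    intro b hb
    rw [balls_auxB, mem_biUnion] at hb
    obtain ⟨a, ha, hb⟩ := hb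
    have haC := balls_auxB_sub C P Q s hs i ha
    have hbC := balls_auxNb_sub C P Q a haC hb
    exact balls_aux_kk_ne C P Q a b hbC (ih a ha) (balls_aux_symm C P Q a b haC hb) hbC haC

theorem balls_auxff_nonneg (C P Q : Finset ℕ) (a : ℕ) : 0 ≤ ff C P Q a := by
  unfold ff; positivity

theorem balls_aux_pack (T U : Finset ℕ) (B : ℕ → Finset ℕ) (w : ℕ → ℝ) (c : ℝ)
    (hd : ∀ s ∈ T, ∀ s' ∈ T, s ≠ s' → Disjoint (B s) (B s')) (hU : ∀ s ∈ T, B s ⊆ U)
    (hw : ∀ a, 0 ≤ w a) (hc : ∀ s ∈ T, c ≤ ∑ a ∈ B s, w a) :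
    T.card * c ≤ ∑ a ∈ U, w a := by
  classical
  calc (T.card : ℝ) * c = ∑ s ∈ T, c := by rw [Finset.sum_const, nsmul_eq_mul]
    _ ≤ ∑ s ∈ T, ∑ a ∈ B s, w a := Finset.sum_le_sum hc
    _ = ∑ a ∈ T.biUnion B, w a := by
        rw [Finset.sum_biUnion]
        intro s hs s' hs' hne
        exact hd s hs s' hs' hne
    _ ≤ ∑ a ∈ U, w a := by
        apply Finset.sum_le_sum_of_subset_of_nonneg
        · intro a ha
          rw [mem_biUnion] at ha
          obtain ⟨s, hs, ha⟩ := ha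
          exact hU s hs ha
        · intro a _ _; exact hw a

/-- The recursion: small weight forces doubly exponential growth. -/
theorem balls_aux_grow (C P Q : Finset ℕ) (s : ℕ) (hs : s ∈ C) (hk : kk C P Q s ≠ 1) (ℓ : ℕ)
    (hbad : Disjoint (balls_auxB C P Q (ℓ + 1) s) (balls_auxBP C P Q))
    (hF : ∑ a ∈ balls_auxB C P Q (ℓ + 1) s, ff C P Q a < 5 / 4) :
    (25 / 16 : ℝ) * (32 / 25) ^ (2 ^ ℓ) ≤ ((balls_auxB C P Q (ℓ + 1) s).card : ℝ) := by
  classical
  have key : ∀ i ≤ ℓ, (25 / 16 : ℝ) * (32 / 25) ^ (2 ^ i) ≤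
      ((balls_auxB C P Q (i + 1) s).card : ℝ) := by
    intro i
    induction i with
    | zero =>
      intro _
      have h1 : balls_auxB C P Q 1 s = balls_auxNb C P Q s := by simp [balls_auxB]
      have hsb : s ∉ balls_auxBP C P Q := by
        intro hcon
        have : s ∈ balls_auxB C P Q (ℓ + 1) s :=
          balls_auxB_mono C P Q s (Nat.zero_le _) (by simp [balls_auxB])
        exact Finset.disjoint_left.mp hbad this hcon
      rw [h1, balls_auxNb_card C P Q s hs hsb]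
      have : 2 ≤ kk C P Q s := by
        have : 1 ≤ kk C P Q s := by unfold kk; omega
        omega
      have h2 : (2 : ℝ) ≤ (kk C P Q s : ℝ) := by exact_mod_cast this
      norm_num
      linarith
    | succ i ih =>
      intro hi
      have ih' := ih (by omega)
      set b := ((balls_auxB C P Q (i + 1) s).card : ℝ) with hb
      set b' := ((balls_auxB C P Q (i + 1 + 1) s).card : ℝ) with hb'
      have hbpos : 0 < b := by
        refine lt_of_lt_of_le ?_ ih'
        positivity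
      have hbb : b ≤ b' := by
        rw [hb, hb']
        exact_mod_cast Finset.card_le_card (balls_auxB_succ C P Q s (i + 1))
      have hb'pos : 0 < b' := lt_of_lt_of_le hbpos hbb
      have hge : b / Real.sqrt b' ≤ ∑ a ∈ balls_auxB C P Q (ℓ + 1) s, ff C P Q a := by
        calc b / Real.sqrt b' = ∑ a ∈ balls_auxB C P Q (i + 1) s, 1 / Real.sqrt b' := by
              rw [Finset.sum_const, nsmul_eq_mul]; ring
          _ ≤ ∑ a ∈ balls_auxB C P Q (i + 1) s, ff C P Q a := by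
              apply Finset.sum_le_sum
              intro a ha
              unfold ff
              have haC := balls_auxB_sub C P Q s hs (i + 1) ha
              have hab : a ∉ balls_auxBP C P Q := by
                intro hcon
                have : a ∈ balls_auxB C P Q (ℓ + 1) s :=
                  balls_auxB_mono C P Q s (by omega) ha
                exact Finset.disjoint_left.mp hbad this hcon
              have hka : (kk C P Q a : ℝ) ≤ b' := by
                rw [← balls_auxNb_card C P Q a haC hab, hb']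
                exact_mod_cast Finset.card_le_card (balls_auxNb_subB C P Q s a (i + 1) ha)
              have hkpos : (0 : ℝ) < kk C P Q a := by
                have : 1 ≤ kk C P Q a := by unfold kk; omega
                exact_mod_cast this
              apply one_div_le_one_div_of_le (Real.sqrt_pos.mpr hkpos)
              exact Real.sqrt_le_sqrt hka
          _ ≤ _ := by
              apply Finset.sum_le_sum_of_subset_of_nonneg
              · exact balls_auxB_mono C P Q s (by omega)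
              · intro a _ _; exact balls_auxff_nonneg C P Q a
      have hlt : b / Real.sqrt b' < 5 / 4 := lt_of_le_of_lt hge hF
      rw [div_lt_iff₀ (Real.sqrt_pos.mpr hb'pos)] at hlt
      have hsq : b ^ 2 ≤ (25 / 16) * b' := by
        have h1 : b ^ 2 ≤ (5 / 4 * Real.sqrt b') ^ 2 := by
          apply pow_le_pow_left₀ hbpos.le hlt.le
        rw [mul_pow, Real.sq_sqrt hb'pos.le] at h1
        linarith
      have h2 : ((25 / 16 : ℝ) * (32 / 25) ^ (2 ^ i)) ^ 2 ≤ b ^ 2 :=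
        pow_le_pow_left₀ (by positivity) ih' 2
      have h3 : ((25 / 16 : ℝ) * (32 / 25) ^ (2 ^ i)) ^ 2 =
          (25 / 16) * ((25 / 16) * (32 / 25) ^ (2 ^ (i + 1))) := by
        rw [mul_pow, ← pow_mul, pow_succ 2 i]; ring
      rw [h3] at h2
      have h4 : (25 / 16 : ℝ) * ((25 / 16) * (32 / 25) ^ (2 ^ (i + 1))) ≤ (25 / 16) * b' :=
        h2.trans hsq
      linarith
  exact key ℓ le_rfl

/-- TARGET. Proof. Relation on ℕ: a ~ x if x ≠ a and |x-a| ∈ P, or a + x ∈ Q (symmetric). N[a] = {a} ∪ {x ∈ C : a ~ x}, k(a) = kk C P Q a, f = ff C P Q, W = 5/4.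
(1) Bad points: a ∈ C such that some y ∈ C has a + y ∈ Q and (y = a or |y-a| ∈ P). At most M + 2M² of them (2a = σ, or 2a ± p = σ). If a ∈ C is not bad, k(a) = |N[a]|. Always |N[a]| ≤ k(a).
(2) Balls B_0(s) = {s}, B_{i+1}(s) = ⋃_{a∈B_i(s)} N[a] (⊆ C). Fix ℓ. If b ∈ B_ℓ(s) ∩ B_ℓ(s') then s' ∈ B_{2ℓ}(s), and s' = g(s) for a map g : ℤ → ℤ, g(x) = ±x + c,
 which is a composition of 2ℓ maps among identity, x+p, x-p (p∈P), σ-x (σ∈Q); the number of such g is at most (3M+1)^{2ℓ} =: L. For each g, since S is Sidon, at most 2 points s ∈ S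
 have g(s) ∈ S, g(s) ≠ s. So there is S' ⊆ S, |S \ S'| ≤ 2L, with pairwise disjoint balls B_ℓ(s), s ∈ S'. Removing at most M+2M² more points, no ball B_ℓ(s) contains a bad point.
(3) Let s ∈ S' with k(s) ≠ 1, b_i = |B_i(s)|. s not bad and k(s) ≥ 2 give b_1 ≥ 2. For a ∈ B_{i-1}(s), i ≤ ℓ: k(a) = |N[a]| ≤ b_i, so F(s) := Σ_{a∈B_ℓ(s)} f(a) ≥ b_{i-1}/√b_i.
 If F(s) < W then b_i > b_{i-1}²/W² for i = 2..ℓ, so b_ℓ/W² ≥ (2/W²)^{2^{ℓ-1}} = (32/25)^{2^{ℓ-1}}. Choose ℓ with W² (32/25)^{2^{ℓ-1}} ≥ 2K₀/ε: by disjointness at most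
 |C|/(2K₀/ε) ≤ (ε/2)√N such s. All other s have F(s) ≥ W; their balls are disjoint and contained in {a ∈ C : k(a) ≠ 1} (a point with k = 1 has no neighbours, itself included, so it is not
 in the ball of another point; k(a) = 1 means both filters are empty), so their number is ≤ (1/W) Σ_{a∈C, k(a)≠1} f(a) = (4/5) Σ.
(4) Total: (4/5)Σ + (ε/2)√N + 2L + M + 2M² ≤ (4/5)Σ + ε√N for N large. -/
theorem balls (ε K₀ : ℝ) (M : ℕ) (hε : 0 < ε) (hK : 0 < K₀) : ∃ N₀ : ℕ, ∀ N : ℕ, N₀ ≤ N →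
    ∀ C P Q S : Finset ℕ, (C.card : ℝ) ≤ K₀ * Real.sqrt N → P.card ≤ M → Q.card ≤ M →
      S ⊆ C → Sid S →
      ((S.filter fun a => kk C P Q a ≠ 1).card : ℝ) ≤
        4 / 5 * ∑ a ∈ C.filter (fun a => kk C P Q a ≠ 1), ff C P Q a + ε * Real.sqrt N := by
  classical
  obtain ⟨ℓ, hℓ⟩ : ∃ ℓ : ℕ, 2 * K₀ / ε ≤ (25 / 16 : ℝ) * (32 / 25) ^ (2 ^ ℓ) := by
    obtain ⟨n, hn⟩ := pow_unbounded_of_one_lt (2 * K₀ / ε) (show (1 : ℝ) < 32 / 25 by norm_num)
    refine ⟨n, ?_⟩
    have h1 : (32 / 25 : ℝ) ^ n ≤ (32 / 25) ^ (2 ^ n) :=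
      pow_le_pow_right₀ (by norm_num) (Nat.lt_two_pow_self).le
    have h2 : (0 : ℝ) < (32 / 25) ^ (2 ^ n) := by positivity
    linarith
  set R : ℝ := 2 * (3 * M + 1) ^ (2 * (ℓ + 1)) + (M + 2 * M ^ 2) with hR
  obtain ⟨N₀, hN₀⟩ := exists_nat_ge ((2 * R / ε) ^ 2)
  refine ⟨N₀, ?_⟩
  intro N hN C P Q S hC hP hQ hSC hS
  have hRpos : 0 ≤ R := by rw [hR]; positivity
  have hsqrt : R ≤ ε / 2 * Real.sqrt N := by
    have h1 : (2 * R / ε) ^ 2 ≤ (N : ℝ) := hN₀.trans (by exact_mod_cast hN)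
    have h2 : 2 * R / ε ≤ Real.sqrt N := by
      apply Real.le_sqrt_of_sq_le h1
    rw [div_le_iff₀ hε] at h2
    linarith
  set ℓ' := ℓ + 1 with hℓ'
  -- the points moved inside `S`
  obtain ⟨Bd, hBd⟩ : ∃ Bd : Finset ℕ, ∀ s, s ∈ Bd ↔ s ∈ S ∧
      (∃ g ∈ balls_auxG P Q (2 * ℓ'), ∃ s' ∈ S, s' ≠ s ∧ (s' : ℤ) = g.1 * s + g.2) :=
    ⟨S.filter _, fun s => Finset.mem_filter⟩
  have hBdcard : (Bd.card : ℝ) ≤ 2 * (3 * M + 1) ^ (2 * ℓ') := by
    have h1 : Bd ⊆ (balls_auxG P Q (2 * ℓ')).biUnion (fun g =>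
        S.filter fun s => ∃ s' ∈ S, s' ≠ s ∧ (s' : ℤ) = g.1 * s + g.2) := by
      intro s hs
      rw [hBd] at hs
      obtain ⟨hs, g, hg, h⟩ := hs
      rw [mem_biUnion]
      exact ⟨g, hg, by rw [mem_filter]; exact ⟨hs, h⟩⟩
    have h2 : Bd.card ≤ (balls_auxG P Q (2 * ℓ')).card * 2 := by
      refine (Finset.card_le_card h1).trans (Finset.card_biUnion_le_card_mul _ _ _ ?_)
      intro g hg
      exact balls_aux_two S hS g (balls_auxG_sign P Q _ g hg)
    have h3 := balls_auxG_card P Q M hP hQ (2 * ℓ')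
    have h4 : Bd.card ≤ 2 * (3 * M + 1) ^ (2 * ℓ') := by
      calc Bd.card ≤ (balls_auxG P Q (2 * ℓ')).card * 2 := h2
        _ ≤ (3 * M + 1) ^ (2 * ℓ') * 2 := Nat.mul_le_mul_right 2 h3
        _ = _ := by ring
    exact_mod_cast h4
  set S1 := S \ Bd with hS1
  have hdisj : ∀ s ∈ S1, ∀ s' ∈ S1, s ≠ s' →
      Disjoint (balls_auxB C P Q ℓ' s) (balls_auxB C P Q ℓ' s') := by
    intro s hs s' hs' hne
    rw [Finset.disjoint_left]
    intro b hb hb'
    rw [hS1, mem_sdiff] at hs hs'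
    obtain ⟨g, hg, hgb⟩ := balls_aux_fwd C P Q s ℓ' b hb
    obtain ⟨g', hg', hgs⟩ := balls_aux_bwd C P Q s' (hSC hs'.1) s ℓ' b hb' ℓ' g hg hgb
    apply hs.2
    rw [hBd]
    refine ⟨hs.1, g', ?_, s', hs'.1, hne.symm, hgs⟩
    rwa [show 2 * ℓ' = ℓ' + ℓ' by ring]
  -- points with bad balls
  set S2 := S1.filter (fun s => ¬ Disjoint (balls_auxB C P Q ℓ' s) (balls_auxBP C P Q)) with hS2
  have hS2card : (S2.card : ℝ) ≤ M + 2 * M ^ 2 := by
    have h1 := balls_aux_pack S2 (balls_auxBP C P Q)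
      (fun s => balls_auxB C P Q ℓ' s ∩ balls_auxBP C P Q) (fun _ => 1) 1
      (by
        intro s hs s' hs' hne
        rw [hS2, mem_filter] at hs hs'
        exact (hdisj s hs.1 s' hs'.1 hne).mono inter_subset_left inter_subset_left)
      (by intro s _; exact inter_subset_right)
      (by intro a; norm_num)
      (by
        intro s hs
        rw [hS2, mem_filter, Finset.not_disjoint_iff] at hs
        obtain ⟨_, a, ha, ha'⟩ := hs
        rw [Finset.sum_const, nsmul_eq_mul, mul_one]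
        have : 0 < (balls_auxB C P Q ℓ' s ∩ balls_auxBP C P Q).card := by
          rw [Finset.card_pos]; exact ⟨a, mem_inter.mpr ⟨ha, ha'⟩⟩
        exact_mod_cast this)
    rw [Finset.sum_const, nsmul_eq_mul, mul_one, mul_one] at h1
    have h2 : ((balls_auxBP C P Q).card : ℝ) ≤ M + 2 * M ^ 2 := by
      exact_mod_cast balls_auxBP_card C P Q M hP hQ
    linarith
  -- points of small weight
  set S3 := S1.filter (fun s => Disjoint (balls_auxB C P Q ℓ' s) (balls_auxBP C P Q) ∧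
    kk C P Q s ≠ 1 ∧ ∑ a ∈ balls_auxB C P Q ℓ' s, ff C P Q a < 5 / 4) with hS3
  have hS3card : (S3.card : ℝ) ≤ ε / 2 * Real.sqrt N := by
    have h1 := balls_aux_pack S3 C (fun s => balls_auxB C P Q ℓ' s) (fun _ => 1) (2 * K₀ / ε)
      (by
        intro s hs s' hs' hne
        rw [hS3, mem_filter] at hs hs'
        exact hdisj s hs.1 s' hs'.1 hne)
      (by
        intro s hs
        rw [hS3, mem_filter, hS1, mem_sdiff] at hs
        exact balls_auxB_sub C P Q s (hSC hs.1.1) ℓ')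
      (by intro a; norm_num)
      (by
        intro s hs
        rw [hS3, mem_filter, hS1, mem_sdiff] at hs
        rw [Finset.sum_const, nsmul_eq_mul, mul_one]
        exact hℓ.trans (balls_aux_grow C P Q s (hSC hs.1.1) hs.2.2.1 ℓ hs.2.1 hs.2.2.2))
    rw [Finset.sum_const, nsmul_eq_mul, mul_one] at h1
    have h2 : (S3.card : ℝ) * (2 * K₀ / ε) ≤ K₀ * Real.sqrt N := h1.trans hC
    have h3 : (S3.card : ℝ) * (2 * K₀ / ε) = (S3.card : ℝ) * 2 * K₀ / ε := by ring
    rw [h3, div_le_iff₀ hε] at h2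
    have h4 : K₀ * ((S3.card : ℝ) * 2) ≤ K₀ * (Real.sqrt N * ε) := by linarith
    have h5 := le_of_mul_le_mul_left h4 hK
    linarith
  -- the other points
  set S4 := S1.filter (fun s => kk C P Q s ≠ 1 ∧
    5 / 4 ≤ ∑ a ∈ balls_auxB C P Q ℓ' s, ff C P Q a) with hS4
  have hS4card : (S4.card : ℝ) * (5 / 4) ≤
      ∑ a ∈ C.filter (fun a => kk C P Q a ≠ 1), ff C P Q a := by
    apply balls_aux_pack S4 _ (fun s => balls_auxB C P Q ℓ' s) (ff C P Q) (5 / 4)
    · intro s hs s' hs' hne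
      rw [hS4, mem_filter] at hs hs'
      exact hdisj s hs.1 s' hs'.1 hne
    · intro s hs
      rw [hS4, mem_filter, hS1, mem_sdiff] at hs
      intro b hb
      rw [mem_filter]
      exact ⟨balls_auxB_sub C P Q s (hSC hs.1.1) ℓ' hb,
        balls_auxB_kk C P Q s (hSC hs.1.1) hs.2.1 ℓ' b hb⟩
    · exact balls_auxff_nonneg C P Q
    · intro s hs
      rw [hS4, mem_filter] at hs
      exact hs.2.2
  have hcover : (S.filter fun a => kk C P Q a ≠ 1) ⊆ ((Bd ∪ S2) ∪ S3) ∪ S4 := by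
    intro s hs
    rw [mem_filter] at hs
    simp only [mem_union]
    by_cases h1 : s ∈ Bd
    · left; left; left; exact h1
    have hsS1 : s ∈ S1 := by rw [hS1, mem_sdiff]; exact ⟨hs.1, h1⟩
    by_cases h2 : Disjoint (balls_auxB C P Q ℓ' s) (balls_auxBP C P Q)
    · by_cases h3 : ∑ a ∈ balls_auxB C P Q ℓ' s, ff C P Q a < 5 / 4
      · left; right
        rw [hS3, mem_filter]
        exact ⟨hsS1, h2, hs.2, h3⟩
      · right
        rw [hS4, mem_filter]
        exact ⟨hsS1, hs.2, not_lt.mp h3⟩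
    · left; left; right
      rw [hS2, mem_filter]
      exact ⟨hsS1, h2⟩
  have hcard : (S.filter fun a => kk C P Q a ≠ 1).card ≤ Bd.card + S2.card + S3.card + S4.card := by
    refine (Finset.card_le_card hcover).trans ?_
    have h1 := Finset.card_union_le ((Bd ∪ S2) ∪ S3) S4
    have h2 := Finset.card_union_le (Bd ∪ S2) S3
    have h3 := Finset.card_union_le Bd S2
    omega
  have hcard' : ((S.filter fun a => kk C P Q a ≠ 1).card : ℝ) ≤
      Bd.card + S2.card + S3.card + S4.card := by exact_mod_cast hcard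
  have hR' : R = 2 * (3 * M + 1) ^ (2 * ℓ') + (M + 2 * M ^ 2) := hR
  linarith

end Pool.Agent.helper287_Sidon
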