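import Pool.Agent.Y940.CT.Iter
/-!
# Definitions for: dense random subsets of an interval have small Sidon subsets
-/

set_option autoImplicit false

open Finset

namespace Pool.Agent.helper287_Sidon

/-- Sidon sets of natural numbers -/
def Sid (I : Finset ℕ) : Prop :=
  ∀ a ∈ I, ∀ b ∈ I, ∀ c ∈ I, ∀ d ∈ I, a + b = c + d → (a = c ∧ b = d) ∨ (a = d ∧ b = c)

/-- the number of pairs with difference `d` -/
def rm (C : Finset ℕ) (d : ℕ) : ℕ := (C.filter fun x => x + d ∈ C).card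

/-- the number of ordered pairs with sum `σ` -/
def rp (C : Finset ℕ) (σ : ℕ) : ℕ := (C.filter fun x => x ≤ σ ∧ σ - x ∈ C).card

/-- the popular differences -/
noncomputable def Dm (N : ℕ) (C : Finset ℕ) (t : ℝ) : Finset ℕ :=
  (Icc 1 N).filter fun d => t ≤ rm C d

/-- the popular sums -/
noncomputable def Dp (N : ℕ) (C : Finset ℕ) (t : ℝ) : Finset ℕ :=
  (range (2 * N + 1)).filter fun σ => t ≤ rp C σ

/-- the three term progressions `x < y < 2 y - x` in `C` -/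
def ap3 (C : Finset ℕ) : Finset (ℕ × ℕ) :=
  (C ×ˢ C).filter fun p => p.1 < p.2 ∧ 2 * p.2 - p.1 ∈ C

/-- the quadruples `x, x + u, x + v, x + u + v` of `C` with differences `u, v ∉ P` and sum
`2 x + u + v ∉ Q` -/
def quad (C P Q : Finset ℕ) : Finset (Finset ℕ) :=
  C.powerset.filter fun e => ∃ x ∈ C, ∃ y ∈ C, ∃ z ∈ C, x < y ∧ y < z ∧ y - x ∉ P ∧ z - x ∉ P ∧
    y + z ∉ Q ∧ e = {x, y, z, y + z - x}

/-- the number of structured neighbours of `a`, plus one -/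
def kk (C P Q : Finset ℕ) (a : ℕ) : ℕ :=
  1 + (C.filter fun x => x ≠ a ∧ (x - a) + (a - x) ∈ P).card + (C.filter fun y => a + y ∈ Q).card

/-- the weight of `a` -/
noncomputable def ff (C P Q : Finset ℕ) (a : ℕ) : ℝ := 1 / Real.sqrt (kk C P Q a)

/-- final containers -/
def Final (N : ℕ) (K₀ ε ε₂ : ℝ) (M : ℕ) (C : Finset ℕ) : Prop :=
  (C.card : ℝ) ≤ Real.sqrt N / 10 ∨
  ((C.card : ℝ) ≤ K₀ * Real.sqrt N ∧ ((ap3 C).card : ℝ) ≤ ε₂ * N ∧
    ∃ P Q B : Finset ℕ, P.card ≤ M ∧ Q.card ≤ M ∧ B ⊆ C ∧ (B.card : ℝ) ≤ ε * Real.sqrt N ∧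
      (((quad C P Q).filter fun e => Disjoint e B).card : ℝ) ≤ ε₂ * N)

end Pool.Agent.helper287_Sidon
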