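import Pool.Agent.helper287_Sidon.Reals

/-! The statement of S11152 (MP_be54a8_co), the inverse-function form of S11420 (MP_ca07c0_co); kept here and not handed in, because
the two files pose one question. -/

set_option autoImplicit false

namespace Pool.Agent.helper287_Sidon

theorem distances_form :
    ¬ (∀ ε : ℝ, 0 < ε → ∃ K : ℕ, ∀ k : ℕ, K ≤ k →
      (∃ n : ℕ, (n : ℝ) ≤ (1 + ε) * (k : ℝ) ^ 2 ∧
        ∀ S : Finset ℝ, n ≤ S.card → ∃ T ⊆ S, T.card = k ∧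
          ∀ a ∈ T, ∀ b ∈ T, ∀ c ∈ T, ∀ d ∈ T, a ≠ b → c ≠ d →
            |a - b| = |c - d| → ((a = c ∧ b = d) ∨ (a = d ∧ b = c))) ∧
      (∀ n : ℕ, (n : ℝ) < (1 - ε) * (k : ℝ) ^ 2 →
        ∃ S : Finset ℝ, S.card = n ∧ ∀ T ⊆ S, T.card = k →
          ∃ a ∈ T, ∃ b ∈ T, ∃ c ∈ T, ∃ d ∈ T, a ≠ b ∧ c ≠ d ∧
            |a - b| = |c - d| ∧ ¬((a = c ∧ b = d) ∨ (a = d ∧ b = c)))) :=
  disproof_distances

end Pool.Agent.helper287_Sidon
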