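import Pool.Agent.helper287_Sidon.Defs
/-!
# The Erdős–Turán inequality with multiplicities (proved by helper341)
-/

set_option autoImplicit false

open Finset

namespace Pool.Agent.helper287_Sidon



/-- a quadruple in `D` -/
theorem quad_mem {C D P Q : Finset ℕ} (hDC : D ⊆ C) {m δ d : ℕ} (hδ : 0 < δ) (hd : 0 < d)
    (hne : δ ≠ d) (h1 : m ∈ D) (h2 : m + δ ∈ D) (h3 : m + d ∈ D) (h4 : m + δ + d ∈ D)
    (hδP : δ ∉ P) (hdP : d ∉ P) (hQ : m + δ + (m + d) ∉ Q) :
    ({m, m + δ, m + d, m + δ + d} : Finset ℕ) ∈ quad C P Q := by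
  unfold quad
  rw [mem_filter, mem_powerset]
  refine ⟨?_, ?_⟩
  · intro x hx
    simp only [mem_insert, mem_singleton] at hx
    rcases hx with rfl | rfl | rfl | rfl
    · exact hDC h1
    · exact hDC h2
    · exact hDC h3
    · exact hDC h4
  · rcases lt_or_gt_of_ne hne with h | h
    · refine ⟨m, hDC h1, m + δ, hDC h2, m + d, hDC h3, by omega, by omega, ?_, ?_, hQ, ?_⟩
      · rwa [Nat.add_sub_cancel_left]
      · rwa [Nat.add_sub_cancel_left]
      · have : m + δ + (m + d) - m = m + δ + d := by omega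
        rw [this]
    · refine ⟨m, hDC h1, m + d, hDC h3, m + δ, hDC h2, by omega, by omega, ?_, ?_, ?_, ?_⟩
      · rwa [Nat.add_sub_cancel_left]
      · rwa [Nat.add_sub_cancel_left]
      · have : m + d + (m + δ) = m + δ + (m + d) := by omega
        rwa [this]
      · have : m + d + (m + δ) - m = m + δ + d := by omega
        rw [this]
        ext x
        simp only [mem_insert, mem_singleton]
        tauto

theorem quad_mem' {C P Q B : Finset ℕ} {m δ d : ℕ} (hδ : 0 < δ) (hd : 0 < d)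
    (hne : δ ≠ d) (h1 : m ∈ C \ B) (h2 : m + δ ∈ C \ B) (h3 : m + d ∈ C \ B)
    (h4 : m + δ + d ∈ C \ B)
    (hδP : δ ∉ P) (hdP : d ∉ P) (hQ : m + δ + (m + d) ∉ Q) :
    ({m, m + δ, m + d, m + δ + d} : Finset ℕ) ∈ (quad C P Q).filter (fun e => Disjoint e B) := by
  rw [mem_filter]
  refine ⟨quad_mem (C := C) (D := C \ B) sdiff_subset hδ hd hne h1 h2 h3 h4 hδP hdP hQ, ?_⟩
  rw [disjoint_left]
  intro y hy hyB
  simp only [mem_insert, mem_singleton] at hy
  rcases hy with rfl | rfl | rfl | rfl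
  · exact (mem_sdiff.1 h1).2 hyB
  · exact (mem_sdiff.1 h2).2 hyB
  · exact (mem_sdiff.1 h3).2 hyB
  · exact (mem_sdiff.1 h4).2 hyB

/-- the bad pairs -/
def Bad (C P Q B : Finset ℕ) : Finset (ℕ × ℕ) :=
  ((C \ B) ×ˢ (C \ B)).filter fun p => p.1 < p.2 ∧ (p.2 - p.1 ∈ P ∨ 2 * p.2 - p.1 ∈ C \ B ∨
    (p.2 ≤ 2 * p.1 ∧ 2 * p.1 - p.2 ∈ C \ B) ∨
    ∃ e ∈ (quad C P Q).filter (fun e => Disjoint e B), p.1 ∈ e ∧ p.2 ∈ e)

theorem structured {C P Q B : Finset ℕ} {a b x : ℕ} (ha : a ∈ C \ B) (hb : b ∈ C \ B) (hab : a < b)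
    (hbad : (a, b) ∉ Bad C P Q B) (hx : x ∈ C \ B) (hxd : x + (b - a) ∈ C \ B) (hxa : x ≠ a) :
    (x - a) + (a - x) ∈ P ∨ a + (x + (b - a)) ∈ Q := by
  by_contra hcon
  push Not at hcon
  obtain ⟨hP, hQ⟩ := hcon
  apply hbad
  unfold Bad
  rw [mem_filter, mem_product]
  refine ⟨⟨ha, hb⟩, hab, ?_⟩
  by_cases h1 : b - a ∈ P
  · exact Or.inl h1
  by_cases h2 : 2 * b - a ∈ C \ B
  · exact Or.inr (Or.inl h2)
  by_cases h3 : b ≤ 2 * a ∧ 2 * a - b ∈ C \ B
  · exact Or.inr (Or.inr (Or.inl h3))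
  right; right; right
  have hxb : x ≠ b := by
    rintro rfl
    apply h2
    have : 2 * x - a = x + (x - a) := by omega
    rw [this]
    exact hxd
  have hxda : x + (b - a) ≠ a := by
    intro h
    apply h3
    refine ⟨by omega, ?_⟩
    have : 2 * a - b = x := by omega
    rw [this]
    exact hx
  rcases lt_or_gt_of_ne hxa with hlt | hlt
  · -- `x < a`
    have e1 : x + (a - x) = a := by omega
    have e2 : x + (a - x) + (b - a) = b := by omega
    have e3 : (x - a) + (a - x) = a - x := by omega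
    rw [e3] at hP
    refine ⟨_, quad_mem' (C := C) (B := B) (P := P) (Q := Q) (m := x) (δ := a - x)
      (d := b - a) (by omega) (by omega) (by omega) hx (by rwa [e1]) hxd (by rwa [e2]) hP h1 (by
        rw [e1]; exact hQ), ?_, ?_⟩
    · change a ∈ _
      simp only [mem_insert, mem_singleton]
      exact Or.inr (Or.inl e1.symm)
    · change b ∈ _
      simp only [mem_insert, mem_singleton]
      exact Or.inr (Or.inr (Or.inr e2.symm))
  · have e1 : a + (x - a) = x := by omega
    have e2 : a + (b - a) = b := by omega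
    have e4 : a + (x - a) + (b - a) = x + (b - a) := by omega
    have e3 : (x - a) + (a - x) = x - a := by omega
    rw [e3] at hP
    refine ⟨_, quad_mem' (C := C) (B := B) (P := P) (Q := Q) (m := a) (δ := x - a)
      (d := b - a) (by omega) (by omega) (by omega) ha (by rwa [e1]) (by rwa [e2]) (by rwa [e4]) hP h1
      (by
        have : a + (x - a) + (a + (b - a)) = a + (x + (b - a)) := by omega
        rwa [this]), ?_, ?_⟩
    · exact mem_insert_self _ _
    · change b ∈ _
      simp only [mem_insert, mem_singleton]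
      exact Or.inr (Or.inr (Or.inl e2.symm))

theorem rm_le_left {C P Q B : Finset ℕ} {a b : ℕ} (ha : a ∈ C \ B) (hb : b ∈ C \ B) (hab : a < b)
    (hbad : (a, b) ∉ Bad C P Q B) : rm (C \ B) (b - a) ≤ kk (C \ B) P Q a := by
  classical
  unfold rm kk
  set D := C \ B with hD
  have hsub : (D.filter fun x => x + (b - a) ∈ D) ⊆ {a} ∪
      (D.filter fun x => x ≠ a ∧ (x - a) + (a - x) ∈ P) ∪
      (D.filter fun x => x + (b - a) ∈ D ∧ a + (x + (b - a)) ∈ Q) := by
    intro x hx
    rw [mem_filter] at hx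
    rw [mem_union, mem_union, mem_singleton, mem_filter, mem_filter]
    by_cases hxa : x = a
    · exact Or.inl (Or.inl hxa)
    · rcases structured ha hb hab hbad hx.1 hx.2 hxa with h | h
      · exact Or.inl (Or.inr ⟨hx.1, hxa, h⟩)
      · exact Or.inr ⟨hx.1, hx.2, h⟩
  have hinj : (D.filter fun x => x + (b - a) ∈ D ∧ a + (x + (b - a)) ∈ Q).card ≤
      (D.filter fun y => a + y ∈ Q).card := by
    apply card_le_card_of_injOn (fun x => x + (b - a))
    · intro x hx
      rw [mem_coe, mem_filter] at hx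
      rw [mem_coe, mem_filter]
      exact hx.2
    · intro x _ y _ h
      exact Nat.add_right_cancel h
  calc _ ≤ _ := card_le_card hsub
    _ ≤ ({a} ∪ (D.filter fun x => x ≠ a ∧ (x - a) + (a - x) ∈ P)).card + _ := card_union_le _ _
    _ ≤ (({a} : Finset ℕ).card + (D.filter fun x => x ≠ a ∧ (x - a) + (a - x) ∈ P).card) +
        (D.filter fun y => a + y ∈ Q).card := Nat.add_le_add (card_union_le _ _) hinj
    _ = _ := by rw [card_singleton]

theorem rm_le_right {C P Q B : Finset ℕ} {a b : ℕ} (ha : a ∈ C \ B) (hb : b ∈ C \ B) (hab : a < b)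
    (hbad : (a, b) ∉ Bad C P Q B) : rm (C \ B) (b - a) ≤ kk (C \ B) P Q b := by
  classical
  unfold rm kk
  set D := C \ B with hD
  have hsub : (D.filter fun x => x + (b - a) ∈ D) ⊆ {a} ∪
      (D.filter fun x => x + (b - a) ∈ D ∧ x ≠ a ∧ (x - a) + (a - x) ∈ P) ∪
      (D.filter fun x => b + x ∈ Q) := by
    intro x hx
    rw [mem_filter] at hx
    rw [mem_union, mem_union, mem_singleton, mem_filter, mem_filter]
    by_cases hxa : x = a
    · exact Or.inl (Or.inl hxa)
    · rcases structured ha hb hab hbad hx.1 hx.2 hxa with h | h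
      · exact Or.inl (Or.inr ⟨hx.1, hx.2, hxa, h⟩)
      · refine Or.inr ⟨hx.1, ?_⟩
        have : b + x = a + (x + (b - a)) := by omega
        rwa [this]
  have hinj : (D.filter fun x => x + (b - a) ∈ D ∧ x ≠ a ∧ (x - a) + (a - x) ∈ P).card ≤
      (D.filter fun y => y ≠ b ∧ (y - b) + (b - y) ∈ P).card := by
    apply card_le_card_of_injOn (fun x => x + (b - a))
    · intro x hx
      rw [mem_coe, mem_filter] at hx
      rw [mem_coe, mem_filter]
      obtain ⟨-, h1, h2, h3⟩ := hx
      have h4 : x + (b - a) ≠ b := by omega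
      refine ⟨h1, h4, ?_⟩
      have : x + (b - a) - b + (b - (x + (b - a))) = x - a + (a - x) := by omega
      change x + (b - a) - b + (b - (x + (b - a))) ∈ P
      rwa [this]
    · intro x _ y _ h
      exact Nat.add_right_cancel h
  calc _ ≤ _ := card_le_card hsub
    _ ≤ ({a} ∪ (D.filter fun x => x + (b - a) ∈ D ∧ x ≠ a ∧ (x - a) + (a - x) ∈ P)).card + _ :=
        card_union_le _ _
    _ ≤ (({a} : Finset ℕ).card + (D.filter fun y => y ≠ b ∧ (y - b) + (b - y) ∈ P).card) +
        (D.filter fun x => b + x ∈ Q).card :=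
        Nat.add_le_add ((card_union_le _ _).trans (Nat.add_le_add_left hinj _)) le_rfl
    _ = _ := by rw [card_singleton]

theorem ff_pos (C P Q : Finset ℕ) (a : ℕ) : 0 < ff C P Q a := by
  unfold ff
  apply one_div_pos.2
  apply Real.sqrt_pos.2
  have : 1 ≤ kk C P Q a := by unfold kk; omega
  exact_mod_cast this

theorem ff_le_one (C P Q : Finset ℕ) (a : ℕ) : ff C P Q a ≤ 1 := by
  unfold ff
  have : 1 ≤ kk C P Q a := by unfold kk; omega
  have h1 : (1 : ℝ) ≤ Real.sqrt (kk C P Q a) := by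
    rw [Real.one_le_sqrt]
    exact_mod_cast this
  exact div_le_one_of_le₀ h1 (by positivity)

theorem ff_mul_le {C P Q B : Finset ℕ} {a b : ℕ} (ha : a ∈ C \ B) (hb : b ∈ C \ B) (hab : a < b)
    (hbad : (a, b) ∉ Bad C P Q B) :
    ff (C \ B) P Q a * ff (C \ B) P Q b * rm (C \ B) (b - a) ≤ 1 := by
  have h1 := rm_le_left ha hb hab hbad
  have h2 := rm_le_right ha hb hab hbad
  set r := rm (C \ B) (b - a) with hr
  have hka : 1 ≤ kk (C \ B) P Q a := by unfold kk; omega
  have hkb : 1 ≤ kk (C \ B) P Q b := by unfold kk; omega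
  have h3 : (r : ℝ) ≤ Real.sqrt (kk (C \ B) P Q a) * Real.sqrt (kk (C \ B) P Q b) := by
    rw [← Real.sqrt_mul (by positivity)]
    apply Real.le_sqrt_of_sq_le
    rw [pow_two]
    have h1' : (r : ℝ) ≤ kk (C \ B) P Q a := by exact_mod_cast h1
    have h2' : (r : ℝ) ≤ kk (C \ B) P Q b := by exact_mod_cast h2
    exact mul_le_mul h1' h2' (by positivity) (by positivity)
  have hsa : 0 < Real.sqrt (kk (C \ B) P Q a) := Real.sqrt_pos.2 (by exact_mod_cast hka)
  have hsb : 0 < Real.sqrt (kk (C \ B) P Q b) := Real.sqrt_pos.2 (by exact_mod_cast hkb)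
  unfold ff
  rw [one_div_mul_one_div, one_div_mul_eq_div, div_le_one (mul_pos hsa hsb)]
  exact h3

theorem card_bad {C P Q B : Finset ℕ} : (Bad C P Q B).card ≤ C.card * P.card + 2 * (ap3 C).card +
    16 * ((quad C P Q).filter fun e => Disjoint e B).card := by
  classical
  set D := C \ B with hD
  have hDC : D ⊆ C := sdiff_subset
  set E := (quad C P Q).filter fun e => Disjoint e B with hE
  have hsub : Bad C P Q B ⊆ (C ×ˢ P).image (fun p => (p.1, p.1 + p.2)) ∪ ap3 C ∪
      (ap3 C).image (fun p => (p.2, 2 * p.2 - p.1)) ∪ E.biUnion (fun e => e ×ˢ e) := by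
    rintro ⟨a, b⟩ hp
    unfold Bad at hp
    rw [mem_filter, mem_product] at hp
    obtain ⟨⟨ha, hb⟩, hab, h⟩ := hp
    simp only at ha hb hab h
    rw [mem_union, mem_union, mem_union]
    rcases h with h | h | h | h
    · left; left; left
      rw [mem_image]
      refine ⟨(a, b - a), mem_product.2 ⟨hDC ha, h⟩, ?_⟩
      change (a, a + (b - a)) = (a, b)
      rw [Nat.add_sub_cancel' hab.le]
    · left; left; right
      unfold ap3
      rw [mem_filter, mem_product]
      exact ⟨⟨hDC ha, hDC hb⟩, hab, hDC h⟩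
    · left; right
      rw [mem_image]
      refine ⟨(2 * a - b, a), ?_, ?_⟩
      · unfold ap3
        rw [mem_filter, mem_product]
        refine ⟨⟨hDC h.2, hDC ha⟩, ?_, ?_⟩
        · change 2 * a - b < a
          omega
        · change 2 * a - (2 * a - b) ∈ C
          have : 2 * a - (2 * a - b) = b := by omega
          rw [this]
          exact hDC hb
      · change (a, 2 * a - (2 * a - b)) = (a, b)
        have : 2 * a - (2 * a - b) = b := by omega
        rw [this]
    · right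
      obtain ⟨e, he, h1, h2⟩ := h
      rw [mem_biUnion]
      exact ⟨e, he, mem_product.2 ⟨h1, h2⟩⟩
  have hE4 : ∀ e ∈ E, (e ×ˢ e).card ≤ 16 := by
    intro e he
    have h1 := (mem_filter.1 (mem_filter.1 he).1).2
    obtain ⟨x, -, y, -, z, -, -, -, -, -, -, rfl⟩ := h1
    rw [card_product]
    have h4 : ({x, y, z, y + z - x} : Finset ℕ).card ≤ 4 := card_le_four
    calc _ ≤ 4 * 4 := Nat.mul_le_mul h4 h4
      _ = 16 := by norm_num
  calc _ ≤ _ := card_le_card hsub
    _ ≤ (((C ×ˢ P).image (fun p => (p.1, p.1 + p.2))).card + (ap3 C).card +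
        ((ap3 C).image (fun p => (p.2, 2 * p.2 - p.1))).card) +
        (E.biUnion (fun e => e ×ˢ e)).card := by
        refine (card_union_le _ _).trans (Nat.add_le_add_right ?_ _)
        refine (card_union_le _ _).trans (Nat.add_le_add_right ?_ _)
        exact card_union_le _ _
    _ ≤ (C.card * P.card + (ap3 C).card + (ap3 C).card) + E.card * 16 := by
        apply Nat.add_le_add
        · apply Nat.add_le_add
          · apply Nat.add_le_add_right
            refine card_image_le.trans ?_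
            rw [card_product]
          · exact card_image_le
        · exact card_biUnion_le_card_mul _ _ _ hE4
    _ = _ := by ring

/-- the number of windows which contain both points -/
def W (N w a b : ℕ) : ℕ := ((range (N + w)).filter fun x => (a ≤ x ∧ x < a + w) ∧ (b ≤ x ∧ x < b + w)).card

theorem W_le (N w a b : ℕ) (h : a < b) : W N w a b ≤ w - (b - a) := by
  unfold W
  calc _ ≤ (Ico b (a + w)).card := by
        apply card_le_card
        intro x hx
        rw [mem_filter] at hx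
        rw [mem_Ico]
        omega
    _ = w - (b - a) := by rw [Nat.card_Ico]; omega

theorem W_le' (N w a b : ℕ) : W N w a b ≤ w := by
  unfold W
  calc _ ≤ (Ico a (a + w)).card := by
        apply card_le_card
        intro x hx
        rw [mem_filter] at hx
        rw [mem_Ico]
        exact hx.2.1
    _ = w := by rw [Nat.card_Ico]; omega

theorem W_symm (N w a b : ℕ) : W N w a b = W N w b a := by
  unfold W
  congr 1
  apply filter_congr
  intro x _
  tauto

/-- Cauchy–Schwarz for windows -/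
theorem windows {N w : ℕ} {D : Finset ℕ} (hD : D ⊆ range (N + 1)) (f : ℕ → ℝ) :
    ((w : ℝ) * ∑ a ∈ D, f a) ^ 2 ≤ ((N + w : ℕ) : ℝ) *
      ∑ a ∈ D, ∑ b ∈ D, f a * f b * (W N w a b : ℝ) := by
  classical
  set F : ℕ → ℝ := fun x => ∑ a ∈ D, if a ≤ x ∧ x < a + w then f a else 0 with hF
  have h1 : ∑ x ∈ range (N + w), F x = w * ∑ a ∈ D, f a := by
    rw [hF, sum_comm, mul_sum]
    apply sum_congr rfl
    intro a ha
    have ha' := mem_range.1 (hD ha)
    rw [← sum_filter]
    rw [sum_const, nsmul_eq_mul]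
    congr 1
    have : (range (N + w)).filter (fun x => a ≤ x ∧ x < a + w) = Ico a (a + w) := by
      ext x
      rw [mem_filter, mem_range, mem_Ico]
      omega
    rw [this, Nat.card_Ico]
    norm_num
  have h2 : ∑ x ∈ range (N + w), F x ^ 2 = ∑ a ∈ D, ∑ b ∈ D, f a * f b * (W N w a b : ℝ) := by
    have h3 : ∀ x, F x ^ 2 = ∑ a ∈ D, ∑ b ∈ D,
        if (a ≤ x ∧ x < a + w) ∧ (b ≤ x ∧ x < b + w) then f a * f b else 0 := by
      intro x
      rw [pow_two, hF]
      simp only
      rw [sum_mul_sum]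
      apply sum_congr rfl
      intro a _
      apply sum_congr rfl
      intro b _
      by_cases ha : a ≤ x ∧ x < a + w
      · by_cases hb : b ≤ x ∧ x < b + w
        · rw [if_pos ha, if_pos hb, if_pos ⟨ha, hb⟩]
        · rw [if_neg hb, mul_zero, if_neg (fun h => hb h.2)]
      · rw [if_neg ha, zero_mul, if_neg (fun h => ha h.1)]
    simp only [h3]
    rw [sum_comm]
    apply sum_congr rfl
    intro a _
    rw [sum_comm]
    apply sum_congr rfl
    intro b _
    rw [← sum_filter, sum_const, nsmul_eq_mul, mul_comm]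
    rfl
  rw [← h1, ← h2]
  have h4 := sq_sum_le_card_mul_sum_sq (s := range (N + w)) (f := F)
  rwa [card_range] at h4

/-- the sum over the pairs -/
theorem pairs_bound {N w : ℕ} {C P Q B : Finset ℕ} :
    ∑ a ∈ C \ B, ∑ b ∈ C \ B, ff (C \ B) P Q a * ff (C \ B) P Q b * (W N w a b : ℝ) ≤
      w * (C.card : ℝ) + w ^ 2 + 2 * w * ((Bad C P Q B).card : ℝ) := by
  classical
  set D := C \ B with hD
  set f := ff D P Q with hf
  have hf0 : ∀ a, 0 ≤ f a := fun a => (ff_pos _ _ _ _).le
  have hf1 : ∀ a, f a ≤ 1 := fun a => ff_le_one _ _ _ _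
  set g : ℕ × ℕ → ℝ := fun p => f p.1 * f p.2 * (W N w p.1 p.2 : ℝ) with hg
  have hg0 : ∀ p, 0 ≤ g p := fun p => mul_nonneg (mul_nonneg (hf0 _) (hf0 _)) (Nat.cast_nonneg _)
  have hgw : ∀ p, g p ≤ w := by
    intro p
    have h1 : (W N w p.1 p.2 : ℝ) ≤ w := by exact_mod_cast W_le' N w p.1 p.2
    calc g p ≤ 1 * 1 * (w : ℝ) := by
          apply mul_le_mul _ h1 (Nat.cast_nonneg _) (by norm_num)
          exact mul_le_mul (hf1 _) (hf1 _) (hf0 _) (by norm_num)
      _ = w := by ring
  have hsym : ∀ a b, g (a, b) = g (b, a) := by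
    intro a b
    simp only [hg]
    rw [W_symm, mul_comm (f a)]
  -- split
  have hsplit : ∑ a ∈ D, ∑ b ∈ D, g (a, b) =
      ∑ a ∈ D, g (a, a) + 2 * ∑ p ∈ (D ×ˢ D).filter (fun p => p.1 < p.2), g p := by
    rw [← sum_product' (f := fun a b => g (a, b))]
    have h1 : D ×ˢ D = ((D ×ˢ D).filter (fun p => p.1 < p.2) ∪
        (D ×ˢ D).filter (fun p => p.2 < p.1)) ∪ (D ×ˢ D).filter (fun p => p.1 = p.2) := by
      ext p
      simp only [mem_union, mem_filter]
      have := lt_trichotomy p.1 p.2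
      tauto
    have hd1 : Disjoint ((D ×ˢ D).filter (fun p => p.1 < p.2) ∪
        (D ×ˢ D).filter (fun p => p.2 < p.1)) ((D ×ˢ D).filter (fun p => p.1 = p.2)) := by
      rw [disjoint_left]
      intro p hp hp'
      rw [mem_union, mem_filter, mem_filter] at hp
      rw [mem_filter] at hp'
      omega
    have hd2 : Disjoint ((D ×ˢ D).filter (fun p => p.1 < p.2))
        ((D ×ˢ D).filter (fun p => p.2 < p.1)) := by
      rw [disjoint_left]
      intro p hp hp'
      rw [mem_filter] at hp hp'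
      omega
    have e1 : ∑ p ∈ (D ×ˢ D).filter (fun p => p.2 < p.1), g p =
        ∑ p ∈ (D ×ˢ D).filter (fun p => p.1 < p.2), g p := by
      apply sum_nbij' (fun p => (p.2, p.1)) (fun p => (p.2, p.1))
      · intro p hp
        rw [mem_filter, mem_product] at hp ⊢
        exact ⟨⟨hp.1.2, hp.1.1⟩, hp.2⟩
      · intro p hp
        rw [mem_filter, mem_product] at hp ⊢
        exact ⟨⟨hp.1.2, hp.1.1⟩, hp.2⟩
      · intro p _; rfl
      · intro p _; rfl
      · intro p _
        exact hsym p.1 p.2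
    have e2 : ∑ p ∈ (D ×ˢ D).filter (fun p => p.1 = p.2), g p = ∑ a ∈ D, g (a, a) := by
      symm
      apply sum_nbij' (fun a => (a, a)) (fun p => p.1)
      · intro a ha
        rw [mem_filter, mem_product]
        exact ⟨⟨ha, ha⟩, rfl⟩
      · intro p hp
        exact (mem_product.1 (mem_filter.1 hp).1).1
      · intro a _; rfl
      · intro p hp
        have := (mem_filter.1 hp).2
        exact Prod.ext rfl this
      · intro a _; rfl
    have e3 : ∑ x ∈ D ×ˢ D, g (x.1, x.2) = ∑ p ∈ D ×ˢ D, g p := rfl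
    have e4 : ∑ p ∈ D ×ˢ D, g p = (∑ p ∈ (D ×ˢ D).filter (fun p => p.1 < p.2), g p +
        ∑ p ∈ (D ×ˢ D).filter (fun p => p.1 < p.2), g p) + ∑ a ∈ D, g (a, a) := by
      conv_lhs => rw [h1, sum_union hd1, sum_union hd2, e1, e2]
    rw [e3, e4]
    ring
  have hdiag : ∑ a ∈ D, g (a, a) ≤ w * (C.card : ℝ) := by
    calc ∑ a ∈ D, g (a, a) ≤ ∑ a ∈ D, (w : ℝ) := sum_le_sum fun a _ => hgw _
      _ = D.card * w := by rw [sum_const, nsmul_eq_mul]
      _ ≤ C.card * w := by
          have : (D.card : ℝ) ≤ C.card := by exact_mod_cast card_le_card sdiff_subset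
          exact mul_le_mul_of_nonneg_right this (Nat.cast_nonneg _)
      _ = _ := by ring
  -- good and bad pairs
  have hgb : ∑ p ∈ (D ×ˢ D).filter (fun p => p.1 < p.2), g p ≤
      ∑ p ∈ (D ×ˢ D).filter (fun p => p.1 < p.2 ∧ p ∉ Bad C P Q B), g p +
        ∑ p ∈ Bad C P Q B, g p := by
    rw [← sum_filter_add_sum_filter_not ((D ×ˢ D).filter (fun p => p.1 < p.2))
      (fun p => p ∉ Bad C P Q B), filter_filter]
    apply add_le_add le_rfl
    apply sum_le_sum_of_subset_of_nonneg
    · intro p hp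
      rw [mem_filter, not_not] at hp
      exact hp.2
    · intro p _ _
      exact hg0 p
  have hbad : ∑ p ∈ Bad C P Q B, g p ≤ w * ((Bad C P Q B).card : ℝ) := by
    calc _ ≤ ∑ p ∈ Bad C P Q B, (w : ℝ) := sum_le_sum fun p _ => hgw p
      _ = _ := by rw [sum_const, nsmul_eq_mul]; ring
  have hgood : ∑ p ∈ (D ×ˢ D).filter (fun p => p.1 < p.2 ∧ p ∉ Bad C P Q B), g p ≤
      ∑ d ∈ Ico 1 w, ((w - d : ℕ) : ℝ) := by
    set G := (D ×ˢ D).filter (fun p => p.1 < p.2 ∧ p ∉ Bad C P Q B) with hG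
    have h1 : ∑ p ∈ G, g p ≤ ∑ p ∈ G.filter (fun p => p.2 - p.1 ∈ Ico 1 w), g p := by
      rw [← sum_filter_add_sum_filter_not G (fun p => p.2 - p.1 ∈ Ico 1 w)]
      have h2 : ∑ p ∈ G.filter (fun p => ¬ (p.2 - p.1 ∈ Ico 1 w)), g p = 0 := by
        apply sum_eq_zero
        intro p hp
        rw [mem_filter, mem_Ico] at hp
        have h3 : p.1 < p.2 := (mem_filter.1 hp.1).2.1
        have h4 : W N w p.1 p.2 = 0 := by
          have := W_le N w p.1 p.2 h3
          omega
        simp only [hg, h4, Nat.cast_zero, mul_zero]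
      rw [h2, add_zero]
    refine h1.trans ?_
    rw [← sum_fiberwise_of_maps_to (s := G.filter (fun p => p.2 - p.1 ∈ Ico 1 w)) (t := Ico 1 w)
      (g := fun p => p.2 - p.1) (fun p hp => (mem_filter.1 hp).2)]
    apply sum_le_sum
    intro d hd
    set H := (G.filter (fun p => p.2 - p.1 ∈ Ico 1 w)).filter (fun p => p.2 - p.1 = d) with hH
    have hHG : ∀ p ∈ H, p.1 ∈ D ∧ p.2 ∈ D ∧ p.1 < p.2 ∧ p ∉ Bad C P Q B ∧ p.2 - p.1 = d := by
      intro p hp
      rw [hH, mem_filter, mem_filter, hG, mem_filter, mem_product] at hp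
      exact ⟨hp.1.1.1.1, hp.1.1.1.2, hp.1.1.2.1, hp.1.1.2.2, hp.2⟩
    have hcard : H.card ≤ rm D d := by
      unfold rm
      apply card_le_card_of_injOn (fun p => p.1)
      · intro p hp
        obtain ⟨h1, h2, h3, -, h4⟩ := hHG p hp
        rw [mem_coe, mem_filter]
        have h5 : p.1 + d = p.2 := by omega
        exact ⟨h1, by rw [h5]; exact h2⟩
      · intro p hp q hq hpq
        obtain ⟨h1, h2, h3, -, h4⟩ := hHG p hp
        obtain ⟨h1', h2', h3', -, h4'⟩ := hHG q hq
        simp only at hpq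
        apply Prod.ext hpq
        omega
    rcases H.eq_empty_or_nonempty with he | hne
    · rw [he, sum_empty]
      positivity
    · have hr : 0 < rm D d := lt_of_lt_of_le hne.card_pos hcard
      have hr' : (0 : ℝ) < rm D d := by exact_mod_cast hr
      calc ∑ p ∈ H, g p ≤ ∑ p ∈ H, ((w - d : ℕ) : ℝ) / rm D d := by
            apply sum_le_sum
            intro p hp
            obtain ⟨h1, h2, h3, h4, h5⟩ := hHG p hp
            have h6 := ff_mul_le (P := P) (Q := Q) h1 h2 h3 h4
            rw [h5] at h6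
            have h7 : (W N w p.1 p.2 : ℝ) ≤ ((w - d : ℕ) : ℝ) := by
              have := W_le N w p.1 p.2 h3
              rw [h5] at this
              exact_mod_cast this
            rw [le_div_iff₀ hr']
            calc g p * rm D d = (f p.1 * f p.2 * rm D d) * W N w p.1 p.2 := by
                  simp only [hg]; ring
              _ ≤ 1 * ((w - d : ℕ) : ℝ) := by
                  apply mul_le_mul h6 h7 (Nat.cast_nonneg _) (by norm_num)
              _ = _ := one_mul _
        _ = H.card * (((w - d : ℕ) : ℝ) / rm D d) := by rw [sum_const, nsmul_eq_mul]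
        _ ≤ rm D d * (((w - d : ℕ) : ℝ) / rm D d) := by
            apply mul_le_mul_of_nonneg_right _ (by positivity)
            exact_mod_cast hcard
        _ = _ := mul_div_cancel₀ _ hr'.ne'
  have hsumd : 2 * ∑ d ∈ Ico 1 w, ((w - d : ℕ) : ℝ) ≤ (w : ℝ) ^ 2 := by
    have h1 : ∀ w : ℕ, 2 * ∑ d ∈ Ico 1 w, (w - d) ≤ w ^ 2 := by
      intro w
      rcases w with _ | w
      · simp
      · have h2 : ∑ d ∈ Ico 1 (w + 1), (w + 1 - d) = ∑ j ∈ range w, (j + 1) := by
          rw [sum_Ico_eq_sum_range, Nat.add_sub_cancel, ← sum_range_reflect]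
          apply sum_congr rfl
          intro j hj
          rw [mem_range] at hj
          omega
        rw [h2]
        have h3 : ∀ n : ℕ, 2 * ∑ j ∈ range n, (j + 1) = n * (n + 1) := by
          intro n
          induction n with
          | zero => rfl
          | succ n ih => rw [sum_range_succ, mul_add, ih]; ring
        rw [h3]
        nlinarith
    exact_mod_cast h1 w
  have hfinal : ∑ a ∈ D, ∑ b ∈ D, f a * f b * (W N w a b : ℝ) = ∑ a ∈ D, ∑ b ∈ D, g (a, b) := rfl
  rw [hfinal, hsplit]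
  nlinarith [hdiag, hgb, hbad, hgood, hsumd]

/-- the number of structured neighbours argument, all together -/
theorem et_core {N w : ℕ} (hw : 0 < w) {C P Q B : Finset ℕ} (hC : C ⊆ range (N + 1)) :
    (∑ a ∈ C \ B, ff (C \ B) P Q a) ^ 2 ≤ ((N : ℝ) + w) *
      (1 + ((C.card : ℝ) + 2 * ((C.card : ℝ) * P.card + 2 * (ap3 C).card +
        16 * ((quad C P Q).filter fun e => Disjoint e B).card)) / w) := by
  have h1 := windows (N := N) (w := w) (D := C \ B) (sdiff_subset.trans hC) (ff (C \ B) P Q)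
  have h2 := pairs_bound (N := N) (w := w) (C := C) (P := P) (Q := Q) (B := B)
  have h3 : ((Bad C P Q B).card : ℝ) ≤ (C.card : ℝ) * P.card + 2 * (ap3 C).card +
      16 * ((quad C P Q).filter fun e => Disjoint e B).card := by
    exact_mod_cast card_bad (C := C) (P := P) (Q := Q) (B := B)
  set s := ∑ a ∈ C \ B, ff (C \ B) P Q a with hs
  set bd : ℝ := (C.card : ℝ) * P.card + 2 * (ap3 C).card +
      16 * ((quad C P Q).filter fun e => Disjoint e B).card with hbd
  have hw' : (0 : ℝ) < w := by exact_mod_cast hw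
  push_cast at h1
  have h4 : ((w : ℝ) * s) ^ 2 ≤ ((N : ℝ) + w) * (w * (C.card : ℝ) + w ^ 2 + 2 * w * bd) := by
    refine h1.trans ?_
    apply mul_le_mul_of_nonneg_left _ (by positivity)
    refine h2.trans ?_
    have : 2 * (w : ℝ) * ((Bad C P Q B).card : ℝ) ≤ 2 * w * bd :=
      mul_le_mul_of_nonneg_left h3 (by positivity)
    linarith
  have h5 : ((N : ℝ) + w) * (1 + ((C.card : ℝ) + 2 * bd) / w) =
      (((N : ℝ) + w) * (w * (C.card : ℝ) + w ^ 2 + 2 * w * bd)) / w ^ 2 := by
    field_simp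
    ring
  rw [h5, le_div_iff₀ (by positivity)]
  calc s ^ 2 * w ^ 2 = ((w : ℝ) * s) ^ 2 := by ring
    _ ≤ _ := h4

theorem et_bound (ε : ℝ) (hε : 0 < ε) : ∃ ε₂ : ℝ, 0 < ε₂ ∧ ∀ (K₀ : ℝ) (M : ℕ), 0 < K₀ →
    ∃ N₀ : ℕ, ∀ N : ℕ, N₀ ≤ N → ∀ C P Q B : Finset ℕ, C ⊆ range (N + 1) →
      (C.card : ℝ) ≤ K₀ * Real.sqrt N → P.card ≤ M → Q.card ≤ M → B ⊆ C →
      ((ap3 C).card : ℝ) ≤ ε₂ * N →
      (((quad C P Q).filter fun e => Disjoint e B).card : ℝ) ≤ ε₂ * N →
      ∑ a ∈ C \ B, ff (C \ B) P Q a ≤ (1 + ε) * Real.sqrt N := by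
  obtain ⟨η, hη0, hη1, hη2⟩ : ∃ η : ℝ, 0 < η ∧ η ≤ 1 / 4 ∧ η ≤ ε / 4 :=
    ⟨min ε 1 / 4, by positivity, by
      have := min_le_right ε 1
      linarith, by
      have := min_le_left ε 1
      linarith⟩
  refine ⟨η ^ 2 / 72, by positivity, ?_⟩
  intro K₀ M hK
  obtain ⟨n, hn⟩ := exists_nat_ge (max (1 / η) ((2 * K₀ * (1 + 2 * M) / η ^ 2) ^ 2))
  refine ⟨n + 1, ?_⟩
  intro N hN C P Q B hC hcard hP _ _ h3 h4
  have hN' : (n : ℝ) + 1 ≤ N := by exact_mod_cast hN
  have hN1 : 1 / η ≤ N := (le_max_left _ _).trans (hn.trans (by linarith))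
  have hN2 : (2 * K₀ * (1 + 2 * M) / η ^ 2) ^ 2 ≤ N :=
    (le_max_right _ _).trans (hn.trans (by linarith))
  have hNpos : (0 : ℝ) < N := by
    have : (0 : ℝ) ≤ n := Nat.cast_nonneg _
    linarith
  have hηN : 1 ≤ η * N := by
    rw [div_le_iff₀ hη0] at hN1
    linarith
  set w := ⌈η * N⌉₊ with hw
  have hw1 : η * N ≤ w := Nat.le_ceil _
  have hw2 : (w : ℝ) ≤ η * N + 1 := (Nat.ceil_lt_add_one (by positivity)).le
  have hwpos : 0 < w := by
    have : (0 : ℝ) < w := lt_of_lt_of_le (by positivity) hw1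
    exact_mod_cast this
  have hcore := et_core (N := N) (w := w) hwpos (C := C) (P := P) (Q := Q) (B := B) hC
  have hsq : Real.sqrt N ^ 2 = N := Real.sq_sqrt hNpos.le
  have hsqpos : 0 < Real.sqrt N := Real.sqrt_pos.2 hNpos
  have hsq2 : 2 * K₀ * (1 + 2 * M) / η ^ 2 ≤ Real.sqrt N := by
    apply Real.le_sqrt_of_sq_le hN2
  have hP' : (P.card : ℝ) ≤ M := by exact_mod_cast hP
  -- the bound for the bad pairs
  have hbd : (C.card : ℝ) + 2 * ((C.card : ℝ) * P.card + 2 * (ap3 C).card +
        16 * ((quad C P Q).filter fun e => Disjoint e B).card) ≤ η * (η * N) := by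
    have e1 : (C.card : ℝ) * P.card ≤ K₀ * Real.sqrt N * M :=
      mul_le_mul hcard hP' (Nat.cast_nonneg _) (by positivity)
    have e2 : K₀ * Real.sqrt N * (1 + 2 * M) ≤ η ^ 2 / 2 * N := by
      have e3 : 2 * K₀ * (1 + 2 * M) ≤ Real.sqrt N * η ^ 2 := by
        rw [div_le_iff₀ (by positivity)] at hsq2
        exact hsq2
      have e4 : Real.sqrt N * (2 * K₀ * (1 + 2 * M)) ≤ Real.sqrt N * (Real.sqrt N * η ^ 2) :=
        mul_le_mul_of_nonneg_left e3 hsqpos.le
      have e5 : Real.sqrt N * (Real.sqrt N * η ^ 2) = N * η ^ 2 := by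
        rw [← mul_assoc, ← pow_two, hsq]
      linarith
    nlinarith
  have hdiv : ((C.card : ℝ) + 2 * ((C.card : ℝ) * P.card + 2 * (ap3 C).card +
        16 * ((quad C P Q).filter fun e => Disjoint e B).card)) / w ≤ η := by
    rw [div_le_iff₀ (by exact_mod_cast hwpos)]
    exact hbd.trans (mul_le_mul_of_nonneg_left hw1 hη0.le)
  have hfin : (∑ a ∈ C \ B, ff (C \ B) P Q a) ^ 2 ≤ ((1 + ε) * Real.sqrt N) ^ 2 := by
    refine hcore.trans ?_
    have e1 : (N : ℝ) + w ≤ N * (1 + 2 * η) := by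
      have : (w : ℝ) ≤ 2 * (η * N) := by linarith
      nlinarith
    calc _ ≤ (N * (1 + 2 * η)) * (1 + η) := by
          apply mul_le_mul e1 (by linarith) _ (by positivity)
          positivity
      _ = N * ((1 + 2 * η) * (1 + η)) := by ring
      _ ≤ N * (1 + ε) ^ 2 := by
          apply mul_le_mul_of_nonneg_left _ hNpos.le
          nlinarith
      _ = _ := by rw [mul_pow, hsq]; ring
  exact le_of_sq_le_sq hfin (by positivity)

end Pool.Agent.helper287_Sidon
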