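import Pool.Agent.helper287_Sidon.Defs
/-!
# The iteration, abstract form
-/

set_option autoImplicit false

open Finset Pool.Agent.Y940.CT

namespace Pool.Agent.helper287_Sidon

open Classical in
theorem iter_core {K₀ a R : ℝ} (hR : 0 < R) (ha : 0 < a) (X : Finset ℕ)
    (F : Finset ℕ → Prop)
    (hsmall : ∀ C : Finset ℕ, C ⊆ X → (C.card : ℝ) ≤ R / 10 → F C)
    (hstep : ∀ C : Finset ℕ, C ⊆ X → R / 10 < C.card → (C.card : ℝ) ≤ K₀ * R →
      F C ∨ ∃ δ : ℝ, 0 < δ ∧ δ ≤ 1 ∧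
        Cov (fun I => I ⊆ C ∧ Sid I) C (Real.exp (a * δ * R)) ((1 - δ) * C.card)) :
    ∀ n : ℕ, ∀ C : Finset ℕ, C.card = n → C ⊆ X → (C.card : ℝ) ≤ K₀ * R →
      ∃ 𝒞 : Finset (Finset ℕ),
        (𝒞.card : ℝ) ≤ Real.exp (if (C.card : ℝ) ≤ R / 10 then 0 else
          a * R * (1 + Real.log (10 * C.card / R))) ∧
        (∀ E ∈ 𝒞, E ⊆ C ∧ F E) ∧ ∀ I, I ⊆ C → Sid I → ∃ E ∈ 𝒞, I ⊆ E := by
  intro n
  induction n using Nat.strong_induction_on with
  | _ n ih =>
  intro C hCn hCX hCK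
  by_cases hC : (C.card : ℝ) ≤ R / 10
  · rw [if_pos hC]
    refine ⟨{C}, by simp, ?_, ?_⟩
    · intro E hE
      rw [mem_singleton.1 hE]
      exact ⟨Subset.refl C, hsmall C hCX hC⟩
    · intro I hI _
      exact ⟨C, mem_singleton_self _, hI⟩
  rw [if_neg hC]
  push Not at hC
  have hm0 : (0 : ℝ) < C.card := lt_trans (by positivity) hC
  have hlog : 0 ≤ Real.log (10 * C.card / R) := by
    refine Real.log_nonneg ?_
    rw [one_le_div hR]
    linarith
  rcases hstep C hCX hC hCK with hF | ⟨δ, hδ0, hδ1, 𝒟, hD1, hD2, hD3⟩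
  · refine ⟨{C}, ?_, ?_, ?_⟩
    · rw [card_singleton, Nat.cast_one]
      exact Real.one_le_exp (by positivity)
    · intro E hE
      rw [mem_singleton.1 hE]
      exact ⟨Subset.refl C, hF⟩
    · intro I hI _
      exact ⟨C, mem_singleton_self _, hI⟩
  · have hlt : ∀ D ∈ 𝒟, D.card < n := by
      intro D hD
      have h1 := (hD2 D hD).2
      rw [← hCn]
      have h2 : (D.card : ℝ) < C.card := by nlinarith
      exact_mod_cast h2
    have h4 : ∀ D : {D // D ∈ 𝒟}, ∃ 𝒞 : Finset (Finset ℕ),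
        (𝒞.card : ℝ) ≤ Real.exp (a * R * (1 + Real.log (10 * C.card / R)) - a * δ * R) ∧
        (∀ E ∈ 𝒞, E ⊆ C ∧ F E) ∧ ∀ I, I ⊆ D.1 → Sid I → ∃ E ∈ 𝒞, I ⊆ E := by
      rintro ⟨D, hD⟩
      obtain ⟨hDC, hDcard⟩ := hD2 D hD
      have hle : (D.card : ℝ) ≤ C.card := by exact_mod_cast card_le_card hDC
      obtain ⟨𝒞, h1, h2, h3⟩ := ih D.card (hlt D hD) D rfl (hDC.trans hCX) (hle.trans hCK)
      refine ⟨𝒞, h1.trans (Real.exp_le_exp.2 ?_), fun E hE => ⟨(h2 E hE).1.trans hDC, (h2 E hE).2⟩,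
        h3⟩
      split_ifs with hDs
      · have h5 : a * δ * R ≤ a * R := by nlinarith [mul_pos ha hR]
        have h6 : 0 ≤ a * R * Real.log (10 * C.card / R) := by positivity
        linarith
      · push Not at hDs
        have hD0 : (0 : ℝ) < D.card := lt_trans (by positivity) hDs
        have hδ2 : δ < 1 := by
          rcases lt_or_eq_of_le hδ1 with h | h
          · exact h
          · rw [h, sub_self, zero_mul] at hDcard
            linarith
        have h5 : Real.log (10 * D.card / R) ≤ Real.log (10 * C.card / R) - δ := by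
          have h6 : 10 * (D.card : ℝ) / R ≤ (1 - δ) * (10 * C.card / R) := by
            rw [mul_div_assoc', div_le_div_iff_of_pos_right hR]
            linarith
          have h7 : Real.log (10 * D.card / R) ≤ Real.log ((1 - δ) * (10 * C.card / R)) :=
            Real.log_le_log (by positivity) h6
          rw [Real.log_mul (by linarith) (by positivity)] at h7
          have h8 := Real.log_le_sub_one_of_pos (show 0 < 1 - δ by linarith)
          linarith
        have h9 : a * R * Real.log (10 * D.card / R) ≤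
            a * R * (Real.log (10 * C.card / R) - δ) :=
          mul_le_mul_of_nonneg_left h5 (by positivity)
        linarith
    choose 𝒢 hG1 hG2 hG3 using h4
    refine ⟨𝒟.attach.biUnion 𝒢, ?_, ?_, ?_⟩
    · have h5' : (𝒟.attach.biUnion 𝒢).card ≤ ∑ D ∈ 𝒟.attach, (𝒢 D).card := card_biUnion_le
      have h5 : ((𝒟.attach.biUnion 𝒢).card : ℝ) ≤ ∑ D ∈ 𝒟.attach, ((𝒢 D).card : ℝ) := by
        exact_mod_cast h5'
      have h6 : ∑ D ∈ 𝒟.attach, ((𝒢 D).card : ℝ) ≤ ∑ _D ∈ 𝒟.attach,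
          Real.exp (a * R * (1 + Real.log (10 * C.card / R)) - a * δ * R) :=
        sum_le_sum fun D _ => hG1 D
      rw [sum_const, card_attach, nsmul_eq_mul] at h6
      refine (h5.trans h6).trans ((mul_le_mul_of_nonneg_right hD1 (Real.exp_pos _).le).trans ?_)
      rw [← Real.exp_add]
      refine Real.exp_le_exp.2 (le_of_eq ?_)
      ring
    · intro E hE
      obtain ⟨D, _, hD⟩ := mem_biUnion.1 hE
      exact hG2 D E hD
    · intro I hI hS
      obtain ⟨D, hD, hID⟩ := hD3 I ⟨hI, hS⟩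
      obtain ⟨E, hE, hIE⟩ := hG3 ⟨D, hD⟩ I hID hS
      exact ⟨E, mem_biUnion.2 ⟨⟨D, hD⟩, mem_attach _ _, hE⟩, hIE⟩

end Pool.Agent.helper287_Sidon
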