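import Pool.Agent.helper287_Sidon.SOS
/-!
# Step for sets with many popular differences or sums (proved by helper530)
-/

set_option autoImplicit false

open Finset Pool.Agent.Y940.CT

namespace Pool.Agent.helper287_Sidon





/-- numerics: all the conditions on `N` -/
theorem s2_num (K₀ θ b c : ℝ) (M : ℕ) (hθ : 0 < θ) (hb : 0 < b) (hc : 0 < c) :
    ∃ N₀ : ℕ, ∀ N : ℕ, N₀ ≤ N → 1 ≤ N ∧ 2 ≤ θ * Real.sqrt N ∧ (M : ℝ) ≤ c * Real.sqrt N ∧
      (K₀ * Real.sqrt N) ^ M ≤ Real.exp (b * Real.sqrt N) := by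
  have hs : Filter.Tendsto (fun N : ℕ => Real.sqrt (N : ℝ)) Filter.atTop Filter.atTop :=
    Real.tendsto_sqrt_atTop.comp tendsto_natCast_atTop_atTop
  have h1 : ∀ᶠ N : ℕ in Filter.atTop, 1 ≤ N := Filter.eventually_ge_atTop 1
  have h2 : ∀ᶠ N : ℕ in Filter.atTop, 2 ≤ θ * Real.sqrt N :=
    (hs.const_mul_atTop hθ).eventually_ge_atTop 2
  have h3 : ∀ᶠ N : ℕ in Filter.atTop, (M : ℝ) ≤ c * Real.sqrt N :=
    (hs.const_mul_atTop hc).eventually_ge_atTop (M : ℝ)
  have h4 : ∀ᶠ x : ℝ in Filter.atTop, (K₀ * x) ^ M ≤ Real.exp (b * x) := by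
    have h5 : (fun x : ℝ => (K₀ * x) ^ M) =o[Filter.atTop] fun x => Real.exp (b * x) := by
      have := (isLittleO_pow_exp_pos_mul_atTop M hb).const_mul_left (K₀ ^ M)
      refine this.congr_left fun x => ?_
      rw [mul_pow]
    filter_upwards [h5.bound one_pos] with x hx
    rw [one_mul, Real.norm_eq_abs, Real.norm_eq_abs, Real.abs_exp] at hx
    exact (le_abs_self _).trans hx
  obtain ⟨N₀, hN₀⟩ := Filter.eventually_atTop.1 (h1.and (h2.and (h3.and (hs.eventually h4))))
  exact ⟨N₀, fun N hN => hN₀ N hN⟩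

/-- the abstract form of the step -/
theorem s2_core (K₀ θ a : ℝ) (hK : 1 ≤ K₀) (hθ : 0 < θ) (ha : 0 < a) :
    ∃ δ : ℝ, 0 < δ ∧ δ ≤ 1 ∧ ∃ M N₀ : ℕ, ∀ N : ℕ, N₀ ≤ N → 2 ≤ θ * Real.sqrt N ∧
      ∀ C : Finset ℕ, Real.sqrt N / 10 ≤ C.card → (C.card : ℝ) ≤ K₀ * Real.sqrt N →
      ∀ (D' : Finset ℕ) (E : ℕ → Finset (Finset ℕ)), D'.card = M →
      (∀ i ∈ D', ∀ e ∈ E i, e ⊆ C ∧ e.card = 2) →
      (∀ i ∈ D', ∀ j ∈ D', ∀ e, e ∈ E i → e ∈ E j → i = j) →
      (∀ i ∈ D', ∀ v : ℕ, ((E i).filter fun e => v ∈ e).card ≤ 2) →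
      (∀ i ∈ D', θ * Real.sqrt N / 4 ≤ (E i).card) →
      (∀ i ∈ D', ∀ I : Finset ℕ, Sid I → ∀ e ∈ E i, ∀ e' ∈ E i, e ⊆ I → e' ⊆ I → e = e') →
      Cov (fun I => I ⊆ C ∧ Sid I) C (Real.exp (a * δ * Real.sqrt N)) ((1 - δ) * C.card) := by
  classical
  obtain ⟨δ₀, hδ0, hδ1, τ₀, hτ0, hτ1, hstep⟩ := step_of_spread 2 (by norm_num)
    (max 1 (8 * K₀ / θ)) K₀ (a / 4) (le_max_left _ _) hK (by linarith)
  obtain ⟨M', hM'⟩ := exists_nat_ge (1 / τ₀)
  obtain ⟨M, hM1, hMτ⟩ : ∃ M : ℕ, 1 ≤ M ∧ 1 / (2 * (M : ℝ)) ≤ τ₀ := by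
    refine ⟨M' + 1, by omega, ?_⟩
    rw [div_le_iff₀ (by positivity)]
    rw [div_le_iff₀ hτ0] at hM'
    push_cast
    nlinarith [Nat.cast_nonneg (α := ℝ) M']
  have hM0 : (0:ℝ) < M := by exact_mod_cast hM1
  obtain ⟨N₁, hN₁⟩ := hstep (1 / (2 * (M : ℝ))) (by positivity) hMτ
  obtain ⟨N₂, hN₂⟩ := s2_num K₀ θ (a * δ₀ / 4) (δ₀ / 20) M hθ (by positivity) (by positivity)
  refine ⟨δ₀ / 2, by linarith, by linarith, M, max N₁ N₂, ?_⟩
  intro N hN
  obtain ⟨hN1, hθN, hMN, hexp⟩ := hN₂ N (le_trans (le_max_right _ _) hN)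
  refine ⟨hθN, ?_⟩
  intro C hC1 hC2 D' E hD' hE1 hE2 hE3 hE4 hE5
  have hR0 : 0 < Real.sqrt N := Real.sqrt_pos.2 (by exact_mod_cast hN1)
  have hC0 : (0:ℝ) < C.card := lt_of_lt_of_le (by positivity) hC1
  have hCne : C.Nonempty := by
    rw [← Finset.card_pos]; exact_mod_cast hC0
  set F : Finset (Finset ℕ) := D'.biUnion E with hF
  set w : Finset ℕ → ℝ := fun e => if e ∈ F then 1 else 0 with hw
  have hFC : ∀ e ∈ F, e ⊆ C ∧ e.card = 2 := by
    intro e he
    obtain ⟨i, hi, hei⟩ := mem_biUnion.1 he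
    exact hE1 i hi e hei
  have hK0 : (0:ℝ) < K₀ := by linarith
  set D : ℝ := M * θ / (4 * K₀) with hD
  have hD0 : 0 < D := by positivity
  have hKD : 2 * M ≤ max 1 (8 * K₀ / θ) * D := by
    have : 8 * K₀ / θ * D = 2 * M := by
      rw [hD]; field_simp; ring
    rw [← this]
    exact mul_le_mul_of_nonneg_right (le_max_right _ _) hD0.le
  -- degree as a cardinality
  have hdeg : ∀ J : Finset ℕ, deg C w J = ((F.filter fun e => J ⊆ e).card : ℝ) := by
    intro J
    unfold deg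
    have h1 : ∀ e ∈ C.powerset, (if J ⊆ e then w e else 0) =
        if (e ∈ F ∧ J ⊆ e) then (1:ℝ) else 0 := by
      intro e _
      simp only [hw]
      by_cases h1 : J ⊆ e <;> by_cases h2 : e ∈ F <;> simp [h1, h2]
    rw [sum_congr rfl h1, ← sum_filter, sum_const, nsmul_eq_mul, mul_one]
    congr 2
    ext e
    simp only [mem_filter, mem_powerset]
    constructor
    · rintro ⟨_, h⟩; exact h
    · intro h; exact ⟨(hFC e h.1).1, h⟩
  have hspread : Spread C 2 w D (max 1 (8 * K₀ / θ)) (1 / (2 * (M : ℝ))) := by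
    refine ⟨?_, ?_, ?_, ?_⟩
    · intro e
      simp only [hw]
      split_ifs <;> norm_num
    · intro e he
      simp only [hw] at he
      by_cases h : e ∈ F
      · exact hFC e h
      · simp [h] at he
    · have h1 : ∑ e ∈ C.powerset, w e = (F.card : ℝ) := by
        have := hdeg ∅
        unfold deg at this
        simpa using this
      rw [h1]
      have h2 : F.card = ∑ i ∈ D', (E i).card := by
        rw [hF]
        refine card_biUnion ?_
        intro i hi j hj hij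
        rw [Function.onFun, disjoint_left]
        intro e hei hej
        exact hij (hE2 i hi j hj e hei hej)
      have h3 : (M : ℝ) * (θ * Real.sqrt N / 4) ≤ (F.card : ℝ) := by
        rw [h2]
        push_cast
        calc (M : ℝ) * (θ * Real.sqrt N / 4) = ∑ _i ∈ D', θ * Real.sqrt N / 4 := by
              rw [sum_const, hD', nsmul_eq_mul]
          _ ≤ ∑ i ∈ D', ((E i).card : ℝ) := sum_le_sum fun i hi => hE4 i hi
      calc (C.card : ℝ) * D ≤ K₀ * Real.sqrt N * D := mul_le_mul_of_nonneg_right hC2 hD0.le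
        _ = M * (θ * Real.sqrt N / 4) := by rw [hD]; field_simp
        _ ≤ F.card := h3
    · intro J hJ
      rw [hdeg]
      have hτ : (0:ℝ) < 1 / (2 * (M : ℝ)) := by positivity
      have hJ1 : 1 ≤ J.card := hJ.card_pos
      rcases Nat.lt_or_ge 2 J.card with h3 | h3
      · have : (F.filter fun e => J ⊆ e) = ∅ := by
          rw [filter_eq_empty_iff]
          intro e he hJe
          have := card_le_card hJe
          rw [(hFC e he).2] at this
          omega
        rw [this]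
        simp only [card_empty, Nat.cast_zero, zero_mul]
        positivity
      · rcases Nat.lt_or_ge 1 J.card with h2 | h2
        · have hJ2 : J.card = 2 := le_antisymm h3 h2
          have hle : (F.filter fun e => J ⊆ e).card ≤ 1 := by
            rw [card_le_one]
            intro e he e' he'
            rw [mem_filter] at he he'
            have e1 := eq_of_subset_of_card_le he.2 (by rw [hJ2, (hFC e he.1).2])
            have e2 := eq_of_subset_of_card_le he'.2 (by rw [hJ2, (hFC e' he'.1).2])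
            rw [← e1, ← e2]
          have hle' : ((F.filter fun e => J ⊆ e).card : ℝ) ≤ 1 := by exact_mod_cast hle
          rw [hJ2]
          calc ((F.filter fun e => J ⊆ e).card : ℝ) * (1 / (2 * (M : ℝ)))
              ≤ 1 * (1 / (2 * (M : ℝ))) := mul_le_mul_of_nonneg_right hle' hτ.le
            _ = 2 * M * (1 / (2 * (M : ℝ))) ^ 2 := by field_simp
            _ ≤ max 1 (8 * K₀ / θ) * D * (1 / (2 * (M : ℝ))) ^ 2 :=
                mul_le_mul_of_nonneg_right hKD (by positivity)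
        · have hJ2 : J.card = 1 := le_antisymm h2 hJ1
          obtain ⟨v, rfl⟩ := card_eq_one.1 hJ2
          have hle : (F.filter fun e => {v} ⊆ e).card ≤ 2 * M := by
            have h1 : (F.filter fun e => {v} ⊆ e) = D'.biUnion fun i => (E i).filter fun e => v ∈ e := by
              rw [hF, filter_biUnion]
              simp only [singleton_subset_iff]
            rw [h1]
            calc _ ≤ ∑ i ∈ D', ((E i).filter fun e => v ∈ e).card := card_biUnion_le
              _ ≤ ∑ _i ∈ D', 2 := sum_le_sum fun i hi => hE3 i hi v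
              _ = 2 * M := by rw [sum_const, hD', smul_eq_mul, mul_comm]
          have hle' : ((F.filter fun e => {v} ⊆ e).card : ℝ) ≤ 2 * M := by exact_mod_cast hle
          rw [hJ2, pow_one]
          exact mul_le_mul_of_nonneg_right (hle'.trans hKD) hτ.le
  obtain ⟨𝒞, h𝒞1, h𝒞2, h𝒞3⟩ := hN₁ N (le_trans (le_max_left _ _) hN) C hC1 hC2 w D hD0 hspread
  -- the new containers
  refine ⟨(𝒞 ×ˢ Fintype.piFinset fun _ : {i // i ∈ D'} => C).image
    fun p => p.1 ∪ univ.image p.2, ?_, ?_, ?_⟩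
  · have h1 : ((𝒞 ×ˢ Fintype.piFinset fun _ : {i // i ∈ D'} => C).image
        fun p => p.1 ∪ univ.image p.2).card ≤ 𝒞.card * C.card ^ M := by
      refine card_image_le.trans ?_
      rw [card_product, Fintype.card_piFinset]
      simp [hD']
    have h2 : ((C.card : ℝ)) ^ M ≤ Real.exp (a * δ₀ / 4 * Real.sqrt N) :=
      (pow_le_pow_left₀ hC0.le hC2 M).trans hexp
    calc (((𝒞 ×ˢ Fintype.piFinset fun _ : {i // i ∈ D'} => C).image
        fun p => p.1 ∪ univ.image p.2).card : ℝ) ≤ 𝒞.card * (C.card : ℝ) ^ M := by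
          exact_mod_cast h1
      _ ≤ Real.exp (a / 4 * δ₀ * Real.sqrt N) * Real.exp (a * δ₀ / 4 * Real.sqrt N) :=
          mul_le_mul h𝒞1 h2 (by positivity) (Real.exp_pos _).le
      _ = Real.exp (a * (δ₀ / 2) * Real.sqrt N) := by
          rw [← Real.exp_add]
          congr 1
          ring
  · intro c hc
    obtain ⟨⟨c', g⟩, hp, rfl⟩ := mem_image.1 hc
    rw [mem_product, Fintype.mem_piFinset] at hp
    have hg : univ.image g ⊆ C := by
      intro x hx
      obtain ⟨i, _, rfl⟩ := mem_image.1 hx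
      exact hp.2 i
    refine ⟨union_subset (h𝒞2 c' hp.1).1 hg, ?_⟩
    have h1 : (c' ∪ univ.image g).card ≤ c'.card + M := by
      refine (card_union_le _ _).trans (Nat.add_le_add_left ?_ _)
      refine card_image_le.trans ?_
      simp [hD']
    have h2 : ((c' ∪ univ.image g).card : ℝ) ≤ c'.card + M := by exact_mod_cast h1
    have h3 := (h𝒞2 c' hp.1).2
    have h4 : (M : ℝ) ≤ δ₀ / 2 * C.card := by
      calc (M : ℝ) ≤ δ₀ / 20 * Real.sqrt N := hMN
        _ = δ₀ / 2 * (Real.sqrt N / 10) := by ring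
        _ ≤ δ₀ / 2 * C.card := mul_le_mul_of_nonneg_left hC1 (by positivity)
    simp only
    linarith
  · rintro I ⟨hIC, hIS⟩
    obtain ⟨c₀, hc₀⟩ := hCne
    -- choose the vertices
    have hch : ∀ i : {i // i ∈ D'}, ∃ x ∈ C, ∀ e ∈ E i.1, e ⊆ I → x ∈ e := by
      intro i
      by_cases h : ∃ e ∈ E i.1, e ⊆ I
      · obtain ⟨e, he, heI⟩ := h
        have hne : e.Nonempty := by
          rw [← card_pos, (hE1 i.1 i.2 e he).2]; norm_num
        obtain ⟨x, hx⟩ := hne
        refine ⟨x, hIC (heI hx), ?_⟩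
        intro e' he' he'I
        rw [← hE5 i.1 i.2 I hIS e he e' he' heI he'I]
        exact hx
      · push Not at h
        exact ⟨c₀, hc₀, fun e he heI => absurd heI (h e he)⟩
    choose g hg1 hg2 using hch
    have hind : Ind w (I \ univ.image g) := by
      intro e he
      by_contra hne
      have heF : e ∈ F := by
        by_contra h
        exact hne (by simp [hw, h])
      obtain ⟨i, hi, hei⟩ := mem_biUnion.1 heF
      have h1 : g ⟨i, hi⟩ ∈ e := hg2 ⟨i, hi⟩ e hei (he.trans sdiff_subset)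
      have h2 := he h1
      rw [mem_sdiff] at h2
      exact h2.2 (mem_image_of_mem g (mem_univ _))
    obtain ⟨c, hc, hIc⟩ := h𝒞3 (I \ univ.image g) ⟨sdiff_subset.trans hIC, hind⟩
    refine ⟨c ∪ univ.image g, mem_image.2 ⟨(c, g), ?_, rfl⟩, ?_⟩
    · rw [mem_product, Fintype.mem_piFinset]
      exact ⟨hc, hg1⟩
    · intro x hx
      by_cases hxg : x ∈ univ.image g
      · exact mem_union_right _ hxg
      · exact mem_union_left _ (hIc (mem_sdiff.2 ⟨hx, hxg⟩))



/-- the pairs with difference `d` -/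
def s2_Em (C : Finset ℕ) (d : ℕ) : Finset (Finset ℕ) :=
  (C.filter fun x => x + d ∈ C).image fun x => {x, x + d}

/-- the pairs with sum `σ` -/
def s2_Ep (C : Finset ℕ) (σ : ℕ) : Finset (Finset ℕ) :=
  (C.filter fun x => x < σ - x ∧ σ - x ∈ C).image fun x => {x, σ - x}

theorem s2_mem_Em {C : Finset ℕ} {d : ℕ} {e : Finset ℕ} :
    e ∈ s2_Em C d ↔ ∃ x, x ∈ C ∧ x + d ∈ C ∧ e = {x, x + d} := by
  unfold s2_Em
  simp only [mem_image, mem_filter]
  constructor
  · rintro ⟨x, ⟨h1, h2⟩, rfl⟩; exact ⟨x, h1, h2, rfl⟩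
  · rintro ⟨x, h1, h2, rfl⟩; exact ⟨x, ⟨h1, h2⟩, rfl⟩

theorem s2_mem_Ep {C : Finset ℕ} {σ : ℕ} {e : Finset ℕ} :
    e ∈ s2_Ep C σ ↔ ∃ x, x ∈ C ∧ x < σ - x ∧ σ - x ∈ C ∧ e = {x, σ - x} := by
  unfold s2_Ep
  simp only [mem_image, mem_filter]
  constructor
  · rintro ⟨x, ⟨h1, h2, h3⟩, rfl⟩; exact ⟨x, h1, h2, h3, rfl⟩
  · rintro ⟨x, h1, h2, h3, rfl⟩; exact ⟨x, ⟨h1, h2, h3⟩, rfl⟩

theorem s2_pair_inj {x y x' y' : ℕ} (h : x < y) (h' : x' < y')
    (he : ({x, y} : Finset ℕ) = {x', y'}) : x = x' ∧ y = y' := by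
  have h1 : x ∈ ({x', y'} : Finset ℕ) := by rw [← he]; simp
  have h2 : y ∈ ({x', y'} : Finset ℕ) := by rw [← he]; simp
  have h3 : x' ∈ ({x, y} : Finset ℕ) := by rw [he]; simp
  simp only [mem_insert, mem_singleton] at h1 h2 h3
  omega

theorem s2_rm (C : Finset ℕ) {d : ℕ} (hd : 1 ≤ d) : (s2_Em C d).card = rm C d := by
  unfold s2_Em rm
  refine card_image_of_injOn ?_
  intro x _ y _ hxy
  exact (s2_pair_inj (by omega) (by omega) hxy).1

theorem s2_rp (C : Finset ℕ) (σ : ℕ) : rp C σ ≤ 2 * (s2_Ep C σ).card + 1 := by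
  have h1 : (s2_Ep C σ).card = (C.filter fun x => x < σ - x ∧ σ - x ∈ C).card := by
    unfold s2_Ep
    refine card_image_of_injOn ?_
    intro x hx y hy hxy
    simp only [coe_filter, Set.mem_ofPred_eq] at hx hy
    exact (s2_pair_inj hx.2.1 hy.2.1 hxy).1
  rw [h1]
  unfold rp
  set A := C.filter fun x => x < σ - x ∧ σ - x ∈ C with hA
  have hsub : (C.filter fun x => x ≤ σ ∧ σ - x ∈ C) ⊆ (A ∪ A.image fun x => σ - x) ∪ {σ / 2} := by
    intro x hx
    rw [mem_filter] at hx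
    rcases lt_trichotomy x (σ - x) with h | h | h
    · exact mem_union_left _ (mem_union_left _ (mem_filter.2 ⟨hx.1, h, hx.2.2⟩))
    · refine mem_union_right _ (mem_singleton.2 ?_)
      omega
    · refine mem_union_left _ (mem_union_right _ (mem_image.2 ⟨σ - x, mem_filter.2 ⟨hx.2.2, ?_, ?_⟩, ?_⟩))
      · omega
      · have : σ - (σ - x) = x := by omega
        rw [this]; exact hx.1
      · omega
  calc _ ≤ ((A ∪ A.image fun x => σ - x) ∪ {σ / 2}).card := card_le_card hsub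
    _ ≤ (A ∪ A.image fun x => σ - x).card + 1 := by
        have := card_union_le (A ∪ A.image fun x => σ - x) {σ / 2}
        rwa [card_singleton] at this
    _ ≤ 2 * A.card + 1 := by
        have h2 := card_union_le A (A.image fun x => σ - x)
        have h3 : (A.image fun x => σ - x).card ≤ A.card := card_image_le
        omega

/-- TARGET. Proof. R = √N, t = θ R. Apply `step_of_spread` with s = 2, K = max 1 (8 K₀/θ), and a/4 in place of a: get δ₀, τ₀. Final δ = δ₀/2.
M: any natural number with 1/(2M) ≤ τ₀ (and M ≥ 1); τ = 1/(2M).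
Suppose M ≤ |Dm|. Choose D' ⊆ Dm with |D'| = M. w e = 1 if e = {x, x+d} with d ∈ D', x, x+d ∈ C. Σ w = Σ_{d∈D'} rm C d ≥ M t. Degrees ≤ 2M. D = Mθ/(4K₀):
|C| D ≤ K₀ R D ≤ M t. K D ≥ 2M. deg {v} ≤ 2M ≤ K D. |J| = 2: 1·τ ≤ 2M τ² ≤ K D τ². |J| ≥ 3: 0.
A Sidon set I has, for each d ≥ 1, at most one x with x, x+d ∈ I (x + (y+d) = y + (x+d)). So there is E ⊆ I, |E| ≤ M with Ind w (I \ E).
So the sets C' ∪ E, C' a container and E ⊆ C with |E| ≤ M, cover; their number is ≤ exp(a δ₀ R/4) (|C|+1)^M ≤ exp(a (δ₀/2) R) for N large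
(number of subsets of C of size ≤ M is ≤ (|C|+1)^M, e.g. images of maps Fin M → Option C; |C| ≤ K₀ R), sizes ≤ (1-δ₀)|C| + M ≤ (1-δ₀/2)|C| for N large as |C| ≥ R/10.
Suppose M ≤ |Dp|: the same with e = {x, σ-x}, x < σ - x, σ ∈ D'; for each σ the number of such e is ≥ (rp C σ - 1)/2 ≥ t/4 for N large;
degrees ≤ M; a Sidon set has at most one unordered pair with a given sum.
It is worth proving one lemma for both cases: a family (E_i)_{i ∈ D'} of pairwise disjoint sets of 2-subsets of C, each vertex in ≤ 2 members of each E_i,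
|E_i| ≥ t/4, and every Sidon I contains at most one member of each E_i. -/
theorem step2 (K₀ θ a : ℝ) (hK : 1 ≤ K₀) (hθ : 0 < θ) (ha : 0 < a) :
    ∃ δ : ℝ, 0 < δ ∧ δ ≤ 1 ∧ ∃ M N₀ : ℕ, ∀ N : ℕ, N₀ ≤ N → ∀ C : Finset ℕ,
      Real.sqrt N / 10 ≤ C.card → (C.card : ℝ) ≤ K₀ * Real.sqrt N →
      (M ≤ (Dm N C (θ * Real.sqrt N)).card ∨ M ≤ (Dp N C (θ * Real.sqrt N)).card) →
      Cov (fun I => I ⊆ C ∧ Sid I) C (Real.exp (a * δ * Real.sqrt N)) ((1 - δ) * C.card) := by
  classical
  obtain ⟨δ, hδ0, hδ1, M, N₀, hcore⟩ := s2_core K₀ θ a hK hθ ha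
  refine ⟨δ, hδ0, hδ1, M, N₀, ?_⟩
  intro N hN C hC1 hC2 hor
  obtain ⟨hθN, hcov⟩ := hcore N hN
  rcases hor with hm | hp
  · obtain ⟨D', hD'1, hD'2⟩ := exists_subset_card_eq hm
    have hD'3 : ∀ d ∈ D', 1 ≤ d ∧ θ * Real.sqrt N ≤ rm C d := by
      intro d hd
      have := hD'1 hd
      unfold Dm at this
      rw [mem_filter, mem_Icc] at this
      exact ⟨this.1.1, this.2⟩
    refine hcov C hC1 hC2 D' (s2_Em C) hD'2 ?_ ?_ ?_ ?_ ?_
    · intro d hd e he
      obtain ⟨x, hx1, hx2, rfl⟩ := s2_mem_Em.1 he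
      refine ⟨insert_subset hx1 (singleton_subset_iff.2 hx2), card_pair ?_⟩
      have := (hD'3 d hd).1
      omega
    · intro d hd d' hd' e he he'
      obtain ⟨x, hx1, hx2, rfl⟩ := s2_mem_Em.1 he
      obtain ⟨y, hy1, hy2, h⟩ := s2_mem_Em.1 he'
      have h1 := (hD'3 d hd).1
      have h2 := (hD'3 d' hd').1
      have h3 := s2_pair_inj (by omega) (by omega) h
      omega
    · intro d hd v
      have hsub : ((s2_Em C d).filter fun e => v ∈ e) ⊆ {{v, v + d}, {v - d, v}} := by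
        intro e he
        rw [mem_filter] at he
        obtain ⟨x, hx1, hx2, rfl⟩ := s2_mem_Em.1 he.1
        have hv := he.2
        rw [mem_insert, mem_singleton] at hv
        rw [mem_insert, mem_singleton]
        rcases hv with rfl | rfl
        · left; rfl
        · right
          have : x + d - d = x := by omega
          rw [this]
      exact (card_le_card hsub).trans card_le_two
    · intro d hd
      rw [s2_rm C (hD'3 d hd).1]
      have := (hD'3 d hd).2
      linarith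
    · intro d hd I hI e he e' he' heI heI'
      obtain ⟨x, hx1, hx2, rfl⟩ := s2_mem_Em.1 he
      obtain ⟨y, hy1, hy2, rfl⟩ := s2_mem_Em.1 he'
      have h1 := (hD'3 d hd).1
      have hx : x ∈ I := heI (by simp)
      have hxd : x + d ∈ I := heI (by simp)
      have hy : y ∈ I := heI' (by simp)
      have hyd : y + d ∈ I := heI' (by simp)
      have := hI x hx (y + d) hyd y hy (x + d) hxd (by omega)
      have hxy : x = y := by omega
      rw [hxy]
  · obtain ⟨D', hD'1, hD'2⟩ := exists_subset_card_eq hp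
    have hD'3 : ∀ σ ∈ D', θ * Real.sqrt N ≤ rp C σ := by
      intro σ hσ
      have := hD'1 hσ
      unfold Dp at this
      rw [mem_filter] at this
      exact this.2
    refine hcov C hC1 hC2 D' (s2_Ep C) hD'2 ?_ ?_ ?_ ?_ ?_
    · intro σ hσ e he
      obtain ⟨x, hx1, hx2, hx3, rfl⟩ := s2_mem_Ep.1 he
      exact ⟨insert_subset hx1 (singleton_subset_iff.2 hx3), card_pair (by omega)⟩
    · intro σ hσ σ' hσ' e he he'
      obtain ⟨x, hx1, hx2, hx3, rfl⟩ := s2_mem_Ep.1 he
      obtain ⟨y, hy1, hy2, hy3, h⟩ := s2_mem_Ep.1 he'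
      have h3 := s2_pair_inj hx2 hy2 h
      omega
    · intro σ hσ v
      have hsub : ((s2_Ep C σ).filter fun e => v ∈ e) ⊆ {{v, σ - v}, {σ - v, v}} := by
        intro e he
        rw [mem_filter] at he
        obtain ⟨x, hx1, hx2, hx3, rfl⟩ := s2_mem_Ep.1 he.1
        have hv := he.2
        rw [mem_insert, mem_singleton] at hv
        rw [mem_insert, mem_singleton]
        rcases hv with rfl | rfl
        · left; rfl
        · right
          have : σ - (σ - x) = x := by omega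
          rw [this]
      exact (card_le_card hsub).trans card_le_two
    · intro σ hσ
      have h1 := hD'3 σ hσ
      have h2 : (rp C σ : ℝ) ≤ 2 * (s2_Ep C σ).card + 1 := by exact_mod_cast s2_rp C σ
      linarith
    · intro σ hσ I hI e he e' he' heI heI'
      obtain ⟨x, hx1, hx2, hx3, rfl⟩ := s2_mem_Ep.1 he
      obtain ⟨y, hy1, hy2, hy3, rfl⟩ := s2_mem_Ep.1 he'
      have hx : x ∈ I := heI (by simp)
      have hxd : σ - x ∈ I := heI (by simp)
      have hy : y ∈ I := heI' (by simp)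
      have hyd : σ - y ∈ I := heI' (by simp)
      have := hI x hx (σ - x) hxd y hy (σ - y) hyd (by omega)
      have hxy : x = y := by omega
      rw [hxy]

end Pool.Agent.helper287_Sidon
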