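import Pool.Agent.helper287_Sidon.SOS
/-!
# Step for sets with many three term progressions
-/

set_option autoImplicit false

open Finset Pool.Agent.Y940.CT

namespace Pool.Agent.helper287_Sidon

open Classical in
/-- the indicator weight of a family -/
noncomputable def wf (𝓗 : Finset (Finset ℕ)) (e : Finset ℕ) : ℝ := if e ∈ 𝓗 then 1 else 0

open Classical in
theorem deg_wf {U : Finset ℕ} {𝓗 : Finset (Finset ℕ)} (h : ∀ e ∈ 𝓗, e ⊆ U) (J : Finset ℕ) :
    deg U (wf 𝓗) J = (𝓗.filter fun e => J ⊆ e).card := by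
  unfold deg wf
  rw [card_eq_sum_ones, Nat.cast_sum, sum_filter, ← sum_filter_add_sum_filter_not U.powerset
    (fun e => e ∈ 𝓗)]
  have h1 : ∑ e ∈ U.powerset.filter (fun e => ¬ e ∈ 𝓗),
      (if J ⊆ e then (if e ∈ 𝓗 then (1 : ℝ) else 0) else 0) = 0 := by
    refine sum_eq_zero fun e he => ?_
    rw [if_neg (mem_filter.1 he).2]
    split_ifs <;> rfl
  rw [h1, add_zero]
  have h2 : U.powerset.filter (fun e => e ∈ 𝓗) = 𝓗 := by
    ext e
    rw [mem_filter, mem_powerset]
    exact ⟨fun h => h.2, fun he => ⟨h e he, he⟩⟩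
  rw [h2]
  refine sum_congr rfl fun e he => ?_
  rw [if_pos he]
  split_ifs <;> simp

open Classical in
theorem spread_of_family {U : Finset ℕ} {𝓗 : Finset (Finset ℕ)} {s : ℕ} {D K τ : ℝ}
    (h : ∀ e ∈ 𝓗, e ⊆ U ∧ e.card = s) (htot : U.card * D ≤ 𝓗.card)
    (hcod : ∀ J : Finset ℕ, J.Nonempty →
      ((𝓗.filter fun e => J ⊆ e).card : ℝ) * τ ≤ K * D * τ ^ J.card) :
    Spread U s (wf 𝓗) D K τ := by
  refine ⟨?_, ?_, ?_, ?_⟩
  · intro e
    unfold wf
    split_ifs <;> norm_num
  · intro e he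
    unfold wf at he
    split_ifs at he with h1
    · exact h e h1
    · exact absurd rfl he
  · refine htot.trans (le_of_eq ?_)
    have h1 := deg_wf (fun e he => (h e he).1) (∅ : Finset ℕ)
    unfold deg at h1
    simp only [empty_subset, if_true, filter_true] at h1
    exact h1.symm
  · intro J hJ
    rw [deg_wf (fun e he => (h e he).1)]
    exact hcod J hJ

theorem ind_wf {𝓗 : Finset (Finset ℕ)} {I : Finset ℕ} (h : ∀ e ∈ 𝓗, ¬ e ⊆ I) :
    Ind (wf 𝓗) I := by
  intro e he
  unfold wf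
  rw [if_neg]
  intro h1
  exact h e h1 he

/-- the family of the three term progressions -/
def T3 (C : Finset ℕ) : Finset (Finset ℕ) := (ap3 C).image fun p => {p.1, p.2, 2 * p.2 - p.1}

theorem mem_ap3 {C : Finset ℕ} {p : ℕ × ℕ} :
    p ∈ ap3 C ↔ p.1 ∈ C ∧ p.2 ∈ C ∧ p.1 < p.2 ∧ 2 * p.2 - p.1 ∈ C := by
  unfold ap3
  rw [mem_filter, mem_product, and_assoc]

theorem card_T3 (C : Finset ℕ) : (T3 C).card = (ap3 C).card := by
  unfold T3
  refine card_image_of_injOn ?_
  rintro ⟨x, y⟩ hp ⟨x', y'⟩ hp' he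
  have h1 := (mem_ap3.1 hp).2.2.1
  have h1' := (mem_ap3.1 hp').2.2.1
  simp only at he h1 h1'
  have a1 : x ∈ ({x', y', 2 * y' - x'} : Finset ℕ) := by rw [← he]; simp
  have a2 : y ∈ ({x', y', 2 * y' - x'} : Finset ℕ) := by rw [← he]; simp
  have a3 : 2 * y - x ∈ ({x', y', 2 * y' - x'} : Finset ℕ) := by rw [← he]; simp
  simp only [mem_insert, mem_singleton] at a1 a2 a3
  rw [Prod.mk.injEq]
  omega

theorem T3_mem {C e : Finset ℕ} (he : e ∈ T3 C) : ∃ x y : ℕ, x ∈ C ∧ y ∈ C ∧ x < y ∧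
    2 * y - x ∈ C ∧ e = {x, y, 2 * y - x} := by
  obtain ⟨p, hp, rfl⟩ := mem_image.1 he
  obtain ⟨h1, h2, h3, h4⟩ := mem_ap3.1 hp
  exact ⟨p.1, p.2, h1, h2, h3, h4, rfl⟩

theorem T3_card3 {C e : Finset ℕ} (he : e ∈ T3 C) : e ⊆ C ∧ e.card = 3 := by
  obtain ⟨x, y, h1, h2, h3, h4, rfl⟩ := T3_mem he
  refine ⟨?_, ?_⟩
  · intro z hz
    simp only [mem_insert, mem_singleton] at hz
    rcases hz with rfl | rfl | rfl
    · exact h1
    · exact h2
    · exact h4
  · rw [card_insert_of_notMem, card_insert_of_notMem, card_singleton]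
    · rw [mem_singleton]
      omega
    · simp only [mem_insert, mem_singleton]
      omega

theorem T3_deg1 (C : Finset ℕ) (v : ℕ) : ((T3 C).filter fun e => {v} ⊆ e).card ≤ 3 * C.card := by
  have h1 : ((T3 C).filter fun e => {v} ⊆ e) ⊆ (C.image fun y => {v, y, 2 * y - v}) ∪
      (C.image fun x => {x, v, 2 * v - x}) ∪ (C.image fun y => {2 * y - v, y, v}) := by
    intro e he
    obtain ⟨h1, h2⟩ := mem_filter.1 he
    obtain ⟨x, y, hx, hy, hxy, hz, rfl⟩ := T3_mem h1
    rw [singleton_subset_iff] at h2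
    simp only [mem_insert, mem_singleton] at h2
    rcases h2 with rfl | rfl | h2
    · exact mem_union_left _ (mem_union_left _ (mem_image.2 ⟨y, hy, rfl⟩))
    · exact mem_union_left _ (mem_union_right _ (mem_image.2 ⟨x, hx, rfl⟩))
    · refine mem_union_right _ (mem_image.2 ⟨y, hy, ?_⟩)
      rw [h2]
      have : 2 * y - (2 * y - x) = x := by omega
      rw [this]
  refine (card_le_card h1).trans ((card_union_le _ _).trans ?_)
  have h2 := card_union_le (C.image fun y => ({v, y, 2 * y - v} : Finset ℕ))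
    (C.image fun x => ({x, v, 2 * v - x} : Finset ℕ))
  have h3 : (C.image fun y => ({v, y, 2 * y - v} : Finset ℕ)).card ≤ C.card := card_image_le
  have h4 : (C.image fun x => ({x, v, 2 * v - x} : Finset ℕ)).card ≤ C.card := card_image_le
  have h5 : (C.image fun y => ({2 * y - v, y, v} : Finset ℕ)).card ≤ C.card := card_image_le
  omega

theorem T3_deg2 (C : Finset ℕ) {a b : ℕ} (hab : a < b) :
    ((T3 C).filter fun e => {a, b} ⊆ e).card ≤ 3 := by
  have h1 : ((T3 C).filter fun e => {a, b} ⊆ e) ⊆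
      {{a, b, 2 * b - a}, {a, (a + b) / 2, b}, {2 * a - b, a, b}} := by
    intro e he
    obtain ⟨h1, h2⟩ := mem_filter.1 he
    obtain ⟨x, y, hx, hy, hxy, hz, rfl⟩ := T3_mem h1
    have ha : a ∈ ({x, y, 2 * y - x} : Finset ℕ) := h2 (by simp)
    have hb : b ∈ ({x, y, 2 * y - x} : Finset ℕ) := h2 (by simp)
    simp only [mem_insert, mem_singleton] at ha hb ⊢
    rcases ha with rfl | rfl | ha <;> rcases hb with rfl | rfl | hb
    · omega
    · left
      rfl
    · right
      left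
      rw [hb]
      have h3 : (a + (2 * y - a)) / 2 = y := by omega
      rw [h3]
    · omega
    · omega
    · right
      right
      rw [hb]
      have h3 : 2 * a - (2 * a - x) = x := by omega
      rw [h3]
    · omega
    · omega
    · omega
  refine (card_le_card h1).trans ?_
  refine (card_insert_le _ _).trans ?_
  have := card_insert_le ({a, (a + b) / 2, b} : Finset ℕ) {{2 * a - b, a, b}}
  rw [card_singleton] at this
  omega

/-- Step for sets with many three term progressions. -/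
theorem step3 (K₀ ε₂ a : ℝ) (hK : 1 ≤ K₀) (hε : 0 < ε₂) (ha : 0 < a) :
    ∃ δ : ℝ, 0 < δ ∧ δ ≤ 1 ∧ ∃ N₀ : ℕ, ∀ N : ℕ, N₀ ≤ N → ∀ C : Finset ℕ,
      Real.sqrt N / 10 ≤ C.card → (C.card : ℝ) ≤ K₀ * Real.sqrt N →
      ε₂ * N ≤ (ap3 C).card →
      Cov (fun I => I ⊆ C ∧ Sid I) C (Real.exp (a * δ * Real.sqrt N)) ((1 - δ) * C.card) := by
  classical
  set K : ℝ := max 1 (3 * K₀ ^ 2 / ε₂) with hKdef
  have hK1 : 1 ≤ K := le_max_left _ _
  obtain ⟨δ, hδ0, hδ1, τ₀, hτ₀0, hτ₀1, hstep⟩ := step_of_spread 3 (by norm_num) K K₀ a hK1 hK ha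
  obtain ⟨N₀, hN₀⟩ := hstep τ₀ hτ₀0 le_rfl
  refine ⟨δ, hδ0, hδ1, max N₀ (max 1 ⌈(1 / τ₀ ^ 2) ^ 2⌉₊), ?_⟩
  intro N hN C hC1 hC2 hap
  have hN0 : N₀ ≤ N := (le_max_left _ _).trans hN
  have hN1 : 1 ≤ N := (le_max_left _ _).trans ((le_max_right _ _).trans hN)
  have hN2 : (1 / τ₀ ^ 2) ^ 2 ≤ (N : ℝ) :=
    (Nat.le_ceil _).trans (by exact_mod_cast (le_max_right _ _).trans ((le_max_right _ _).trans hN))
  have hR : 1 / τ₀ ^ 2 ≤ Real.sqrt N := Real.le_sqrt_of_sq_le hN2
  have hR0 : 0 < Real.sqrt N := lt_of_lt_of_le (by positivity) hR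
  have hRR : Real.sqrt N * Real.sqrt N = N := Real.mul_self_sqrt (Nat.cast_nonneg _)
  have hRτ : 1 ≤ Real.sqrt N * τ₀ ^ 2 := by rwa [div_le_iff₀ (by positivity)] at hR
  have hRτ1 : 1 ≤ Real.sqrt N * τ₀ := by nlinarith
  set D : ℝ := ε₂ * Real.sqrt N / K₀ with hD
  have hD0 : 0 < D := by positivity
  have hKD : 3 * K₀ * Real.sqrt N ≤ K * D := by
    have h1 : 3 * K₀ ^ 2 / ε₂ ≤ K := le_max_right _ _
    calc 3 * K₀ * Real.sqrt N = 3 * K₀ ^ 2 / ε₂ * D := by
          rw [hD]
          field_simp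
      _ ≤ K * D := mul_le_mul_of_nonneg_right h1 hD0.le
  have hspread : Spread C 3 (wf (T3 C)) D K τ₀ := by
    refine spread_of_family (fun e he => T3_card3 he) ?_ ?_
    · rw [card_T3]
      refine le_trans ?_ hap
      calc (C.card : ℝ) * D ≤ (K₀ * Real.sqrt N) * D := mul_le_mul_of_nonneg_right hC2 hD0.le
        _ = ε₂ * (Real.sqrt N * Real.sqrt N) := by
            rw [hD]
            field_simp
        _ = ε₂ * N := by rw [hRR]
    · intro J hJ
      rcases lt_trichotomy J.card 2 with h | h | h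
      · have h1 : J.card = 1 := by
          have := card_pos.2 hJ
          omega
        obtain ⟨v, rfl⟩ := card_eq_one.1 h1
        rw [h1, pow_one]
        refine mul_le_mul_of_nonneg_right ?_ hτ₀0.le
        have h2 : (((T3 C).filter fun e => {v} ⊆ e).card : ℝ) ≤ 3 * C.card := by
          exact_mod_cast T3_deg1 C v
        linarith
      · obtain ⟨x, y, hxy, rfl⟩ := card_eq_two.1 h
        rw [h]
        have h2 : (((T3 C).filter fun e => {x, y} ⊆ e).card : ℝ) ≤ 3 := by
          rcases lt_or_gt_of_ne hxy with h3 | h3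
          · exact_mod_cast T3_deg2 C h3
          · rw [pair_comm]
            exact_mod_cast T3_deg2 C h3
        have h3 : 3 * K₀ * Real.sqrt N * τ₀ ^ 2 ≤ K * D * τ₀ ^ 2 :=
          mul_le_mul_of_nonneg_right hKD (by positivity)
        refine le_trans ?_ h3
        have h4 : 3 * τ₀ ≤ 3 * K₀ * Real.sqrt N * τ₀ ^ 2 := by
          have h5 : 1 ≤ K₀ * (Real.sqrt N * τ₀) := by nlinarith
          calc 3 * τ₀ = 3 * 1 * τ₀ := by ring
            _ ≤ 3 * (K₀ * (Real.sqrt N * τ₀)) * τ₀ := by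
                refine mul_le_mul_of_nonneg_right ?_ hτ₀0.le
                linarith
            _ = _ := by ring
        refine le_trans ?_ h4
        exact mul_le_mul_of_nonneg_right h2 hτ₀0.le
      · rcases Nat.lt_or_ge 3 J.card with h4 | h4
        · have h5 : ((T3 C).filter fun e => J ⊆ e) = ∅ := by
            rw [filter_eq_empty_iff]
            intro e he hJe
            have := card_le_card hJe
            rw [(T3_card3 he).2] at this
            omega
          rw [h5, card_empty, Nat.cast_zero, zero_mul]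
          positivity
        · have h5 : J.card = 3 := by omega
          rw [h5]
          have h6 : ((T3 C).filter fun e => J ⊆ e).card ≤ 1 := by
            rw [card_le_one]
            intro e he f hf
            obtain ⟨he1, he2⟩ := mem_filter.1 he
            obtain ⟨hf1, hf2⟩ := mem_filter.1 hf
            have h7 : J = e := eq_of_subset_of_card_le he2 (by rw [(T3_card3 he1).2, h5])
            have h8 : J = f := eq_of_subset_of_card_le hf2 (by rw [(T3_card3 hf1).2, h5])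
            rw [← h7, ← h8]
          have h6' : (((T3 C).filter fun e => J ⊆ e).card : ℝ) ≤ 1 := by exact_mod_cast h6
          have h3 : 3 * K₀ * Real.sqrt N * τ₀ ^ 3 ≤ K * D * τ₀ ^ 3 :=
            mul_le_mul_of_nonneg_right hKD (by positivity)
          refine le_trans ?_ h3
          have h9 : 1 ≤ 3 * K₀ * (Real.sqrt N * τ₀ ^ 2) := by nlinarith
          calc (((T3 C).filter fun e => J ⊆ e).card : ℝ) * τ₀ ≤ 1 * τ₀ :=
                mul_le_mul_of_nonneg_right h6' hτ₀0.le
            _ ≤ (3 * K₀ * (Real.sqrt N * τ₀ ^ 2)) * τ₀ :=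
                mul_le_mul_of_nonneg_right h9 hτ₀0.le
            _ = _ := by ring
  refine (hN₀ N hN0 C hC1 hC2 _ D hD0 hspread).mono ?_ le_rfl le_rfl
  rintro I ⟨h1, h2⟩
  refine ⟨h1, ind_wf ?_⟩
  intro e he heI
  obtain ⟨x, y, hx, hy, hxy, hz, rfl⟩ := T3_mem he
  have := h2 x (heI (by simp)) (2 * y - x) (heI (by simp)) y (heI (by simp)) y (heI (by simp))
    (by omega)
  omega

end Pool.Agent.helper287_Sidon
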