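import Pool.Agent.helper287_Sidon.SOS
/-!
# Step for sets with many good quadruples (proved by helper573)
-/

set_option autoImplicit false

open Finset Pool.Agent.Y940.CT

namespace Pool.Agent.helper287_Sidon




theorem quad_data {C P Q e : Finset ℕ} (he : e ∈ quad C P Q) :
    ∃ x y z w : ℕ, x < y ∧ y < z ∧ z < w ∧ x + w = y + z ∧ y - x ∉ P ∧ z - x ∉ P ∧ y + z ∉ Q ∧
      e = {x, y, z, w} ∧ x ∈ C ∧ y ∈ C ∧ z ∈ C ∧ w ∈ C := by
  obtain ⟨h1, x, hx, y, hy, z, hz, hxy, hyz, hP1, hP2, hQ, rfl⟩ := mem_filter.1 he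
  have hw : y + z - x ∈ C := by
    apply mem_powerset.1 h1
    simp
  exact ⟨x, y, z, y + z - x, hxy, hyz, by omega, by omega, hP1, hP2, hQ, rfl, hx, hy, hz, hw⟩

theorem quad_sub {C P Q e : Finset ℕ} (he : e ∈ quad C P Q) : e ⊆ C :=
  mem_powerset.1 (mem_filter.1 he).1

theorem card_four {x y z w : ℕ} (h1 : x < y) (h2 : y < z) (h3 : z < w) :
    ({x, y, z, w} : Finset ℕ).card = 4 := by
  rw [card_insert_of_notMem, card_insert_of_notMem, card_insert_of_notMem, card_singleton]
  · simp; omega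
  · simp; omega
  · simp; omega

theorem quad_card {C P Q e : Finset ℕ} (he : e ∈ quad C P Q) : e.card = 4 := by
  obtain ⟨x, y, z, w, h1, h2, h3, -, -, -, -, rfl, -⟩ := quad_data he
  exact card_four h1 h2 h3

theorem sum_four {x y z w : ℕ} (h1 : x < y) (h2 : y < z) (h3 : z < w) :
    ∑ i ∈ ({x, y, z, w} : Finset ℕ), i = x + y + z + w := by
  rw [sum_insert, sum_insert, sum_insert, sum_singleton]
  · ring
  · simp; omega
  · simp; omega
  · simp; omega

theorem quad_opp {C P Q e : Finset ℕ} (he : e ∈ quad C P Q) {m : ℕ} (hm : m ∈ e) :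
    ∃ o ∈ e, o ≠ m ∧ 2 * (m + o) = ∑ i ∈ e, i := by
  obtain ⟨x, y, z, w, h1, h2, h3, h4, -, -, -, rfl, -⟩ := quad_data he
  rw [sum_four h1 h2 h3]
  simp only [mem_insert, mem_singleton] at hm
  rcases hm with rfl | rfl | rfl | rfl
  · exact ⟨w, by simp, by omega, by omega⟩
  · exact ⟨z, by simp, by omega, by omega⟩
  · exact ⟨y, by simp, by omega, by omega⟩
  · exact ⟨x, by simp, by omega, by omega⟩

theorem quad_triple {C P Q J : Finset ℕ} (hJ : J.card = 3) :
    ((quad C P Q).filter fun e => J ⊆ e).card ≤ 3 := by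
  have hsub : (quad C P Q).filter (fun e => J ⊆ e) ⊆
      J.image fun o => insert (∑ i ∈ J, i - 2 * o) J := by
    intro e he
    obtain ⟨he1, he2⟩ := mem_filter.1 he
    have hc := quad_card he1
    have h1 : (e \ J).card = 1 := by
      rw [card_sdiff_of_subset he2, hc, hJ]
    obtain ⟨m, hm⟩ := card_eq_one.1 h1
    have hmem : m ∈ e \ J := by rw [hm]; exact mem_singleton_self m
    obtain ⟨hme, hmJ⟩ := mem_sdiff.1 hmem
    have he3 : e = insert m J := by
      rw [← sdiff_union_of_subset he2, hm]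
      rfl
    obtain ⟨o, ho, hom, hsum⟩ := quad_opp he1 hme
    have hoJ : o ∈ J := by
      rw [he3] at ho
      exact (mem_insert.1 ho).resolve_left hom
    rw [he3, sum_insert hmJ] at hsum
    refine mem_image.2 ⟨o, hoJ, ?_⟩
    have : ∑ i ∈ J, i - 2 * o = m := by omega
    rw [this]
    exact he3.symm
  calc _ ≤ _ := card_le_card hsub
    _ ≤ J.card := card_image_le
    _ = 3 := hJ

theorem quad_pair {N : ℕ} {C : Finset ℕ} (hC : C ⊆ range (N + 1)) {t : ℝ} (ht : 0 < t)
    {p q : ℕ} (hpq : p < q) :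
    ((((quad C (Dm N C t) (Dp N C t)).filter fun e => ({p, q} : Finset ℕ) ⊆ e).card : ℕ) : ℝ) ≤
      2 * t := by
  classical
  set A : Finset (Finset ℕ) := if q - p ∈ Dm N C t then ∅ else
    (C.filter fun x => x + (q - p) ∈ C).image fun s => {p, q, s, s + (q - p)} with hA
  set B : Finset (Finset ℕ) := if p + q ∈ Dp N C t then ∅ else
    (C.filter fun x => x ≤ p + q ∧ p + q - x ∈ C).image fun s => {p, q, s, p + q - s} with hB
  have hsub : (quad C (Dm N C t) (Dp N C t)).filter (fun e => ({p, q} : Finset ℕ) ⊆ e) ⊆ A ∪ B := by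
    intro e he
    obtain ⟨he1, he2⟩ := mem_filter.1 he
    have hpe : p ∈ e := he2 (by simp)
    have hqe : q ∈ e := he2 (by simp)
    obtain ⟨x, y, z, w, h1, h2, h3, h4, h5, h6, h7, rfl, hx, hy, hz, hw⟩ := quad_data he1
    have keyA : ∀ s, q - p ∉ Dm N C t → s ∈ C → s + (q - p) ∈ C →
        ({x, y, z, w} : Finset ℕ) = {p, q, s, s + (q - p)} → ({x, y, z, w} : Finset ℕ) ∈ A ∪ B := by
      intro s g1 g2 g3 g4
      apply mem_union_left
      rw [hA, if_neg g1]
      exact mem_image.2 ⟨s, mem_filter.2 ⟨g2, g3⟩, g4.symm⟩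
    have keyB : ∀ s, p + q ∉ Dp N C t → s ∈ C → s ≤ p + q → p + q - s ∈ C →
        ({x, y, z, w} : Finset ℕ) = {p, q, s, p + q - s} → ({x, y, z, w} : Finset ℕ) ∈ A ∪ B := by
      intro s g1 g2 g3 g4 g5
      apply mem_union_right
      rw [hB, if_neg g1]
      exact mem_image.2 ⟨s, mem_filter.2 ⟨g2, g3, g4⟩, g5.symm⟩
    simp only [mem_insert, mem_singleton] at hpe hqe
    rcases hpe with rfl | rfl | rfl | rfl <;> rcases hqe with rfl | rfl | rfl | rfl <;>
      first
      | (exfalso; omega)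
      | skip
    · -- p = x, q = y
      have e1 : z + (q - p) = w := by omega
      refine keyA z h5 hz (by rw [e1]; exact hw) ?_
      rw [e1]
    · -- p = x, q = z
      have e1 : y + (q - p) = w := by omega
      refine keyA y h6 hy (by rw [e1]; exact hw) ?_
      rw [e1]
      ext i; simp only [mem_insert, mem_singleton]; tauto
    · -- p = x, q = w
      have e1 : p + q - y = z := by omega
      refine keyB y (by rw [h4]; exact h7) hy (by omega) (by rw [e1]; exact hz) ?_
      rw [e1]
      ext i; simp only [mem_insert, mem_singleton]; tauto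
    · -- p = y, q = z
      have e1 : p + q - x = w := by omega
      refine keyB x h7 hx (by omega) (by rw [e1]; exact hw) ?_
      rw [e1]
      ext i; simp only [mem_insert, mem_singleton]; tauto
    · -- p = y, q = w
      have e0 : q - p = z - x := by omega
      have e1 : x + (q - p) = z := by omega
      refine keyA x (by rw [e0]; exact h6) hx (by rw [e1]; exact hz) ?_
      rw [e1]
      ext i; simp only [mem_insert, mem_singleton]; tauto
    · -- p = z, q = w
      have e0 : q - p = y - x := by omega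
      have e1 : x + (q - p) = y := by omega
      refine keyA x (by rw [e0]; exact h5) hx (by rw [e1]; exact hy) ?_
      rw [e1]
      ext i; simp only [mem_insert, mem_singleton]; tauto
  have hne : ((quad C (Dm N C t) (Dp N C t)).filter
      (fun e => ({p, q} : Finset ℕ) ⊆ e)).Nonempty → q ≤ N := by
    rintro ⟨e, he⟩
    obtain ⟨he1, he2⟩ := mem_filter.1 he
    have hqe : q ∈ e := he2 (by simp)
    have := mem_range.1 (hC (quad_sub he1 hqe))
    omega
  rcases Finset.eq_empty_or_nonempty ((quad C (Dm N C t) (Dp N C t)).filter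
      (fun e => ({p, q} : Finset ℕ) ⊆ e)) with hemp | hnon
  · rw [hemp]; simp; exact ht.le
  have hqN := hne hnon
  have hAc : (A.card : ℝ) ≤ t := by
    rw [hA]
    split_ifs with h
    · simp; exact ht.le
    · have h1 : ¬ (t ≤ (rm C (q - p) : ℝ)) := by
        intro h2
        apply h
        exact mem_filter.2 ⟨mem_Icc.2 ⟨by omega, by omega⟩, h2⟩
      have h2 : ((C.filter fun x => x + (q - p) ∈ C).image
          fun s => ({p, q, s, s + (q - p)} : Finset ℕ)).card ≤ rm C (q - p) := card_image_le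
      have h3 : ((((C.filter fun x => x + (q - p) ∈ C).image
          fun s => ({p, q, s, s + (q - p)} : Finset ℕ)).card : ℕ) : ℝ) ≤ rm C (q - p) := by
        exact_mod_cast h2
      linarith
  have hBc : (B.card : ℝ) ≤ t := by
    rw [hB]
    split_ifs with h
    · simp; exact ht.le
    · have h1 : ¬ (t ≤ (rp C (p + q) : ℝ)) := by
        intro h2
        apply h
        exact mem_filter.2 ⟨mem_range.2 (by omega), h2⟩
      have h2 : ((C.filter fun x => x ≤ p + q ∧ p + q - x ∈ C).image
          fun s => ({p, q, s, p + q - s} : Finset ℕ)).card ≤ rp C (p + q) := card_image_le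
      have h3 : ((((C.filter fun x => x ≤ p + q ∧ p + q - x ∈ C).image
          fun s => ({p, q, s, p + q - s} : Finset ℕ)).card : ℕ) : ℝ) ≤ rp C (p + q) := by
        exact_mod_cast h2
      linarith
  have h1 := (card_le_card hsub).trans (card_union_le A B)
  have h2 : ((((quad C (Dm N C t) (Dp N C t)).filter fun e => ({p, q} : Finset ℕ) ⊆ e).card : ℕ) : ℝ)
      ≤ (A.card : ℝ) + B.card := by exact_mod_cast h1
  linarith

theorem sid_ind {C P Q I : Finset ℕ} {H' : Finset (Finset ℕ)} (hH : H' ⊆ quad C P Q)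
    (hI : Sid I) : Ind (fun e => if e ∈ H' then (1 : ℝ) else 0) I := by
  intro e he
  simp only
  rw [if_neg]
  intro h
  obtain ⟨x, y, z, w, h1, h2, h3, h4, -, -, -, rfl, -⟩ := quad_data (hH h)
  have := hI x (he (by simp)) w (he (by simp)) y (he (by simp)) z (he (by simp)) h4
  omega

/-- the degree of an indicator -/
theorem deg_ind {C : Finset ℕ} {H' : Finset (Finset ℕ)} (hH : ∀ e ∈ H', e ⊆ C) (J : Finset ℕ) :
    deg C (fun e => if e ∈ H' then (1 : ℝ) else 0) J = ((H'.filter fun e => J ⊆ e).card : ℝ) := by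
  unfold deg
  have h1 : ∀ e ∈ C.powerset, (if J ⊆ e then (if e ∈ H' then (1 : ℝ) else 0) else 0) =
      if (e ∈ H' ∧ J ⊆ e) then 1 else 0 := by
    intro e _
    by_cases h2 : J ⊆ e <;> by_cases h3 : e ∈ H' <;> simp [h2, h3]
  rw [sum_congr rfl h1, ← sum_filter, sum_const, nsmul_eq_mul, mul_one]
  congr 2
  ext e
  simp only [mem_filter, mem_powerset]
  constructor
  · rintro ⟨-, h⟩; exact h
  · rintro h; exact ⟨hH e h.1, h⟩

/-- the pruning step -/
theorem prune {C : Finset ℕ} {H : Finset (Finset ℕ)} (hsub : ∀ e ∈ H, e ⊆ C)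
    (hcard : ∀ e ∈ H, e.card = 4) {ε ε₂ R : ℝ} (hε : 0 < ε) (hε₂ : 0 < ε₂) (hR : 1 ≤ R)
    (hyp : ∀ B ⊆ C, (B.card : ℝ) ≤ ε * R → ε₂ * R ^ 2 ≤ (H.filter fun e => Disjoint e B).card) :
    ∃ H' ⊆ H, (∀ v, ((H'.filter fun e => v ∈ e).card : ℝ) ≤ (1 + 16 * ε₂ / ε) * R) ∧
      ε₂ / 2 * R ^ 2 ≤ H'.card := by
  classical
  set c : ℝ := 1 + 16 * ε₂ / ε with hc
  have hc1 : 0 < 16 * ε₂ / ε := by positivity
  set G : Finset (Finset (Finset ℕ)) := H.powerset.filter fun H' =>
    ∀ v, ((H'.filter fun e => v ∈ e).card : ℝ) ≤ c * R with hG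
  have hGne : G.Nonempty := by
    refine ⟨∅, mem_filter.2 ⟨empty_mem_powerset _, fun v => ?_⟩⟩
    simp
    positivity
  obtain ⟨H', hH', hmax⟩ := exists_max_image G card hGne
  obtain ⟨hH'1, hH'2⟩ := mem_filter.1 hH'
  rw [mem_powerset] at hH'1
  refine ⟨H', hH'1, hH'2, ?_⟩
  by_contra hlt
  rw [not_le] at hlt
  set B := C.filter fun v => c * R - 1 < ((H'.filter fun e => v ∈ e).card : ℝ) with hB
  -- double counting
  have hdc : ∑ v ∈ C, (H'.filter fun e => v ∈ e).card = 4 * H'.card := by
    have h1 : ∀ v ∈ C, (H'.filter fun e => v ∈ e).card = ∑ e ∈ H', if v ∈ e then 1 else 0 := by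
      intro v _
      rw [card_filter]
    rw [sum_congr rfl h1, sum_comm]
    have h2 : ∀ e ∈ H', ∑ v ∈ C, (if v ∈ e then 1 else 0) = 4 := by
      intro e he
      rw [← card_filter, ← hcard e (hH'1 he)]
      congr 1
      ext v
      simp only [mem_filter]
      exact ⟨fun h => h.2, fun h => ⟨hsub e (hH'1 he) h, h⟩⟩
    rw [sum_congr rfl h2, sum_const, smul_eq_mul, mul_comm]
  have hBle : (B.card : ℝ) * (c * R - 1) ≤ 4 * H'.card := by
    have h1 : (B.card : ℝ) * (c * R - 1) ≤ ∑ v ∈ B, ((H'.filter fun e => v ∈ e).card : ℝ) := by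
      rw [← nsmul_eq_mul, ← sum_const]
      exact sum_le_sum fun v hv => (mem_filter.1 hv).2.le
    have h2 : ∑ v ∈ B, ((H'.filter fun e => v ∈ e).card : ℝ) ≤
        ∑ v ∈ C, ((H'.filter fun e => v ∈ e).card : ℝ) :=
      sum_le_sum_of_subset_of_nonneg (filter_subset _ _) fun _ _ _ => Nat.cast_nonneg _
    have h3 : ∑ v ∈ C, ((H'.filter fun e => v ∈ e).card : ℝ) = 4 * H'.card := by
      exact_mod_cast hdc
    linarith
  have hBsmall : (B.card : ℝ) ≤ ε * R := by
    have h1 : 16 * ε₂ / ε * R ≤ c * R - 1 := by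
      rw [hc]; nlinarith
    have h2 : (B.card : ℝ) * (16 * ε₂ / ε * R) ≤ 4 * (ε₂ / 2 * R ^ 2) := by
      have h3 : (B.card : ℝ) * (16 * ε₂ / ε * R) ≤ (B.card : ℝ) * (c * R - 1) := by
        gcongr
      linarith
    have hR0 : 0 < R := by linarith
    have h4 : (B.card : ℝ) * (16 * ε₂ / ε * R) = (B.card : ℝ) / (ε * R) * (16 * (ε₂ * R ^ 2)) := by
      field_simp
    rw [h4] at h2
    have h5 : 0 < ε₂ * R ^ 2 := by positivity
    have h6 : (B.card : ℝ) / (ε * R) ≤ 1 := by
      by_contra h7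
      rw [not_le] at h7
      nlinarith
    rwa [div_le_one (by positivity)] at h6
  have h1 := hyp B (filter_subset _ _) hBsmall
  have h2 : H.filter (fun e => Disjoint e B) ⊆ H' := by
    intro e he
    obtain ⟨he1, he2⟩ := mem_filter.1 he
    by_contra he3
    have hnew : insert e H' ∈ G := by
      refine mem_filter.2 ⟨?_, fun v => ?_⟩
      · rw [mem_powerset]
        exact insert_subset he1 hH'1
      · by_cases hv : v ∈ e
        · rw [filter_insert, if_pos hv, card_insert_of_notMem
            (fun h => he3 (mem_filter.1 h).1)]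
          have hvB : v ∉ B := fun h => (disjoint_left.1 he2 hv) h
          have hvC : v ∈ C := hsub e he1 hv
          have h3 : ¬ (c * R - 1 < ((H'.filter fun e => v ∈ e).card : ℝ)) := fun h =>
            hvB (mem_filter.2 ⟨hvC, h⟩)
          push_cast
          linarith
        · rw [filter_insert, if_neg hv]
          exact hH'2 v
    have h4 := hmax _ hnew
    rw [card_insert_of_notMem he3] at h4
    omega
  have h3 : ((H.filter fun e => Disjoint e B).card : ℝ) ≤ H'.card := by
    exact_mod_cast card_le_card h2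
  have hR2 : 0 < ε₂ * R ^ 2 := by
    have hR0 : 0 < R := by linarith
    positivity
  linarith


theorem step4 (K₀ ε ε₂ a : ℝ) (hK : 1 ≤ K₀) (hε : 0 < ε) (hε₂ : 0 < ε₂) (ha : 0 < a) :
    ∃ θ : ℝ, 0 < θ ∧ ∃ δ : ℝ, 0 < δ ∧ δ ≤ 1 ∧ ∃ N₀ : ℕ, ∀ N : ℕ, N₀ ≤ N → ∀ C : Finset ℕ,
      C ⊆ range (N + 1) → Real.sqrt N / 10 ≤ C.card → (C.card : ℝ) ≤ K₀ * Real.sqrt N →
      (∀ B ⊆ C, (B.card : ℝ) ≤ ε * Real.sqrt N →
        ε₂ * N ≤ ((quad C (Dm N C (θ * Real.sqrt N)) (Dp N C (θ * Real.sqrt N))).filter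
          fun e => Disjoint e B).card) →
      Cov (fun I => I ⊆ C ∧ Sid I) C (Real.exp (a * δ * Real.sqrt N)) ((1 - δ) * C.card) := by
  classical
  set c : ℝ := 1 + 16 * ε₂ / ε with hc
  have hc1 : 0 < 16 * ε₂ / ε := by positivity
  have hc0 : 0 < c := by rw [hc]; linarith
  obtain ⟨δ, hδ0, hδ1, τ₀, hτ0, hτ1, hstep⟩ := step_of_spread 4 (by norm_num)
    (max 1 (2 * c * K₀ / ε₂)) K₀ a (le_max_left _ _) hK ha
  obtain ⟨N₁, hN₁⟩ := hstep τ₀ hτ0 le_rfl
  refine ⟨c * τ₀ / 4, by positivity, δ, hδ0, hδ1,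
    max N₁ (⌈(1 + 3 / (c * τ₀ ^ 2) + 1 / (c * τ₀ ^ 3)) ^ 2⌉₊), ?_⟩
  intro N hN C hC hC1 hC2 hyp
  set R := Real.sqrt N with hR
  set M : ℝ := 1 + 3 / (c * τ₀ ^ 2) + 1 / (c * τ₀ ^ 3) with hM
  have hM1 : 0 < 3 / (c * τ₀ ^ 2) := by positivity
  have hM2 : 0 < 1 / (c * τ₀ ^ 3) := by positivity
  have hMN : M ^ 2 ≤ N := by
    have h1 := (Nat.le_ceil (M ^ 2)).trans (by exact_mod_cast (le_max_right _ _).trans hN :
      ((⌈M ^ 2⌉₊ : ℕ) : ℝ) ≤ N)
    exact h1
  have hMR : M ≤ R := by
    rw [hR]
    exact Real.le_sqrt_of_sq_le hMN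
  have hR1 : 1 ≤ R := by linarith
  have hR0 : 0 < R := by linarith
  have hRN : R ^ 2 = N := Real.sq_sqrt (Nat.cast_nonneg N)
  set t : ℝ := c * τ₀ / 4 * R with ht
  have ht0 : 0 < t := by positivity
  obtain ⟨H', hH', hdeg, htot⟩ := prune (C := C) (H := quad C (Dm N C t) (Dp N C t))
    (fun e he => quad_sub he) (fun e he => quad_card he) hε hε₂ hR1
    (by intro B hB hB2; rw [hRN]; exact hyp B hB hB2)
  have hsubC : ∀ e ∈ H', e ⊆ C := fun e he => quad_sub (hH' he)
  have hKD : c * R ≤ max 1 (2 * c * K₀ / ε₂) * (ε₂ * R / (2 * K₀)) := by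
    have hK0 : 0 < K₀ := by linarith
    calc c * R = (2 * c * K₀ / ε₂) * (ε₂ * R / (2 * K₀)) := by field_simp
      _ ≤ _ := by
        gcongr
        exact le_max_right _ _
  have hcov := hN₁ N ((le_max_left _ _).trans hN) C hC1 hC2
    (fun e => if e ∈ H' then (1 : ℝ) else 0) (ε₂ * R / (2 * K₀)) (by positivity)
    { nonneg := fun e => by positivity
      supp := by
        intro e he
        have he' : e ∈ H' := by
          by_contra h
          exact he (if_neg h)
        exact ⟨hsubC e he', quad_card (hH' he')⟩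
      total := by
        have h1 : ∑ e ∈ C.powerset, (if e ∈ H' then (1 : ℝ) else 0) = H'.card := by
          have := deg_ind hsubC ∅
          unfold deg at this
          simpa using this
        rw [h1]
        refine le_trans ?_ htot
        have hK0 : 0 < K₀ := by linarith
        calc (C.card : ℝ) * (ε₂ * R / (2 * K₀)) ≤ (K₀ * R) * (ε₂ * R / (2 * K₀)) := by gcongr
          _ = ε₂ / 2 * R ^ 2 := by field_simp
      codeg := by
        intro J hJ
        rw [deg_ind hsubC]
        have hJ1 : 1 ≤ J.card := card_pos.2 hJ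
        have hmain : ∀ (d : ℝ) (j : ℕ), J.card = j → ((H'.filter fun e => J ⊆ e).card : ℝ) ≤ d →
            d * τ₀ ≤ c * R * τ₀ ^ j → ((H'.filter fun e => J ⊆ e).card : ℝ) * τ₀ ≤
              max 1 (2 * c * K₀ / ε₂) * (ε₂ * R / (2 * K₀)) * τ₀ ^ J.card := by
          intro d j hj h1 h2
          rw [hj]
          calc ((H'.filter fun e => J ⊆ e).card : ℝ) * τ₀ ≤ d * τ₀ := by gcongr
            _ ≤ c * R * τ₀ ^ j := h2
            _ ≤ _ := by gcongr
        have hmono : (H'.filter fun e => J ⊆ e).card ≤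
            ((quad C (Dm N C t) (Dp N C t)).filter fun e => J ⊆ e).card :=
          card_le_card (filter_subset_filter _ hH')
        rcases Nat.lt_or_ge J.card 2 with h2 | h2
        · have hJ' : J.card = 1 := by omega
          obtain ⟨v, hv⟩ := card_eq_one.1 hJ'
          refine hmain (c * R) 1 hJ' ?_ (by rw [pow_one])
          have := hdeg v
          rw [hv]
          simpa [singleton_subset_iff] using this
        rcases Nat.lt_or_ge J.card 3 with h3 | h3
        · have hJ' : J.card = 2 := by omega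
          obtain ⟨p, q, hpq, hJe⟩ := card_eq_two.1 hJ'
          have hb : ((H'.filter fun e => J ⊆ e).card : ℝ) ≤ 2 * t := by
            have hm : ((H'.filter fun e => J ⊆ e).card : ℝ) ≤
              (((quad C (Dm N C t) (Dp N C t)).filter fun e => J ⊆ e).card : ℝ) := by
              exact_mod_cast hmono
            refine hm.trans ?_
            rcases lt_or_gt_of_ne hpq with h | h
            · rw [hJe]; exact quad_pair hC ht0 h
            · rw [hJe, pair_comm]; exact quad_pair hC ht0 h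
          refine hmain (2 * t) 2 hJ' hb ?_
          rw [ht]
          have : 0 < c * R * τ₀ ^ 2 := by positivity
          nlinarith
        rcases Nat.lt_or_ge J.card 4 with h4 | h4
        · have hJ' : J.card = 3 := by omega
          have hb : ((H'.filter fun e => J ⊆ e).card : ℝ) ≤ 3 := by
            exact_mod_cast hmono.trans (quad_triple hJ')
          refine hmain 3 3 hJ' hb ?_
          have h5 : 3 / (c * τ₀ ^ 2) ≤ R := by linarith
          rw [div_le_iff₀ (by positivity)] at h5
          calc 3 * τ₀ ≤ R * (c * τ₀ ^ 2) * τ₀ := by gcongr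
            _ = c * R * τ₀ ^ 3 := by ring
        rcases Nat.lt_or_ge J.card 5 with h5 | h5
        · have hJ' : J.card = 4 := by omega
          have hb : ((H'.filter fun e => J ⊆ e).card : ℝ) ≤ 1 := by
            have : (H'.filter fun e => J ⊆ e) ⊆ {J} := by
              intro e he
              obtain ⟨he1, he2⟩ := mem_filter.1 he
              have := eq_of_subset_of_card_le he2 (by rw [quad_card (hH' he1), hJ'])
              exact mem_singleton.2 this.symm
            exact_mod_cast card_le_card this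
          refine hmain 1 4 hJ' hb ?_
          have h6 : 1 / (c * τ₀ ^ 3) ≤ R := by linarith
          rw [div_le_iff₀ (by positivity)] at h6
          calc 1 * τ₀ ≤ R * (c * τ₀ ^ 3) * τ₀ := by gcongr
            _ = c * R * τ₀ ^ 4 := by ring
        · have hb : (H'.filter fun e => J ⊆ e) = ∅ := by
            rw [filter_eq_empty_iff]
            intro e he h
            have := card_le_card h
            rw [quad_card (hH' he)] at this
            omega
          rw [hb]
          simp
          positivity }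
  refine hcov.mono ?_ le_rfl le_rfl
  rintro I ⟨hI1, hI2⟩
  exact ⟨hI1, sid_ind hH' hI2⟩

end Pool.Agent.helper287_Sidon
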