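import Pool.Agent.helper287_Sidon.IterCore
import Pool.Agent.helper287_Sidon.Step2
import Pool.Agent.helper287_Sidon.Step3
import Pool.Agent.helper287_Sidon.Step4
/-!
# Iteration
-/

set_option autoImplicit false

open Finset Pool.Agent.Y940.CT

namespace Pool.Agent.helper287_Sidon

theorem iterate (K₀ ε ε₂ : ℝ) (hK : 1 ≤ K₀) (hε : 0 < ε) (hε₂ : 0 < ε₂) :
    ∃ M N₀ : ℕ, ∀ N : ℕ, N₀ ≤ N → ∀ C : Finset ℕ, C ⊆ range (N + 1) →
      (C.card : ℝ) ≤ K₀ * Real.sqrt N →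
      ∃ 𝒞 : Finset (Finset ℕ), (𝒞.card : ℝ) ≤ Real.exp (ε * Real.sqrt N) ∧
        (∀ E ∈ 𝒞, E ⊆ C ∧ Final N K₀ ε ε₂ M E) ∧ ∀ I, I ⊆ C → Sid I → ∃ E ∈ 𝒞, I ⊆ E := by
  have hlog : 0 ≤ Real.log (10 * K₀) := Real.log_nonneg (by linarith)
  set a : ℝ := ε / (1 + Real.log (10 * K₀)) with ha
  have ha0 : 0 < a := by positivity
  obtain ⟨δ₃, hδ₃0, hδ₃1, N₃, h3⟩ := step3 K₀ ε₂ a hK hε₂ ha0
  obtain ⟨θ, hθ, δ₄, hδ₄0, hδ₄1, N₄, h4⟩ := step4 K₀ ε ε₂ a hK hε hε₂ ha0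
  obtain ⟨δ₂, hδ₂0, hδ₂1, M, N₂, h2⟩ := step2 K₀ θ a hK hθ ha0
  refine ⟨M, max (max N₂ N₃) (max N₄ 1), ?_⟩
  intro N hN C hC hCK
  have hN2 : N₂ ≤ N := (le_max_left _ _).trans ((le_max_left _ _).trans hN)
  have hN3 : N₃ ≤ N := (le_max_right _ _).trans ((le_max_left _ _).trans hN)
  have hN4 : N₄ ≤ N := (le_max_left _ _).trans ((le_max_right _ _).trans hN)
  have hN1 : 1 ≤ N := (le_max_right _ _).trans ((le_max_right _ _).trans hN)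
  have hR : 0 < Real.sqrt N := Real.sqrt_pos.2 (by exact_mod_cast hN1)
  have hstep : ∀ C : Finset ℕ, C ⊆ range (N + 1) → Real.sqrt N / 10 < C.card →
      (C.card : ℝ) ≤ K₀ * Real.sqrt N → Final N K₀ ε ε₂ M C ∨ ∃ δ : ℝ, 0 < δ ∧ δ ≤ 1 ∧
        Cov (fun I => I ⊆ C ∧ Sid I) C (Real.exp (a * δ * Real.sqrt N)) ((1 - δ) * C.card) := by
    intro C hCX hC1 hC2
    by_cases c3 : ε₂ * N ≤ (ap3 C).card
    · exact Or.inr ⟨δ₃, hδ₃0, hδ₃1, h3 N hN3 C hC1.le hC2 c3⟩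
    by_cases c2 : M ≤ (Dm N C (θ * Real.sqrt N)).card ∨ M ≤ (Dp N C (θ * Real.sqrt N)).card
    · exact Or.inr ⟨δ₂, hδ₂0, hδ₂1, h2 N hN2 C hC1.le hC2 c2⟩
    by_cases c4 : ∀ B ⊆ C, (B.card : ℝ) ≤ ε * Real.sqrt N →
        ε₂ * N ≤ ((quad C (Dm N C (θ * Real.sqrt N)) (Dp N C (θ * Real.sqrt N))).filter
          fun e => Disjoint e B).card
    · exact Or.inr ⟨δ₄, hδ₄0, hδ₄1, h4 N hN4 C hCX hC1.le hC2 c4⟩
    · left
      right
      push Not at c2 c3 c4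
      obtain ⟨B, hB1, hB2, hB3⟩ := c4
      exact ⟨hC2, c3.le, _, _, B, c2.1.le, c2.2.le, hB1, hB2, hB3.le⟩
  obtain ⟨𝒞, h5, h6, h7⟩ := iter_core (K₀ := K₀) hR ha0 (range (N + 1)) (Final N K₀ ε ε₂ M)
    (fun C _ hC => Or.inl hC) hstep C.card C rfl hC hCK
  refine ⟨𝒞, h5.trans (Real.exp_le_exp.2 ?_), h6, h7⟩
  split_ifs with hs
  · positivity
  · push Not at hs
    have hm0 : (0 : ℝ) < C.card := lt_trans (by positivity) hs
    have h8 : Real.log (10 * C.card / Real.sqrt N) ≤ Real.log (10 * K₀) := by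
      refine Real.log_le_log (by positivity) ?_
      rw [div_le_iff₀ hR]
      linarith
    have h9 : a * Real.sqrt N * (1 + Real.log (10 * C.card / Real.sqrt N)) ≤
        a * Real.sqrt N * (1 + Real.log (10 * K₀)) :=
      mul_le_mul_of_nonneg_left (by linarith) (by positivity)
    refine h9.trans (le_of_eq ?_)
    rw [ha]
    field_simp

end Pool.Agent.helper287_Sidon
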