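import Mathlib
/-!
# Random subsets
-/

set_option autoImplicit false

open Finset

namespace Pool.Agent.helper287_Sidon

/-- the weight of `A` in `X` -/
noncomputable def mu (X A : Finset ℕ) : ℝ := (3 / 4 : ℝ) ^ A.card * (1 / 4 : ℝ) ^ (X.card - A.card)

theorem mu_nonneg (X A : Finset ℕ) : 0 ≤ mu X A := by
  unfold mu
  positivity

theorem sum_mu_exp (X D : Finset ℕ) (hD : D ⊆ X) (s : ℝ) :
    ∑ A ∈ X.powerset, mu X A * Real.exp (s * (A ∩ D).card) =
      (1 / 4 + 3 / 4 * Real.exp s) ^ D.card := by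
  classical
  have h1 : ∏ x ∈ X, ((if x ∈ D then 3 / 4 * Real.exp s else 3 / 4) + (1 / 4 : ℝ)) =
      (1 / 4 + 3 / 4 * Real.exp s) ^ D.card := by
    rw [← prod_sdiff hD]
    have h2 : ∏ x ∈ X \ D, ((if x ∈ D then 3 / 4 * Real.exp s else 3 / 4) + (1 / 4 : ℝ)) = 1 := by
      refine prod_eq_one fun x hx => ?_
      rw [if_neg (mem_sdiff.1 hx).2]
      norm_num
    have h3 : ∏ x ∈ D, ((if x ∈ D then 3 / 4 * Real.exp s else 3 / 4) + (1 / 4 : ℝ)) =
        ∏ _x ∈ D, (1 / 4 + 3 / 4 * Real.exp s) := by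
      refine prod_congr rfl fun x hx => ?_
      rw [if_pos hx]
      ring
    rw [h2, h3, prod_const, one_mul]
  rw [← h1, prod_add]
  refine sum_congr rfl fun A hA => ?_
  have hAX := mem_powerset.1 hA
  have h4 : ∏ x ∈ A, (if x ∈ D then 3 / 4 * Real.exp s else (3 / 4 : ℝ)) =
      (3 / 4 : ℝ) ^ A.card * Real.exp (s * (A ∩ D).card) := by
    have h5 : ∀ x ∈ A, (if x ∈ D then 3 / 4 * Real.exp s else (3 / 4 : ℝ)) =
        3 / 4 * (if x ∈ D then Real.exp s else 1) := by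
      intro x _
      split_ifs <;> ring
    rw [prod_congr rfl h5, prod_mul_distrib, prod_const, prod_ite, prod_const, prod_const_one,
      mul_one, filter_mem_eq_inter, mul_comm s, Real.exp_nat_mul]
  rw [h4, prod_const, card_sdiff_of_subset hAX]
  unfold mu
  ring

theorem exp_bound {s : ℝ} (hs : |s| ≤ 1) : 1 / 4 + 3 / 4 * Real.exp s ≤ Real.exp (3 / 4 * s + s ^ 2) := by
  have h1 : Real.exp s ≤ 1 + s + s ^ 2 := by
    have := Real.abs_exp_sub_one_sub_id_le hs
    have := abs_le.1 this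
    linarith
  have h2 := Real.add_one_le_exp (3 / 4 * s + s ^ 2)
  nlinarith [sq_nonneg s]

theorem sum_mu_exp_le (X D : Finset ℕ) (hD : D ⊆ X) {s : ℝ} (hs : |s| ≤ 1) :
    ∑ A ∈ X.powerset, mu X A * Real.exp (s * (A ∩ D).card) ≤
      Real.exp ((3 / 4 * s + s ^ 2) * D.card) := by
  rw [sum_mu_exp X D hD s, mul_comm _ (D.card : ℝ), Real.exp_nat_mul]
  exact pow_le_pow_left₀ (by positivity) (exp_bound hs) _

open Classical in
theorem markov (X D : Finset ℕ) (hD : D ⊆ X) {s b : ℝ} (hs : |s| ≤ 1) (E : Finset ℕ → Prop)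
    (hE : ∀ A, A ⊆ X → E A → b ≤ s * (A ∩ D).card - 3 / 4 * s * D.card) :
    ∑ A ∈ X.powerset.filter E, mu X A ≤ Real.exp (s ^ 2 * D.card - b) := by
  have h1 : ∑ A ∈ X.powerset.filter E, mu X A ≤
      ∑ A ∈ X.powerset, mu X A * Real.exp (s * (A ∩ D).card - 3 / 4 * s * D.card - b) := by
    refine (sum_le_sum (g := fun A => mu X A * Real.exp (s * (A ∩ D).card - 3 / 4 * s * D.card - b))
      fun A hA => ?_).trans (sum_le_sum_of_subset_of_nonneg (filter_subset _ _) fun A _ _ => ?_)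
    · obtain ⟨h1, h2⟩ := mem_filter.1 hA
      have h3 := hE A (mem_powerset.1 h1) h2
      have h4 : 1 ≤ Real.exp (s * (A ∩ D).card - 3 / 4 * s * D.card - b) :=
        Real.one_le_exp (by linarith)
      have h5 := mu_nonneg X A
      nlinarith
    · have := mu_nonneg X A
      positivity
  have h2 : ∑ A ∈ X.powerset, mu X A * Real.exp (s * (A ∩ D).card - 3 / 4 * s * D.card - b) =
      (∑ A ∈ X.powerset, mu X A * Real.exp (s * (A ∩ D).card)) *
        Real.exp (- (3 / 4 * s * D.card) - b) := by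
    rw [sum_mul]
    refine sum_congr rfl fun A _ => ?_
    rw [mul_assoc (mu X A), ← Real.exp_add]
    congr 2
    ring
  rw [h2] at h1
  refine h1.trans ((mul_le_mul_of_nonneg_right (sum_mu_exp_le X D hD hs) (Real.exp_pos _).le).trans
    (le_of_eq ?_))
  rw [← Real.exp_add]
  congr 1
  ring

theorem sum_mu (X : Finset ℕ) : ∑ A ∈ X.powerset, mu X A = 1 := by
  have := sum_mu_exp X ∅ (empty_subset _) 0
  simpa using this

open Classical in
theorem sum_biUnion_le_of_nonneg (X : Finset ℕ) (𝒟 : Finset (Finset ℕ))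
    (ED : Finset ℕ → Finset ℕ → Prop) :
    ∑ A ∈ 𝒟.biUnion (fun D => X.powerset.filter (ED D)), mu X A ≤
      ∑ D ∈ 𝒟, ∑ A ∈ X.powerset.filter (ED D), mu X A := by
  induction 𝒟 using Finset.induction_on with
  | empty => simp
  | insert D 𝒟 hD ih =>
    rw [biUnion_insert, sum_insert hD]
    have h1 : ∑ A ∈ X.powerset.filter (ED D) ∪ 𝒟.biUnion (fun D => X.powerset.filter (ED D)),
        mu X A ≤ ∑ A ∈ X.powerset.filter (ED D), mu X A +
          ∑ A ∈ 𝒟.biUnion (fun D => X.powerset.filter (ED D)), mu X A := by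
      rw [← sum_union_inter]
      have : 0 ≤ ∑ A ∈ X.powerset.filter (ED D) ∩ 𝒟.biUnion (fun D => X.powerset.filter (ED D)),
        mu X A := sum_nonneg fun A _ => mu_nonneg X A
      linarith
    linarith

/-- Random sets. -/
theorem random_set (lam : ℝ) (h : 0 < lam) : ∃ c : ℝ, 0 < c ∧ ∃ N₀ : ℕ, ∀ N : ℕ, N₀ ≤ N →
    ∀ 𝒟 : Finset (Finset ℕ), (𝒟.card : ℝ) ≤ Real.exp (c * Real.sqrt N) →
      (∀ D ∈ 𝒟, D ⊆ range (N + 1) ∧ (D.card : ℝ) ≤ 2 * Real.sqrt N) →
      ∃ A ⊆ range (N + 1), (3 / 4 - lam) * N ≤ A.card ∧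
        ∀ D ∈ 𝒟, ((A ∩ D).card : ℝ) ≤ 3 / 4 * D.card + lam * Real.sqrt N := by
  classical
  set l : ℝ := min lam 1 with hl
  have hl0 : 0 < l := lt_min h one_pos
  have hl1 : l ≤ 1 := min_le_right _ _
  have hll : l ≤ lam := min_le_left _ _
  -- `c = l²/16`
  refine ⟨l ^ 2 / 16, by positivity, ?_⟩
  -- large `N`
  have ht : Filter.Tendsto (fun N : ℕ => l ^ 2 / 16 * Real.sqrt N) Filter.atTop Filter.atTop :=
    (Real.tendsto_sqrt_atTop.comp tendsto_natCast_atTop_atTop).const_mul_atTop (by positivity)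
  obtain ⟨N₁, hN₁⟩ := Filter.eventually_atTop.1 (ht.eventually (Filter.eventually_gt_atTop 1))
  refine ⟨max N₁ 1, fun N hN 𝒟 h𝒟 hD => ?_⟩
  have hbig := hN₁ N ((le_max_left _ _).trans hN)
  have hN1 : (1 : ℝ) ≤ N := by exact_mod_cast (le_max_right _ _).trans hN
  have hR1 : 1 ≤ Real.sqrt N := Real.one_le_sqrt.2 hN1
  have hRR : Real.sqrt N * Real.sqrt N = N := Real.mul_self_sqrt (by linarith)
  set X := range (N + 1) with hX
  have hXc : (X.card : ℝ) = N + 1 := by
    rw [hX, card_range]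
    push_cast
    ring
  by_contra hcon
  push Not at hcon
  -- the bad events
  set E0 : Finset ℕ → Prop := fun A => (A.card : ℝ) < (3 / 4 - lam) * N with hE0
  set ED : Finset ℕ → Finset ℕ → Prop := fun D A =>
    3 / 4 * (D.card : ℝ) + lam * Real.sqrt N < ((A ∩ D).card : ℝ) with hED
  have hcover : X.powerset ⊆ X.powerset.filter E0 ∪ 𝒟.biUnion fun D => X.powerset.filter (ED D) := by
    intro A hA
    by_cases h0 : E0 A
    · exact mem_union_left _ (mem_filter.2 ⟨hA, h0⟩)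
    · have h1 : (3 / 4 - lam) * N ≤ (A.card : ℝ) := not_lt.1 h0
      obtain ⟨D, hD1, hD2⟩ := hcon A (mem_powerset.1 hA) h1
      exact mem_union_right _ (mem_biUnion.2 ⟨D, hD1, mem_filter.2 ⟨hA, hD2⟩⟩)
  have hb0 : ∑ A ∈ X.powerset.filter E0, mu X A ≤ Real.exp (-(l ^ 2 / 16 * Real.sqrt N)) := by
    refine (markov X X (Subset.refl _) (s := -(l / 4)) (b := l ^ 2 / 4 * N) ?_ E0 ?_).trans ?_
    · rw [abs_neg, abs_of_pos (by positivity)]
      linarith
    · intro A hA hE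
      rw [inter_eq_left.2 hA, hXc]
      have h1 : (A.card : ℝ) ≤ (3 / 4 - l) * N := by
        have h2 : (A.card : ℝ) < (3 / 4 - lam) * N := hE
        nlinarith
      nlinarith
    · refine Real.exp_le_exp.2 ?_
      rw [hXc]
      nlinarith
  have hbD : ∀ D ∈ 𝒟, ∑ A ∈ X.powerset.filter (ED D), mu X A ≤
      Real.exp (-(l ^ 2 / 8 * Real.sqrt N)) := by
    intro D hDm
    obtain ⟨hDX, hDc⟩ := hD D hDm
    refine (markov X D hDX (s := l / 4) (b := l ^ 2 / 4 * Real.sqrt N) ?_ (ED D) ?_).trans ?_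
    · rw [abs_of_pos (by positivity)]
      linarith
    · intro A _ hE
      have h2 : 3 / 4 * (D.card : ℝ) + lam * Real.sqrt N < ((A ∩ D).card : ℝ) := hE
      have h3 : l * Real.sqrt N ≤ lam * Real.sqrt N := mul_le_mul_of_nonneg_right hll (by linarith)
      nlinarith
    · refine Real.exp_le_exp.2 ?_
      nlinarith [mul_pos hl0 hl0]
  have hsum : (1 : ℝ) ≤ Real.exp (-(l ^ 2 / 16 * Real.sqrt N)) +
      𝒟.card * Real.exp (-(l ^ 2 / 8 * Real.sqrt N)) := by
    rw [← sum_mu X]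
    refine (sum_le_sum_of_subset_of_nonneg hcover fun A _ _ => mu_nonneg X A).trans ?_
    have h1 : ∑ A ∈ X.powerset.filter E0 ∪ 𝒟.biUnion (fun D => X.powerset.filter (ED D)), mu X A ≤
        ∑ A ∈ X.powerset.filter E0, mu X A +
          ∑ A ∈ 𝒟.biUnion (fun D => X.powerset.filter (ED D)), mu X A := by
      rw [← sum_union_inter]
      have : 0 ≤ ∑ A ∈ X.powerset.filter E0 ∩ 𝒟.biUnion (fun D => X.powerset.filter (ED D)),
        mu X A := sum_nonneg fun A _ => mu_nonneg X A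
      linarith
    have h2 : ∑ A ∈ 𝒟.biUnion (fun D => X.powerset.filter (ED D)), mu X A ≤
        ∑ D ∈ 𝒟, ∑ A ∈ X.powerset.filter (ED D), mu X A :=
      sum_biUnion_le_of_nonneg X 𝒟 ED
    have h3 : ∑ D ∈ 𝒟, ∑ A ∈ X.powerset.filter (ED D), mu X A ≤
        𝒟.card * Real.exp (-(l ^ 2 / 8 * Real.sqrt N)) := by
      rw [← nsmul_eq_mul, ← sum_const]
      exact sum_le_sum hbD
    linarith
  have h4 : (𝒟.card : ℝ) * Real.exp (-(l ^ 2 / 8 * Real.sqrt N)) ≤
      Real.exp (-(l ^ 2 / 16 * Real.sqrt N)) := by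
    refine (mul_le_mul_of_nonneg_right h𝒟 (Real.exp_pos _).le).trans (le_of_eq ?_)
    rw [← Real.exp_add]
    congr 1
    ring
  have h5 : Real.exp (-(l ^ 2 / 16 * Real.sqrt N)) < 1 / 2 := by
    have h6 : Real.exp (-(l ^ 2 / 16 * Real.sqrt N)) < Real.exp (-1) :=
      Real.exp_lt_exp.2 (by linarith)
    have h7 : Real.exp (-1) < 1 / 2 := by
      rw [Real.exp_neg, one_div]
      have h8 : (2 : ℝ) < Real.exp 1 := lt_trans (by norm_num) Real.exp_one_gt_d9
      exact inv_strictAnti₀ (by norm_num) h8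
    linarith
  linarith

end Pool.Agent.helper287_Sidon
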