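import Pool.Agent.helper287_Sidon.Defs
/-!
# Stage 1: from `range (N + 1)` to sets of size `K₀ √N`, cheaply
-/

set_option autoImplicit false

open Finset Pool.Agent.Y940.CT

namespace Pool.Agent.helper287_Sidon

theorem small_term (B ε : ℝ) (hB : 0 < B) (hε : 0 < ε) : ∃ N₀ : ℕ, ∀ N : ℕ, N₀ ≤ N →
    B * ((8 * (2 : ℕ) * (2 * (N : ℝ) + 1)) ^ (((2 : ℕ) - 1 : ℝ) / (2 * (2 : ℕ) - 1)) *
      ((N : ℝ) + 1) ^ (1 / (4 * ((2 : ℕ) : ℝ)))) ≤ ε * Real.sqrt N := by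
  have h1 : Filter.Tendsto (fun N : ℕ => (N : ℝ) ^ (-(1 / 24 : ℝ))) Filter.atTop (nhds 0) :=
    (tendsto_rpow_neg_atTop (by norm_num)).comp tendsto_natCast_atTop_atTop
  have h2 : 0 < ε / (B * 96) := by positivity
  obtain ⟨N₁, hN₁⟩ := Filter.eventually_atTop.1 (h1.eventually (gt_mem_nhds h2))
  refine ⟨max N₁ 1, fun N hN => ?_⟩
  have hN1 : 1 ≤ N := (le_max_right _ _).trans hN
  have hN1' : (1 : ℝ) ≤ N := by exact_mod_cast hN1
  have hN0 : (0 : ℝ) < N := by linarith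
  have h3 := hN₁ N ((le_max_left _ _).trans hN)
  rw [lt_div_iff₀ (by positivity)] at h3
  have e1 : (((2 : ℕ) - 1 : ℝ) / (2 * (2 : ℕ) - 1)) = 1 / 3 := by norm_num
  have e2 : (1 / (4 * ((2 : ℕ) : ℝ))) = 1 / 8 := by norm_num
  rw [e1, e2]
  have h4 : (8 * ((2 : ℕ) : ℝ) * (2 * (N : ℝ) + 1)) ^ (1 / 3 : ℝ) ≤ 48 * (N : ℝ) ^ (1 / 3 : ℝ) := by
    calc (8 * ((2 : ℕ) : ℝ) * (2 * (N : ℝ) + 1)) ^ (1 / 3 : ℝ) ≤ (48 * (N : ℝ)) ^ (1 / 3 : ℝ) := by
          refine Real.rpow_le_rpow (by positivity) ?_ (by norm_num)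
          push_cast
          linarith
      _ = 48 ^ (1 / 3 : ℝ) * (N : ℝ) ^ (1 / 3 : ℝ) := Real.mul_rpow (by norm_num) hN0.le
      _ ≤ 48 * (N : ℝ) ^ (1 / 3 : ℝ) := by
          refine mul_le_mul_of_nonneg_right ?_ (by positivity)
          calc (48 : ℝ) ^ (1 / 3 : ℝ) ≤ 48 ^ (1 : ℝ) :=
                Real.rpow_le_rpow_of_exponent_le (by norm_num) (by norm_num)
            _ = 48 := Real.rpow_one _
  have h5 : ((N : ℝ) + 1) ^ (1 / 8 : ℝ) ≤ 2 * (N : ℝ) ^ (1 / 8 : ℝ) := by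
    calc ((N : ℝ) + 1) ^ (1 / 8 : ℝ) ≤ (2 * (N : ℝ)) ^ (1 / 8 : ℝ) := by
          refine Real.rpow_le_rpow (by positivity) ?_ (by norm_num)
          linarith
      _ = 2 ^ (1 / 8 : ℝ) * (N : ℝ) ^ (1 / 8 : ℝ) := Real.mul_rpow (by norm_num) hN0.le
      _ ≤ 2 * (N : ℝ) ^ (1 / 8 : ℝ) := by
          refine mul_le_mul_of_nonneg_right ?_ (by positivity)
          calc (2 : ℝ) ^ (1 / 8 : ℝ) ≤ 2 ^ (1 : ℝ) :=
                Real.rpow_le_rpow_of_exponent_le (by norm_num) (by norm_num)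
            _ = 2 := Real.rpow_one _
  have h6 : (N : ℝ) ^ (1 / 3 : ℝ) * (N : ℝ) ^ (1 / 8 : ℝ) =
      (N : ℝ) ^ (-(1 / 24 : ℝ)) * Real.sqrt N := by
    rw [Real.sqrt_eq_rpow, ← Real.rpow_add hN0, ← Real.rpow_add hN0]
    norm_num
  calc B * ((8 * ((2 : ℕ) : ℝ) * (2 * (N : ℝ) + 1)) ^ (1 / 3 : ℝ) * ((N : ℝ) + 1) ^ (1 / 8 : ℝ))
      ≤ B * ((48 * (N : ℝ) ^ (1 / 3 : ℝ)) * (2 * (N : ℝ) ^ (1 / 8 : ℝ))) := by
        refine mul_le_mul_of_nonneg_left ?_ hB.le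
        exact mul_le_mul h4 h5 (by positivity) (by positivity)
    _ = (N : ℝ) ^ (-(1 / 24 : ℝ)) * (B * 96) * Real.sqrt N := by
        rw [show B * ((48 * (N : ℝ) ^ (1 / 3 : ℝ)) * (2 * (N : ℝ) ^ (1 / 8 : ℝ))) =
          B * 96 * ((N : ℝ) ^ (1 / 3 : ℝ) * (N : ℝ) ^ (1 / 8 : ℝ)) by ring, h6]
        ring
    _ ≤ ε * Real.sqrt N := mul_le_mul_of_nonneg_right h3.le (Real.sqrt_nonneg _)

theorem stage1 (ε : ℝ) (hε : 0 < ε) : ∃ K₀ : ℝ, 1 ≤ K₀ ∧ ∃ N₀ : ℕ, ∀ N : ℕ, N₀ ≤ N →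
    Cov (fun I => I ⊆ range (N + 1) ∧ Free 2 I) (range (N + 1)) (Real.exp (ε * Real.sqrt N))
      (K₀ * Real.sqrt N) := by
  classical
  obtain ⟨δ, hδ0, hδ1, τ₀, hτ₀0, hτ₀4, c, hc, hstep⟩ := one_step 2 (by norm_num)
  set ζ : ℝ := 1 / (4 * ((2 : ℕ) : ℝ)) with hζ
  have hζ0 : 0 < ζ := by positivity
  set β : ℝ := (((2 : ℕ) : ℝ) - 1) / (2 * ((2 : ℕ) : ℝ) - 1) with hβ
  have hρ0 : 0 ≤ (1 - δ) ^ ζ := Real.rpow_nonneg (by linarith) _
  have hρ1 : (1 - δ) ^ ζ < 1 := Real.rpow_lt_one (by linarith) (by linarith) hζ0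
  set A : ℝ := 2 * c / δ with hA
  have hAc : c ≤ A := by
    rw [hA, le_div_iff₀ hδ0]
    nlinarith
  set B : ℝ := c / (1 - (1 - δ) ^ ζ) with hB
  have hden : 0 < 1 - (1 - δ) ^ ζ := by linarith
  have hBc : c ≤ B := by
    rw [hB, le_div_iff₀ hden]
    nlinarith
  have hB0 : 0 < B := hc.trans_le hBc
  have hA0 : 0 < A := hc.trans_le hAc
  -- the parameter `κ`
  set κ : ℝ := min (Real.sqrt τ₀) (ε / (28 * A)) with hκ
  have hκ0 : 0 < κ := lt_min (Real.sqrt_pos.2 hτ₀0) (by positivity)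
  have hκτ : κ ^ 2 ≤ τ₀ := by
    have h1 : κ ≤ Real.sqrt τ₀ := min_le_left _ _
    calc κ ^ 2 ≤ (Real.sqrt τ₀) ^ 2 := pow_le_pow_left₀ hκ0.le h1 2
      _ = τ₀ := Real.sq_sqrt hτ₀0.le
  have hκ1 : κ ^ 2 ≤ 1 := by linarith
  have hκA : 14 * A * κ ≤ ε / 2 := by
    have h1 : κ ≤ ε / (28 * A) := min_le_right _ _
    rw [le_div_iff₀ (by positivity)] at h1
    linarith
  obtain ⟨N₁, hN₁⟩ := small_term B (ε / 2) hB0 (by positivity)
  refine ⟨7 / κ ^ 2, ?_, max N₁ 1, fun N hN => ?_⟩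
  · rw [le_div_iff₀ (by positivity)]
    linarith
  have hN1 : (1 : ℝ) ≤ N := by exact_mod_cast (le_max_right _ _).trans hN
  set Λ : ℝ := 8 * ((2 : ℕ) : ℝ) * (2 * N + 1) with hΛ
  have hΛ8 : 8 ≤ Λ := by
    rw [hΛ]
    push_cast
    linarith
  have hΛ0 : 0 < Λ := by linarith
  set R : ℝ := Real.sqrt Λ with hR
  have hR0 : 0 < R := Real.sqrt_pos.2 hΛ0
  set Γ : ℝ := R / κ ^ 2 with hΓ
  have hΓ0 : 0 < Γ := by positivity
  have hΓτ : R / τ₀ ≤ Γ := by
    rw [hΓ]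
    exact div_le_div_of_nonneg_left hR0.le (by positivity) hκτ
  -- the potential
  set Φ : ℝ → ℝ := fun m => A * R * (2 * κ - Real.sqrt (R / m)) + B * (Λ ^ β * m ^ ζ) with hΦ
  have hmain : ∀ n : ℕ, ∀ U : Finset ℕ, U.card = n → U ⊆ range (N + 1) → Γ < U.card →
      Cov (fun I => I ⊆ U ∧ Free 2 I) U (Real.exp (Φ U.card)) Γ := by
    intro n
    induction n using Nat.strong_induction_on with
    | _ n ih =>
    intro U hUn hU hUΓ
    set m : ℝ := (U.card : ℝ) with hmdef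
    have hm0 : 0 < m := hΓ0.trans hUΓ
    have h1 := hstep N U Λ (fun v hv => by have := mem_range.1 (hU hv); omega) hΛ
      (hΓτ.trans hUΓ.le)
    set f : ℝ := c * (R * Real.sqrt (R / m) + Λ ^ β * m ^ ζ) with hf
    set ψ : ℝ := Real.sqrt (R / m) with hψ
    have hψ0 : 0 ≤ ψ := Real.sqrt_nonneg _
    have hψ1 : ψ ≤ κ := by
      rw [hψ]
      refine Real.sqrt_le_iff.2 ⟨hκ0.le, ?_⟩
      rw [div_le_iff₀ hm0]
      have h2 : R ≤ Γ * κ ^ 2 := by
        rw [hΓ]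
        field_simp
        exact le_rfl
      nlinarith [sq_nonneg κ]
    have hΛm : 0 < Λ ^ β * m ^ ζ := by positivity
    have hΦm : Φ m = A * R * (2 * κ - ψ) + B * (Λ ^ β * m ^ ζ) := rfl
    have h2 : Cov (fun I => I ⊆ U ∧ Free 2 I) U (Real.exp f * Real.exp (Φ m - f)) Γ := by
      refine h1.comp (Real.exp_pos _).le ?_
      intro C hC hCm
      by_cases hCΓ : (C.card : ℝ) ≤ Γ
      · refine (Cov.one (P := fun I => I ⊆ C) hC hCΓ (fun I hI => hI)).mono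
          (fun I hI => hI.1) ?_ le_rfl
        refine Real.one_le_exp ?_
        rw [hΦm, hf]
        have h3 : c * (R * ψ) ≤ A * R * (2 * κ - ψ) := by
          have h4 : R * ψ ≤ R * (2 * κ - ψ) := mul_le_mul_of_nonneg_left (by linarith) hR0.le
          have h5 : 0 ≤ R * (2 * κ - ψ) := by
            have : 0 ≤ 2 * κ - ψ := by linarith
            positivity
          calc c * (R * ψ) ≤ c * (R * (2 * κ - ψ)) := mul_le_mul_of_nonneg_left h4 hc.le
            _ ≤ A * (R * (2 * κ - ψ)) := mul_le_mul_of_nonneg_right hAc h5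
            _ = _ := by ring
        have h6 : c * (Λ ^ β * m ^ ζ) ≤ B * (Λ ^ β * m ^ ζ) :=
          mul_le_mul_of_nonneg_right hBc hΛm.le
        linarith
      · push Not at hCΓ
        set m' : ℝ := (C.card : ℝ) with hm'def
        have hm'0 : 0 < m' := hΓ0.trans hCΓ
        have hδ2 : 0 < 1 - δ := by
          by_contra h
          have h3 : (1 - δ) * m ≤ 0 := mul_nonpos_of_nonpos_of_nonneg (by linarith) hm0.le
          linarith
        have hlt : C.card < n := by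
          rw [← hUn]
          have h3 : m' < m := by nlinarith
          rw [hm'def, hmdef] at h3
          exact_mod_cast h3
        have h3 := ih C.card hlt C rfl (hC.trans hU) hCΓ
        obtain ⟨𝒟, hD1, hD2, hD3⟩ := h3
        refine ⟨𝒟, hD1.trans (Real.exp_le_exp.2 ?_), fun E hE => ⟨(hD2 E hE).1.trans hC,
          (hD2 E hE).2⟩, fun I hI => hD3 I ⟨hI.1, hI.2.2⟩⟩
        rw [hΦm, hf]
        have hΦm' : Φ m' = A * R * (2 * κ - Real.sqrt (R / m')) + B * (Λ ^ β * m' ^ ζ) := rfl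
        rw [hΦm']
        set ψ' : ℝ := Real.sqrt (R / m') with hψ'
        have h4 : (1 + δ / 2) * ψ ≤ ψ' := by
          rw [hψ']
          refine Real.le_sqrt_of_sq_le ?_
          rw [mul_pow, hψ, Real.sq_sqrt (by positivity), ← mul_div_assoc,
            div_le_div_iff₀ hm0 hm'0]
          have hδ3 : 0 < δ * δ := mul_pos hδ0 hδ0
          have hδ4 : 0 < δ * δ * δ := mul_pos hδ3 hδ0
          have h5 : (1 + δ / 2) ^ 2 * (1 - δ) ≤ 1 := by nlinarith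
          calc (1 + δ / 2) ^ 2 * R * m' ≤ (1 + δ / 2) ^ 2 * R * ((1 - δ) * m) :=
                mul_le_mul_of_nonneg_left hCm (by positivity)
            _ = ((1 + δ / 2) ^ 2 * (1 - δ)) * (R * m) := by ring
            _ ≤ 1 * (R * m) := mul_le_mul_of_nonneg_right h5 (by positivity)
            _ = R * m := one_mul _
        have h6 : c * (R * ψ) ≤ A * R * (ψ' - ψ) := by
          have h7 : δ / 2 * ψ ≤ ψ' - ψ := by linarith
          calc c * (R * ψ) = A * R * (δ / 2 * ψ) := by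
                rw [hA]
                field_simp
            _ ≤ A * R * (ψ' - ψ) := mul_le_mul_of_nonneg_left h7 (by positivity)
        have h8 : m' ^ ζ ≤ (1 - δ) ^ ζ * m ^ ζ := by
          rw [← Real.mul_rpow hδ2.le hm0.le]
          exact Real.rpow_le_rpow hm'0.le hCm hζ0.le
        have h9 : B * (Λ ^ β * m' ^ ζ) + c * (Λ ^ β * m ^ ζ) ≤ B * (Λ ^ β * m ^ ζ) := by
          have h10 : B * (1 - (1 - δ) ^ ζ) = c := by
            rw [hB]
            field_simp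
          have h11 : B * (Λ ^ β * m' ^ ζ) ≤ B * (Λ ^ β * ((1 - δ) ^ ζ * m ^ ζ)) :=
            mul_le_mul_of_nonneg_left (mul_le_mul_of_nonneg_left h8 (by positivity)) hB0.le
          have h12 : B * (Λ ^ β * ((1 - δ) ^ ζ * m ^ ζ)) + c * (Λ ^ β * m ^ ζ) =
              B * (Λ ^ β * m ^ ζ) := by
            rw [← h10]
            ring
          linarith
        linarith
    rw [← Real.exp_add, add_sub_cancel] at h2
    exact h2
  have hRN : R ≤ 7 * Real.sqrt N := by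
    rw [hR, show (7 : ℝ) = Real.sqrt 49 by
      rw [show (49 : ℝ) = 7 ^ 2 by norm_num, Real.sqrt_sq (by norm_num)],
      ← Real.sqrt_mul (by norm_num)]
    refine Real.sqrt_le_sqrt ?_
    rw [hΛ]
    push_cast
    linarith
  have hΓN : Γ ≤ 7 / κ ^ 2 * Real.sqrt N := by
    rw [hΓ, div_mul_eq_mul_div]
    exact div_le_div_of_nonneg_right hRN (by positivity)
  have hsN : 0 ≤ Real.sqrt N := Real.sqrt_nonneg _
  by_cases hbig : Γ < (range (N + 1)).card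
  · refine (hmain _ (range (N + 1)) rfl (Subset.refl _) hbig).mono (fun I hI => hI) ?_ hΓN
    refine Real.exp_le_exp.2 ?_
    have h1 := hN₁ N ((le_max_left _ _).trans hN)
    have h2 : (((range (N + 1)).card : ℕ) : ℝ) = (N : ℝ) + 1 := by
      rw [card_range]
      push_cast
      ring
    have h3 : Φ ((range (N + 1)).card : ℝ) ≤ A * R * (2 * κ) + B * (Λ ^ β * ((N : ℝ) + 1) ^ ζ) := by
      rw [h2]
      have h4 : 0 ≤ A * R * Real.sqrt (R / ((N : ℝ) + 1)) := by positivity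
      have h5 : Φ ((N : ℝ) + 1) = A * R * (2 * κ - Real.sqrt (R / ((N : ℝ) + 1))) +
        B * (Λ ^ β * ((N : ℝ) + 1) ^ ζ) := rfl
      rw [h5]
      linarith
    have h6 : A * R * (2 * κ) ≤ ε / 2 * Real.sqrt N := by
      calc A * R * (2 * κ) ≤ A * (7 * Real.sqrt N) * (2 * κ) := by
            refine mul_le_mul_of_nonneg_right ?_ (by positivity)
            exact mul_le_mul_of_nonneg_left hRN hA0.le
        _ = 14 * A * κ * Real.sqrt N := by ring
        _ ≤ ε / 2 * Real.sqrt N := mul_le_mul_of_nonneg_right hκA hsN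
    have h7 : B * (Λ ^ β * ((N : ℝ) + 1) ^ ζ) ≤ ε / 2 * Real.sqrt N := h1
    exact (h3.trans (add_le_add h6 h7)).trans (le_of_eq (by ring))
  · push Not at hbig
    refine (Cov.one (P := fun I => I ⊆ range (N + 1)) (Subset.refl _) (hbig.trans hΓN)
      (fun I hI => hI)).mono (fun I hI => hI.1) ?_ le_rfl
    exact Real.one_le_exp (by positivity)

end Pool.Agent.helper287_Sidon
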