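import Pool.Agent.helper287_Sidon.Iterate
import Pool.Agent.helper287_Sidon.Stage1
import Pool.Agent.helper287_Sidon.ETBound
import Pool.Agent.helper287_Sidon.Balls
import Pool.Agent.helper287_Sidon.Random
/-!
# The main theorem
-/

set_option autoImplicit false

open Finset Pool.Agent.Y940.CT

namespace Pool.Agent.helper287_Sidon

theorem free_of_sid {I : Finset ℕ} (h : Sid I) : Free 2 I := by
  intro σ
  by_contra hc
  push Not at hc
  obtain ⟨a, ha, b, hb, hab⟩ := one_lt_card.1 hc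
  rw [Pool.Agent.Y940.RS.mem_pairs] at ha hb
  obtain ⟨ha1, ha2, ha3⟩ := ha
  obtain ⟨hb1, hb2, hb3⟩ := hb
  have := h a ha1 (σ - a) ha3 b hb1 (σ - b) hb3 (by omega)
  omega

theorem sid_mono {I J : Finset ℕ} (h : Sid J) (hIJ : I ⊆ J) : Sid I :=
  fun a ha b hb c hc d hd he => h a (hIJ ha) b (hIJ hb) c (hIJ hc) d (hIJ hd) he

/-- structure of final containers -/
theorem structure_final (ε : ℝ) (hε : 0 < ε) (hε1 : ε ≤ 1 / 10) : ∃ ε₂ : ℝ, 0 < ε₂ ∧ ∀ (K₀ : ℝ) (M : ℕ),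
    0 < K₀ → ∃ N₀ : ℕ, ∀ N : ℕ, N₀ ≤ N → ∀ C : Finset ℕ, C ⊆ range (N + 1) →
      Final N K₀ ε ε₂ M C → ∃ D ⊆ C, (D.card : ℝ) ≤ (1 + ε) * Real.sqrt N ∧
        ∀ S ⊆ C, Sid S → (S.card : ℝ) ≤ (S ∩ D).card +
          4 / 5 * ((1 + ε) * Real.sqrt N - D.card) + 2 * ε * Real.sqrt N := by
  classical
  obtain ⟨ε₂, hε₂, het⟩ := et_bound ε hε
  refine ⟨ε₂, hε₂, ?_⟩
  intro K₀ M hK
  obtain ⟨N₁, h1⟩ := het K₀ M hK
  obtain ⟨N₂, h2⟩ := balls ε K₀ M hε hK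
  refine ⟨max N₁ N₂, ?_⟩
  intro N hN C hC hF
  have hR0 : 0 ≤ Real.sqrt N := Real.sqrt_nonneg _
  rcases hF with hF | ⟨hK', hap, P, Q, B, hP, hQ, hB, hBc, hq⟩
  · refine ⟨∅, empty_subset _, by simpa using by positivity, ?_⟩
    intro S hS _
    have h3 : (S.card : ℝ) ≤ C.card := by exact_mod_cast card_le_card hS
    simp only [inter_empty, card_empty, Nat.cast_zero]
    have : 0 ≤ ε * Real.sqrt N := by positivity
    nlinarith
  · have hsum := h1 N ((le_max_left _ _).trans hN) C P Q B hC hK' hP hQ hB hap hq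
    set C' := C \ B with hC'
    have hC'C : C' ⊆ C := sdiff_subset
    have hff : ∀ a, kk C' P Q a = 1 → ff C' P Q a = 1 := by
      intro a ha
      unfold ff
      rw [ha]
      simp
    have hff0 : ∀ a, 0 ≤ ff C' P Q a := by
      intro a
      unfold ff
      positivity
    set D := C'.filter fun a => kk C' P Q a = 1 with hD
    have hsplit : ∑ a ∈ C', ff C' P Q a = D.card + ∑ a ∈ C'.filter (fun a => kk C' P Q a ≠ 1),
        ff C' P Q a := by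
      rw [← sum_filter_add_sum_filter_not C' (fun a => kk C' P Q a = 1)]
      congr 1
      rw [sum_congr rfl (fun a ha => hff a (mem_filter.1 ha).2), sum_const, nsmul_eq_mul, mul_one]
    have hrest0 : 0 ≤ ∑ a ∈ C'.filter (fun a => kk C' P Q a ≠ 1), ff C' P Q a :=
      sum_nonneg fun a _ => hff0 a
    refine ⟨D, (filter_subset _ _).trans hC'C, by linarith, ?_⟩
    intro S hS hSid
    have hS' : Sid (S ∩ C') := sid_mono hSid inter_subset_left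
    have hCK' : (C'.card : ℝ) ≤ K₀ * Real.sqrt N := le_trans (by exact_mod_cast card_le_card hC'C) hK'
    have h3 := h2 N ((le_max_right _ _).trans hN) C' P Q (S ∩ C') hCK' hP hQ inter_subset_right hS'
    have h4 : S.card ≤ (S ∩ D).card + ((S ∩ C').filter fun a => kk C' P Q a ≠ 1).card + B.card := by
      have h5 : S ⊆ ((S ∩ D) ∪ ((S ∩ C').filter fun a => kk C' P Q a ≠ 1)) ∪ B := by
        intro x hx
        by_cases hxB : x ∈ B
        · exact mem_union_right _ hxB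
        · refine mem_union_left _ ?_
          have hxC' : x ∈ C' := mem_sdiff.2 ⟨hS hx, hxB⟩
          by_cases hk : kk C' P Q x = 1
          · exact mem_union_left _ (mem_inter.2 ⟨hx, mem_filter.2 ⟨hxC', hk⟩⟩)
          · exact mem_union_right _ (mem_filter.2 ⟨mem_inter.2 ⟨hx, hxC'⟩, hk⟩)
      refine (card_le_card h5).trans ((card_union_le _ _).trans ?_)
      exact Nat.add_le_add_right (card_union_le _ _) _
    have h6 : (S.card : ℝ) ≤ (S ∩ D).card + ((S ∩ C').filter fun a => kk C' P Q a ≠ 1).card +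
        B.card := by exact_mod_cast h4
    linarith

theorem main' : ∃ N₀ : ℕ, ∀ N : ℕ, N₀ ≤ N → ∃ A ⊆ range (N + 1), 74 / 100 * (N : ℝ) ≤ A.card ∧
    ∀ S ⊆ A, Sid S → (S.card : ℝ) ≤ 81 / 100 * Real.sqrt N := by
  classical
  obtain ⟨c, hc, N₁, hrand⟩ := random_set (1 / 1000) (by norm_num)
  set ε : ℝ := min (1 / 1000) (c / 2) with hε
  have hε0 : 0 < ε := lt_min (by norm_num) (by positivity)
  have hε1 : ε ≤ 1 / 1000 := min_le_left _ _
  have hεc : 2 * ε ≤ c := by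
    have := min_le_right (1 / 1000 : ℝ) (c / 2)
    linarith
  obtain ⟨ε₂, hε₂, hstr⟩ := structure_final ε hε0 (by linarith)
  obtain ⟨K₀, hK₀, N₂, hst⟩ := stage1 ε hε0
  obtain ⟨M, N₃, hit⟩ := iterate K₀ ε ε₂ hK₀ hε0 hε₂
  obtain ⟨N₄, hst2⟩ := hstr K₀ M (by linarith)
  refine ⟨max (max N₁ N₂) (max N₃ N₄), ?_⟩
  intro N hN
  have hN1 : N₁ ≤ N := (le_max_left _ _).trans ((le_max_left _ _).trans hN)
  have hN2 : N₂ ≤ N := (le_max_right _ _).trans ((le_max_left _ _).trans hN)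
  have hN3 : N₃ ≤ N := (le_max_left _ _).trans ((le_max_right _ _).trans hN)
  have hN4 : N₄ ≤ N := (le_max_right _ _).trans ((le_max_right _ _).trans hN)
  have hR0 : 0 ≤ Real.sqrt N := Real.sqrt_nonneg _
  obtain ⟨𝒞, hC1, hC2, hC3⟩ := hst N hN2
  have h4 : ∀ C : {C // C ∈ 𝒞}, ∃ 𝒢 : Finset (Finset ℕ), (𝒢.card : ℝ) ≤ Real.exp (ε * Real.sqrt N) ∧
      (∀ E ∈ 𝒢, E ⊆ range (N + 1) ∧ Final N K₀ ε ε₂ M E) ∧ ∀ I, I ⊆ C.1 → Sid I → ∃ E ∈ 𝒢, I ⊆ E := by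
    rintro ⟨C, hC⟩
    obtain ⟨hCr, hCc⟩ := hC2 C hC
    obtain ⟨𝒢, h1, h2, h3⟩ := hit N hN3 C hCr hCc
    exact ⟨𝒢, h1, fun E hE => ⟨(h2 E hE).1.trans hCr, (h2 E hE).2⟩, h3⟩
  choose 𝒢 hG1 hG2 hG3 using h4
  set ℱ := 𝒞.attach.biUnion 𝒢 with hℱ
  have hℱcard : (ℱ.card : ℝ) ≤ Real.exp (c * Real.sqrt N) := by
    have h5' : ℱ.card ≤ ∑ D ∈ 𝒞.attach, (𝒢 D).card := card_biUnion_le
    have h5 : (ℱ.card : ℝ) ≤ ∑ D ∈ 𝒞.attach, ((𝒢 D).card : ℝ) := by exact_mod_cast h5'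
    have h6 : ∑ D ∈ 𝒞.attach, ((𝒢 D).card : ℝ) ≤ ∑ _D ∈ 𝒞.attach, Real.exp (ε * Real.sqrt N) :=
      sum_le_sum fun D _ => hG1 D
    rw [sum_const, card_attach, nsmul_eq_mul] at h6
    refine (h5.trans h6).trans ((mul_le_mul_of_nonneg_right hC1 (Real.exp_pos _).le).trans ?_)
    rw [← Real.exp_add]
    refine Real.exp_le_exp.2 ?_
    nlinarith
  have hstr' : ∀ E : {E // E ∈ ℱ}, ∃ D ⊆ E.1, (D.card : ℝ) ≤ (1 + ε) * Real.sqrt N ∧
        ∀ S ⊆ E.1, Sid S → (S.card : ℝ) ≤ (S ∩ D).card +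
          4 / 5 * ((1 + ε) * Real.sqrt N - D.card) + 2 * ε * Real.sqrt N := by
    rintro ⟨E, hE⟩
    obtain ⟨C, _, hEC⟩ := mem_biUnion.1 hE
    obtain ⟨h1, h2⟩ := hG2 C E hEC
    exact hst2 N hN4 E h1 h2
  choose D hD1 hD2 hD3 using hstr'
  set 𝒟 := ℱ.attach.image D with h𝒟
  have hEr : ∀ E ∈ ℱ, E ⊆ range (N + 1) := by
    intro E hE
    obtain ⟨C, _, hEC⟩ := mem_biUnion.1 hE
    exact (hG2 C E hEC).1
  obtain ⟨A, hA1, hA2, hA3⟩ := hrand N hN1 𝒟 (by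
      refine le_trans ?_ hℱcard
      have : 𝒟.card ≤ ℱ.attach.card := card_image_le
      rw [card_attach] at this
      exact_mod_cast this) (by
      intro D' hD'
      obtain ⟨E, _, rfl⟩ := mem_image.1 hD'
      refine ⟨(hD1 E).trans (hEr E.1 E.2), (hD2 E).trans ?_⟩
      nlinarith)
  refine ⟨A, hA1, ?_, ?_⟩
  · have hN0 : (0 : ℝ) ≤ N := Nat.cast_nonneg N
    nlinarith
  · intro S hS hSid
    obtain ⟨C, hC, hSC⟩ := hC3 S ⟨hS.trans hA1, free_of_sid hSid⟩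
    obtain ⟨E, hE, hSE⟩ := hG3 ⟨C, hC⟩ S hSC hSid
    have hEℱ : E ∈ ℱ := mem_biUnion.2 ⟨⟨C, hC⟩, mem_attach _ _, hE⟩
    have h1 := hD3 ⟨E, hEℱ⟩ S hSE hSid
    have h2 := hA3 (D ⟨E, hEℱ⟩) (mem_image_of_mem _ (mem_attach _ _))
    have h3 : ((S ∩ D ⟨E, hEℱ⟩).card : ℝ) ≤ (A ∩ D ⟨E, hEℱ⟩).card := by
      exact_mod_cast card_le_card (inter_subset_inter_right hS)
    have h4 : (0 : ℝ) ≤ (D ⟨E, hEℱ⟩).card := Nat.cast_nonneg _
    nlinarith

end Pool.Agent.helper287_Sidon
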