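import Pool.Agent.helper287_Sidon.Defs
/-!
# One step of the iteration from a well distributed hypergraph
-/

set_option autoImplicit false

open Finset Pool.Agent.Y940.CT

namespace Pool.Agent.helper287_Sidon

theorem cost_le {τ m : ℝ} {q n s : ℕ} (hτ0 : 0 < τ) (hτ1 : τ ≤ 1) (hm : (n : ℝ) ≤ m)
    (hq : (q : ℝ) ≤ 2 * τ * m) :
    (τ⁻¹ ^ q * (1 + τ) ^ n) ^ s ≤ Real.exp (s * (5 * Real.sqrt τ * m)) := by
  have hm0 : 0 ≤ m := (Nat.cast_nonneg n).trans hm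
  have hinv : (1 : ℝ) ≤ τ⁻¹ := (one_le_inv₀ hτ0).2 hτ1
  have hlog : 0 ≤ Real.log τ⁻¹ := Real.log_nonneg hinv
  have hs0 : 0 < Real.sqrt τ := Real.sqrt_pos.2 hτ0
  have hss : Real.sqrt τ * Real.sqrt τ = τ := Real.mul_self_sqrt hτ0.le
  have hs1 : Real.sqrt τ ≤ 1 := Real.sqrt_le_one.2 hτ1
  have hlog2 : τ * Real.log τ⁻¹ ≤ 2 * Real.sqrt τ := by
    have h1 : Real.log τ⁻¹ = 2 * Real.log (Real.sqrt τ)⁻¹ := by
      rw [Real.log_inv, Real.log_inv, Real.log_sqrt hτ0.le]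
      ring
    have h2 : Real.log (Real.sqrt τ)⁻¹ ≤ (Real.sqrt τ)⁻¹ :=
      (Real.log_le_sub_one_of_pos (by positivity)).trans (by linarith)
    have h3 : Real.sqrt τ * (Real.sqrt τ)⁻¹ = 1 := mul_inv_cancel₀ hs0.ne'
    calc τ * Real.log τ⁻¹ = 2 * (Real.sqrt τ * (Real.sqrt τ * Real.log (Real.sqrt τ)⁻¹)) := by
          rw [h1, ← mul_assoc (Real.sqrt τ), hss]
          ring
      _ ≤ 2 * (Real.sqrt τ * (Real.sqrt τ * (Real.sqrt τ)⁻¹)) := by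
          refine mul_le_mul_of_nonneg_left ?_ (by norm_num)
          refine mul_le_mul_of_nonneg_left ?_ hs0.le
          exact mul_le_mul_of_nonneg_left h2 hs0.le
      _ = 2 * Real.sqrt τ := by rw [h3, mul_one]
  have hττ : τ ≤ Real.sqrt τ := by nlinarith
  have h1 : τ⁻¹ ^ q ≤ Real.exp (2 * τ * m * Real.log τ⁻¹) := by
    rw [← Real.exp_log (show (0 : ℝ) < τ⁻¹ ^ q by positivity), Real.log_pow]
    exact Real.exp_le_exp.2 (mul_le_mul_of_nonneg_right hq hlog)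
  have h2 : (1 + τ) ^ n ≤ Real.exp (τ * m) := by
    refine le_trans (b := Real.exp (n * τ)) ?_ (Real.exp_le_exp.2 (by nlinarith))
    rw [Real.exp_nat_mul]
    refine pow_le_pow_left₀ (by linarith) ?_ _
    have := Real.add_one_le_exp τ
    linarith
  have h3 : τ⁻¹ ^ q * (1 + τ) ^ n ≤ Real.exp (2 * τ * m * Real.log τ⁻¹ + τ * m) := by
    rw [Real.exp_add]
    exact mul_le_mul h1 h2 (by positivity) (Real.exp_pos _).le
  have h4 : 2 * τ * m * Real.log τ⁻¹ + τ * m ≤ 5 * Real.sqrt τ * m := by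
    have h5 : 2 * τ * m * Real.log τ⁻¹ = 2 * (τ * Real.log τ⁻¹) * m := by ring
    rw [h5]
    nlinarith
  calc (τ⁻¹ ^ q * (1 + τ) ^ n) ^ s ≤ (Real.exp (5 * Real.sqrt τ * m)) ^ s :=
        pow_le_pow_left₀ (by positivity) (h3.trans (Real.exp_le_exp.2 h4)) _
    _ = _ := by rw [← Real.exp_nat_mul]

/-- **One step.** -/
theorem step_of_spread (s : ℕ) (hs : 1 ≤ s) (K K₀ a : ℝ) (hK : 1 ≤ K) (hK₀ : 1 ≤ K₀)
    (ha : 0 < a) : ∃ δ : ℝ, 0 < δ ∧ δ ≤ 1 ∧ ∃ τ₀ : ℝ, 0 < τ₀ ∧ τ₀ ≤ 1 ∧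
    ∀ τ : ℝ, 0 < τ → τ ≤ τ₀ → ∃ N₀ : ℕ, ∀ N : ℕ, N₀ ≤ N → ∀ C : Finset ℕ,
      Real.sqrt N / 10 ≤ C.card → (C.card : ℝ) ≤ K₀ * Real.sqrt N →
      ∀ (w : Finset ℕ → ℝ) (D : ℝ), 0 < D → Spread C s w D K τ →
      Cov (fun I => I ⊆ C ∧ Ind w I) C (Real.exp (a * δ * Real.sqrt N)) ((1 - δ) * C.card) := by
  obtain ⟨δ, hδ0, hδ1, τ₁, hτ₁0, hτ₁1, hcont⟩ := containers s hs K hK
  have hs1 : (0 : ℝ) < s := by exact_mod_cast hs
  set r : ℝ := a * δ / (5 * s * K₀) with hr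
  have hr0 : 0 < r := by positivity
  refine ⟨δ, hδ0, hδ1, min τ₁ (r ^ 2), lt_min hτ₁0 (by positivity),
    (min_le_left _ _).trans hτ₁1, ?_⟩
  intro τ hτ0 hτle
  have hτ1 : τ ≤ 1 := hτle.trans ((min_le_left _ _).trans hτ₁1)
  refine ⟨⌈(10 / τ) ^ 2⌉₊, ?_⟩
  intro N hN C hC1 hC2 w D hD hw
  have hN' : (10 / τ) ^ 2 ≤ N := (Nat.le_ceil _).trans (by exact_mod_cast hN)
  have hR : 10 / τ ≤ Real.sqrt N := Real.le_sqrt_of_sq_le hN'
  have hR0 : 0 ≤ Real.sqrt N := Real.sqrt_nonneg _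
  have hmτ : 1 ≤ C.card * τ := by
    have h1 : 10 ≤ Real.sqrt N * τ := by
      rwa [div_le_iff₀ hτ0] at hR
    nlinarith
  set q : ℕ := ⌈(C.card : ℝ) * τ⌉₊ with hq
  have hq1 : C.card * τ ≤ q := Nat.le_ceil _
  have hq2 : (q : ℝ) ≤ 2 * τ * C.card := by
    have := Nat.ceil_lt_add_one (show 0 ≤ (C.card : ℝ) * τ by positivity)
    rw [← hq] at this
    linarith
  refine (hcont C w D τ q hD hτ0 (hτle.trans (min_le_left _ _)) hq1 hq2 hw).mono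
    (fun I hI => hI) ?_ le_rfl
  refine (cost_le (m := K₀ * Real.sqrt N) hτ0 hτ1 hC2 (hq2.trans ?_)).trans
    (Real.exp_le_exp.2 ?_)
  · exact mul_le_mul_of_nonneg_left hC2 (by positivity)
  · have h1 : Real.sqrt τ ≤ r := by
      rw [show r = Real.sqrt (r ^ 2) by rw [Real.sqrt_sq hr0.le]]
      exact Real.sqrt_le_sqrt (hτle.trans (min_le_right _ _))
    have h2 : ((s - 1 : ℕ) : ℝ) ≤ s := by exact_mod_cast Nat.sub_le s 1
    calc ((s - 1 : ℕ) : ℝ) * (5 * Real.sqrt τ * (K₀ * Real.sqrt N))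
        ≤ s * (5 * r * (K₀ * Real.sqrt N)) := by
          refine mul_le_mul h2 ?_ (by positivity) hs1.le
          exact mul_le_mul_of_nonneg_right (by linarith) (by positivity)
      _ = a * δ * Real.sqrt N := by
          rw [hr]
          field_simp

end Pool.Agent.helper287_Sidon
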